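import Pool.Agent.H24.SCG2.Stmts2
import Pool.Agent.H24.SCG.Base

/-!
Project SCG2: basic facts on scalars and on the relation `Rel`.
-/

namespace Pool.SCG

open Matrix

section zs

variable {F : Type*} [Field F]

theorem dg_smul (z : F) : dg z z z = z • (1 : M3 F) := by
  ext i j
  fin_cases i <;> fin_cases j <;> simp [dg]

theorem zs_one : (1 : Cor F) ∈ Zs F := ⟨1, by simp, by rw [dg_one]; exact is_one⟩

theorem zs_mul {z w : Cor F} (hz : z ∈ Zs F) (hw : w ∈ Zs F) : z * w ∈ Zs F := by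
  obtain ⟨a, ha, hA⟩ := hz
  obtain ⟨b, hb, hB⟩ := hw
  refine ⟨a * b, by rw [mul_pow, ha, hb, one_mul], ?_⟩
  have := hA.mul_inner hB
  rwa [dg_mul] at this

theorem zs_s {z : Cor F} (hz : z ∈ Zs F) : z.s = false := by
  obtain ⟨a, _, hA⟩ := hz
  exact hA.1

theorem zs_sq_inv {z : Cor F} (hz : z ∈ Zs F) : z * (z * z) = 1 := by
  obtain ⟨a, ha, hA⟩ := hz
  have := hA.mul_inner (hA.mul_inner hA)
  rw [dg_mul, dg_mul] at this
  have e : a * (a * a) = 1 := by rw [← ha]; ring
  rw [e, dg_one] at this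
  exact this.ext is_one

theorem zs_inv {z : Cor F} (hz : z ∈ Zs F) : z⁻¹ ∈ Zs F := by
  have h := zs_sq_inv hz
  have : z⁻¹ = z * z := inv_eq_of_mul_eq_one_right h
  rw [this]
  exact zs_mul hz hz

/-- the subgroup of scalars -/
def ZG (F : Type*) [Field F] : Subgroup (Cor F) where
  carrier := Zs F
  one_mem' := zs_one
  mul_mem' := zs_mul
  inv_mem' := zs_inv

theorem mem_ZG {z : Cor F} : z ∈ ZG F ↔ z ∈ Zs F := Iff.rfl

/-- scalars commute with inner elements -/
theorem zs_comm {z x : Cor F} (hz : z ∈ Zs F) (hx : x.s = false) : z * x = x * z := by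
  obtain ⟨a, _, hA⟩ := hz
  have hX : Is x false (x.m : M3 F) := ⟨hx, rfl⟩
  rw [comm_inner_iff hA hX, dg_smul, Matrix.smul_mul, Matrix.mul_smul, one_mul, mul_one]

/-- outer elements invert scalars -/
theorem zs_outer {z x : Cor F} (hz : z ∈ Zs F) (hx : x.s = true) : z * x = x * z⁻¹ := by
  have hzz : z⁻¹ = z * z := inv_eq_of_mul_eq_one_right (zs_sq_inv hz)
  obtain ⟨a, ha, hA⟩ := hz
  have hX : Is x true (x.m : M3 F) := ⟨hx, rfl⟩
  have h1 := hA.mul_outer' hX (A' := dg (a ^ 2) (a ^ 2) (a ^ 2)) (by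
    rw [dg_mul]
    have e : a * a ^ 2 = 1 := by rw [← ha]; ring
    rw [e, dg_one])
  have h2 := hX.mul_inner (hA.mul_inner hA)
  rw [hzz]
  refine h1.ext ?_
  have e : (dg (a ^ 2) (a ^ 2) (a ^ 2)).transpose * (x.m : M3 F) =
      (x.m : M3 F) * (dg a a a * dg a a a) := by
    rw [dg_transpose, dg_mul, ← pow_two, dg_smul, Matrix.smul_mul, Matrix.mul_smul, one_mul,
      mul_one]
  rw [e]
  exact h2

/-- conjugates of scalars are scalars -/
theorem zs_conj {z : Cor F} (hz : z ∈ Zs F) (x : Cor F) : x * z * x⁻¹ ∈ Zs F := by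
  by_cases hx : x.s = false
  · rw [← zs_comm hz hx, mul_inv_cancel_right]
    exact hz
  · have hx' : x.s = true := by simpa using hx
    have h := zs_outer (zs_inv hz) hx'
    rw [inv_inv] at h
    rw [← h, mul_inv_cancel_right]
    exact zs_inv hz

theorem zs_conj' {z : Cor F} (hz : z ∈ Zs F) (x : Cor F) : x⁻¹ * z * x ∈ Zs F := by
  have := zs_conj hz x⁻¹
  rwa [inv_inv] at this

theorem zs_cube {z : Cor F} (hz : z ∈ Zs F) : z ^ 3 = 1 := by
  rw [pow_succ, pow_two, mul_assoc]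
  exact zs_sq_inv hz

/-- every element of `⟨T, Zs⟩` is the product of an element of `⟨T⟩` and a scalar -/
theorem closure_zs (T : Set (Cor F)) (x : Cor F) (hx : x ∈ Subgroup.closure (T ∪ Zs F)) :
    ∃ y ∈ Subgroup.closure T, ∃ z ∈ Zs F, x = y * z := by
  induction hx using Subgroup.closure_induction with
  | mem x h =>
    rcases h with h | h
    · exact ⟨x, Subgroup.subset_closure h, 1, zs_one, (mul_one x).symm⟩
    · exact ⟨1, one_mem _, x, h, (one_mul x).symm⟩
  | one => exact ⟨1, one_mem _, 1, zs_one, (mul_one 1).symm⟩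
  | mul a b _ _ ha hb =>
    obtain ⟨y, hy, z, hz, rfl⟩ := ha
    obtain ⟨y', hy', z', hz', rfl⟩ := hb
    refine ⟨y * y', mul_mem hy hy', (y'⁻¹ * z * y') * z', zs_mul (zs_conj' hz y') hz', ?_⟩
    group
  | inv a _ ha =>
    obtain ⟨y, hy, z, hz, rfl⟩ := ha
    refine ⟨y⁻¹, inv_mem hy, y * z⁻¹ * y⁻¹, zs_conj (zs_inv hz) y, ?_⟩
    group

theorem closure_zs_mem (T : Set (Cor F)) {y z : Cor F} (hy : y ∈ Subgroup.closure T)
    (hz : z ∈ Zs F) : y * z ∈ Subgroup.closure (T ∪ Zs F) :=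
  mul_mem (Subgroup.closure_mono Set.subset_union_left hy)
    (Subgroup.subset_closure (Or.inr hz))

end zs

section rel

variable {F K : Type*} [Field F] [Field K] [Algebra F K]

theorem iS_injective : Function.Injective (iS F K) := by
  intro g h hgh
  apply Subtype.ext
  ext i j
  have h1 := congrArg (fun m : SL3 K => (m : M3 K) i j) hgh
  simp only [iS, Matrix.SpecialLinearGroup.map_apply_coe, RingHom.mapMatrix_apply,
    Matrix.map_apply] at h1
  exact (algebraMap F K).injective h1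

theorem rel_one : Rel (F := F) (1 : Cor K) 1 := by
  intro g
  rw [map_one, MulAut.one_apply, MulAut.one_apply]

theorem rel_mul {x y : Cor K} {α β : MulAut (SL3 F)} (hx : Rel x α) (hy : Rel y β) :
    Rel (x * y) (α * β) := by
  intro g
  rw [map_mul, MulAut.mul_apply, hy g, hx (β g), MulAut.mul_apply]

theorem rel_inv {x : Cor K} {α : MulAut (SL3 F)} (hx : Rel x α) : Rel x⁻¹ α⁻¹ := by
  intro g
  have h := hx (α⁻¹ g)
  rw [MulAut.apply_inv_self] at h
  rw [map_inv, ← h, MulAut.inv_apply_self]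

theorem rel_zs {z : Cor K} (hz : z ∈ Zs K) : Rel (F := F) z 1 := by
  intro g
  rw [MulAut.one_apply]
  have hc := zs_comm hz (x := inn (iS F K g)) rfl
  have hs := zs_s hz
  rw [iota_apply, hs]
  have h1 : z.m * iS F K g = iS F K g * z.m := by
    have := congrArg Cor.m hc
    rw [Cor.mul_m, Cor.mul_m, hs] at this
    exact this
  show z.m * iS F K g * (z.m)⁻¹ = iS F K g
  rw [h1, mul_inv_cancel_right]

theorem rel_inn (m : SL3 F) : Rel (inn (iS F K m)) (MulAut.conj m) := by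
  intro g
  rw [iota_apply]
  show iS F K m * iS F K g * (iS F K m)⁻¹ = iS F K (MulAut.conj m g)
  rw [MulAut.conj_apply, map_mul, map_mul, map_inv]

/-- two automorphisms induced by the same element are equal -/
theorem rel_right {x : Cor K} {α β : MulAut (SL3 F)} (hx : Rel x α) (hy : Rel x β) : α = β := by
  ext g : 1
  apply iS_injective (K := K)
  rw [← hx g, ← hy g]

/-- two elements inducing the same automorphism differ by a scalar -/
theorem rel_left (hRELZ : RELZStmt) {F K : Type} [Field F] [Field K] [Algebra F K] {x y : Cor K}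
    {α : MulAut (SL3 F)} (hx : Rel x α) (hy : Rel y α) : ∃ z ∈ Zs K, y = x * z := by
  refine ⟨x⁻¹ * y, ?_, by group⟩
  apply hRELZ F K
  have := rel_mul (rel_inv hx) hy
  rwa [inv_mul_cancel] at this

theorem rel_mul_zs {x z : Cor K} {α : MulAut (SL3 F)} (hx : Rel x α) (hz : z ∈ Zs K) :
    Rel (x * z) α := by
  have := rel_mul hx (rel_zs (F := F) hz)
  rwa [mul_one] at this

theorem rel_zs_mul {x z : Cor K} {α : MulAut (SL3 F)} (hx : Rel x α) (hz : z ∈ Zs K) :
    Rel (z * x) α := by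
  have := rel_mul (rel_zs (F := F) hz) hx
  rwa [one_mul] at this

/-- from `Cor K` to the automorphisms -/
theorem rel_closure {T : Set (Cor K)} {S : Set (MulAut (SL3 F))}
    (h : ∀ t ∈ T, ∃ s ∈ S, Rel t s) (x : Cor K) (hx : x ∈ Subgroup.closure (T ∪ Zs K)) :
    ∃ α ∈ Subgroup.closure S, Rel x α := by
  induction hx using Subgroup.closure_induction with
  | mem x hx =>
    rcases hx with hx | hx
    · obtain ⟨s, hs, hr⟩ := h x hx
      exact ⟨s, Subgroup.subset_closure hs, hr⟩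
    · exact ⟨1, one_mem _, rel_zs hx⟩
  | one => exact ⟨1, one_mem _, rel_one⟩
  | mul a b _ _ ha hb =>
    obtain ⟨α, hα, hr⟩ := ha
    obtain ⟨β, hβ, hr'⟩ := hb
    exact ⟨α * β, mul_mem hα hβ, rel_mul hr hr'⟩
  | inv a _ ha =>
    obtain ⟨α, hα, hr⟩ := ha
    exact ⟨α⁻¹, inv_mem hα, rel_inv hr⟩

/-- from the automorphisms to `Cor K` -/
theorem rel_closure' {T : Set (Cor K)} {S : Set (MulAut (SL3 F))}
    (h : ∀ s ∈ S, ∃ t ∈ T, Rel t s) (α : MulAut (SL3 F)) (hα : α ∈ Subgroup.closure S) :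
    ∃ x ∈ Subgroup.closure T, Rel x α := by
  induction hα using Subgroup.closure_induction with
  | mem α hα =>
    obtain ⟨t, ht, hr⟩ := h α hα
    exact ⟨t, Subgroup.subset_closure ht, hr⟩
  | one => exact ⟨1, one_mem _, rel_one⟩
  | mul a b _ _ ha hb =>
    obtain ⟨α, hα, hr⟩ := ha
    obtain ⟨β, hβ, hr'⟩ := hb
    exact ⟨α * β, mul_mem hα hβ, rel_mul hr hr'⟩
  | inv a _ ha =>
    obtain ⟨α, hα, hr⟩ := ha
    exact ⟨α⁻¹, inv_mem hα, rel_inv hr⟩

end rel

end Pool.SCG
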