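import Pool.Agent.H24.SCG2.Stmts3
import Pool.Agent.H24.SCG2.Base2

/-!
Project SCG2: automorphisms given by matrices.
-/

namespace Pool.SCG

open Matrix

variable {F : Type*} [Field F]

theorem diagAut_coe (P : GL (Fin 3) F) (g : SL3 F) :
    ((diagAut P g : SL3 F) : M3 F) = (P : M3 F) * (g : M3 F) * ((P⁻¹ : GL (Fin 3) F) : M3 F) := rfl

theorem graphAut_coe (g : SL3 F) :
    ((graphAut F g : SL3 F) : M3 F) = ((g : M3 F)⁻¹).transpose := by
  show ((it g : SL3 F) : M3 F) = _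
  rw [coe_it, Matrix.inv_def, g.2]
  simp

theorem diagAut_mul (P Q : GL (Fin 3) F) : diagAut (P * Q) = diagAut P * diagAut Q := by
  ext g : 1
  apply Subtype.ext
  rw [MulAut.mul_apply, diagAut_coe, diagAut_coe, diagAut_coe, _root_.mul_inv_rev, Units.val_mul,
    Units.val_mul]
  simp only [mul_assoc]

theorem diagAut_one : diagAut (1 : GL (Fin 3) F) = 1 := by
  ext g : 1
  apply Subtype.ext
  rw [diagAut_coe, inv_one, Units.val_one, one_mul, mul_one, MulAut.one_apply]

/-- inverse transpose in `GL(3,F)` -/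
def gt (P : GL (Fin 3) F) : GL (Fin 3) F where
  val := ((P⁻¹ : GL (Fin 3) F) : M3 F).transpose
  inv := (P : M3 F).transpose
  val_inv := by
    rw [← Matrix.transpose_mul, ← Units.val_mul, mul_inv_cancel, Units.val_one,
      Matrix.transpose_one]
  inv_val := by
    rw [← Matrix.transpose_mul, ← Units.val_mul, inv_mul_cancel, Units.val_one,
      Matrix.transpose_one]

theorem gt_coe (P : GL (Fin 3) F) :
    ((gt P : GL (Fin 3) F) : M3 F) = ((P⁻¹ : GL (Fin 3) F) : M3 F).transpose := rfl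

theorem gt_inv_coe (P : GL (Fin 3) F) :
    (((gt P)⁻¹ : GL (Fin 3) F) : M3 F) = (P : M3 F).transpose := rfl

theorem graph_mul_graph : graphAut F * graphAut F = 1 := by
  ext g : 1
  exact it_it g

theorem diagAut_graph (P : GL (Fin 3) F) :
    diagAut P * graphAut F = graphAut F * diagAut (gt P) := by
  ext g : 1
  have h : graphAut F (diagAut P (graphAut F g)) = diagAut (gt P) g := by
    apply Subtype.ext
    rw [graphAut_coe, diagAut_coe, diagAut_coe, graphAut_coe, gt_coe, gt_inv_coe]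
    have e1 : ((P : M3 F) * ((g : M3 F)⁻¹).transpose * ((P⁻¹ : GL (Fin 3) F) : M3 F))⁻¹ =
        (P : M3 F) * (g : M3 F).transpose * ((P⁻¹ : GL (Fin 3) F) : M3 F) := by
      apply Matrix.inv_eq_left_inv
      have h1 : ((P⁻¹ : GL (Fin 3) F) : M3 F) * (P : M3 F) = 1 := by
        rw [← Units.val_mul, inv_mul_cancel, Units.val_one]
      have h2 : (P : M3 F) * ((P⁻¹ : GL (Fin 3) F) : M3 F) = 1 := by
        rw [← Units.val_mul, mul_inv_cancel, Units.val_one]
      have h3 : (g : M3 F).transpose * ((g : M3 F)⁻¹).transpose = 1 := by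
        rw [← Matrix.transpose_mul, Matrix.nonsing_inv_mul _ (by rw [g.2]; exact isUnit_one),
          Matrix.transpose_one]
      calc (P : M3 F) * (g : M3 F).transpose * ((P⁻¹ : GL (Fin 3) F) : M3 F) *
            ((P : M3 F) * ((g : M3 F)⁻¹).transpose * ((P⁻¹ : GL (Fin 3) F) : M3 F))
          = (P : M3 F) * ((g : M3 F).transpose * ((((P⁻¹ : GL (Fin 3) F) : M3 F) * (P : M3 F)) *
              ((g : M3 F)⁻¹).transpose)) * ((P⁻¹ : GL (Fin 3) F) : M3 F) := by
            simp only [mul_assoc]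
        _ = 1 := by rw [h1, one_mul, h3, mul_one, h2]
    rw [e1, Matrix.transpose_mul, Matrix.transpose_mul, Matrix.transpose_transpose, mul_assoc]
  show diagAut P (graphAut F g) = graphAut F (diagAut (gt P) g)
  rw [← h]
  exact (it_it _).symm

/-- elementary transvections as elements of `SL(3,F)` -/
def tvE (i j : Fin 3) (h : i ≠ j) (c : F) : SL3 F :=
  ⟨transvection i j c, det_transvection_of_ne i j h c⟩

theorem tvE_coe (i j : Fin 3) (h : i ≠ j) (c : F) :
    ((tvE i j h c : SL3 F) : M3 F) = transvection i j c := rfl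

/-- `diagAut P = 1` iff `P` is scalar -/
theorem diagAut_eq_one_iff (P : GL (Fin 3) F) :
    diagAut P = 1 ↔ ∃ c : F, (P : M3 F) = c • (1 : M3 F) := by
  constructor
  · intro h
    have key : ∀ (i j : Fin 3), i ≠ j →
        (P : M3 F) * Matrix.single i j 1 = Matrix.single i j 1 * (P : M3 F) := by
      intro i j hij
      have h1 : ((diagAut P (tvE i j hij 1) : SL3 F) : M3 F) = transvection i j 1 := by
        rw [h]; rfl
      rw [diagAut_coe, tvE_coe] at h1
      have h2 : (P : M3 F) * transvection i j 1 = transvection i j 1 * (P : M3 F) := by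
        calc (P : M3 F) * transvection i j 1
            = (P : M3 F) * transvection i j 1 * (((P⁻¹ : GL (Fin 3) F) : M3 F) * (P : M3 F)) := by
              rw [← Units.val_mul, inv_mul_cancel, Units.val_one, mul_one]
          _ = ((P : M3 F) * transvection i j 1 * ((P⁻¹ : GL (Fin 3) F) : M3 F)) * (P : M3 F) := by
              simp only [mul_assoc]
          _ = transvection i j 1 * (P : M3 F) := by rw [h1]
      rw [transvection, mul_add, add_mul, mul_one, one_mul] at h2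
      exact add_left_cancel h2
    have hd : ∀ i j : Fin 3, i ≠ j → (P : M3 F) i i = (P : M3 F) j j := by
      intro i j hij
      have h1 := congrFun (congrFun (key i j hij) i) j
      simpa [Matrix.mul_apply, Matrix.single_apply] using h1
    have ho : ∀ i j a : Fin 3, i ≠ j → i ≠ a → (P : M3 F) a i = 0 := by
      intro i j a hij ha
      have h1 := congrFun (congrFun (key i j hij) a) j
      simpa [Matrix.mul_apply, Matrix.single_apply, ha] using h1
    refine ⟨(P : M3 F) 0 0, ?_⟩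
    ext i j
    by_cases hij : i = j
    · subst hij
      by_cases h0 : i = 0
      · subst h0; simp
      · rw [Matrix.smul_apply, Matrix.one_apply_eq, smul_eq_mul, mul_one]
        exact hd i 0 h0
    · rw [Matrix.smul_apply, Matrix.one_apply_ne hij, smul_zero]
      exact ho j i i (Ne.symm hij) (Ne.symm hij)
  · rintro ⟨c, hc⟩
    ext g : 1
    apply Subtype.ext
    rw [diagAut_coe, hc, MulAut.one_apply]
    have hP : (P : M3 F) * ((P⁻¹ : GL (Fin 3) F) : M3 F) = 1 := by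
      rw [← Units.val_mul, mul_inv_cancel, Units.val_one]
    rw [hc] at hP
    rw [Matrix.smul_mul, one_mul] at hP
    have e : c • (1 : M3 F) * (g : M3 F) * ((P⁻¹ : GL (Fin 3) F) : M3 F) =
        (g : M3 F) * (c • ((P⁻¹ : GL (Fin 3) F) : M3 F)) := by
      rw [Matrix.smul_mul, one_mul, Matrix.smul_mul, Matrix.mul_smul]
    rw [e, hP, mul_one]

/-! ### the relation `GIs` -/

theorem GIs.det_ne {α : MulAut (SL3 F)} {s : Bool} {A : M3 F} (h : GIs α s A) : A.det ≠ 0 := by
  obtain ⟨P, rfl, _⟩ := h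
  exact (Matrix.isUnit_iff_isUnit_det _).1 P.isUnit |>.ne_zero

theorem gis_exists (s : Bool) (A : M3 F) (h : A.det ≠ 0) : ∃ α : MulAut (SL3 F), GIs α s A :=
  ⟨_, Matrix.GeneralLinearGroup.mkOfDetNeZero A h, rfl, rfl⟩

theorem diagAut_mem (P : GL (Fin 3) F) : diagAut P ∈ DiagExt F :=
  Subgroup.subset_closure (Or.inl ⟨P, rfl⟩)

theorem graphAut_mem : graphAut F ∈ DiagExt F :=
  Subgroup.subset_closure (Or.inr rfl)

theorem GIs.mem_diagExt {α : MulAut (SL3 F)} {s : Bool} {A : M3 F} (h : GIs α s A) :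
    α ∈ DiagExt F := by
  obtain ⟨P, _, rfl⟩ := h
  cases s with
  | false => simpa using diagAut_mem P
  | true => exact mul_mem graphAut_mem (diagAut_mem P)

theorem diagAut_sl (m : SL3 F) (P : GL (Fin 3) F) (h : (P : M3 F) = (m : M3 F)) :
    diagAut P = MulAut.conj m := by
  ext g : 1
  apply Subtype.ext
  rw [diagAut_coe, MulAut.conj_apply, Matrix.SpecialLinearGroup.coe_mul,
    Matrix.SpecialLinearGroup.coe_mul, h]
  congr 1
  have h1 : (P : M3 F) * ((P⁻¹ : GL (Fin 3) F) : M3 F) = 1 := by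
    rw [← Units.val_mul, mul_inv_cancel, Units.val_one]
  have h2 : ((m⁻¹ : SL3 F) : M3 F) * (m : M3 F) = 1 := by
    rw [← Matrix.SpecialLinearGroup.coe_mul, inv_mul_cancel, Matrix.SpecialLinearGroup.coe_one]
  rw [h] at h1
  calc ((P⁻¹ : GL (Fin 3) F) : M3 F)
      = (((m⁻¹ : SL3 F) : M3 F) * (m : M3 F)) * ((P⁻¹ : GL (Fin 3) F) : M3 F) := by
        rw [h2, one_mul]
    _ = ((m⁻¹ : SL3 F) : M3 F) := by rw [mul_assoc, h1, mul_one]

theorem gis_conj (m : SL3 F) : GIs (MulAut.conj m) false (m : M3 F) := by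
  have hd : (m : M3 F).det ≠ 0 := by rw [m.2]; exact one_ne_zero
  refine ⟨Matrix.GeneralLinearGroup.mkOfDetNeZero (m : M3 F) hd, rfl, ?_⟩
  rw [diagAut_sl m _ rfl]
  simp

theorem gis_one : GIs (1 : MulAut (SL3 F)) false (1 : M3 F) := by
  have := gis_conj (1 : SL3 F)
  rwa [map_one, Matrix.SpecialLinearGroup.coe_one] at this

theorem GIs.mul_inner {α β : MulAut (SL3 F)} {s : Bool} {A B : M3 F} (hα : GIs α s A)
    (hβ : GIs β false B) : GIs (α * β) s (A * B) := by
  obtain ⟨P, rfl, rfl⟩ := hα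
  obtain ⟨Q, rfl, rfl⟩ := hβ
  refine ⟨P * Q, by rw [Units.val_mul], ?_⟩
  rw [diagAut_mul]
  simp [mul_assoc]

theorem GIs.mul_outer {α β : MulAut (SL3 F)} {s : Bool} {A A' B : M3 F} (hα : GIs α s A)
    (hβ : GIs β true B) (h : A * A' = 1) : GIs (α * β) (!s) (A'.transpose * B) := by
  obtain ⟨P, rfl, rfl⟩ := hα
  obtain ⟨Q, rfl, rfl⟩ := hβ
  have hA' : A' = ((P⁻¹ : GL (Fin 3) F) : M3 F) := by
    calc A' = (((P⁻¹ : GL (Fin 3) F) : M3 F) * (P : M3 F)) * A' := by
          rw [← Units.val_mul, inv_mul_cancel, Units.val_one, one_mul]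
      _ = _ := by rw [mul_assoc, h, mul_one]
  refine ⟨gt P * Q, by rw [Units.val_mul, gt_coe, hA'], ?_⟩
  rw [diagAut_mul]
  cases s with
  | false =>
    have e : diagAut P * (graphAut F * diagAut Q) = graphAut F * (diagAut (gt P) * diagAut Q) := by
      rw [← mul_assoc, diagAut_graph, mul_assoc]
    simpa using e
  | true =>
    have e : graphAut F * diagAut P * (graphAut F * diagAut Q) = diagAut (gt P) * diagAut Q := by
      rw [mul_assoc, ← mul_assoc (diagAut P), diagAut_graph, ← mul_assoc, ← mul_assoc,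
        graph_mul_graph, one_mul]
    simpa using e

theorem GIs.smul {α : MulAut (SL3 F)} {s : Bool} {A : M3 F} (hα : GIs α s A) {c : F}
    (hc : c ≠ 0) : GIs α s (c • A) := by
  obtain ⟨P, rfl, rfl⟩ := hα
  have hd : (c • (1 : M3 F)).det ≠ 0 := by
    rw [Matrix.det_smul, Matrix.det_one, mul_one]
    exact pow_ne_zero _ hc
  have h1 : diagAut (Matrix.GeneralLinearGroup.mkOfDetNeZero (c • (1 : M3 F)) hd) = 1 :=
    (diagAut_eq_one_iff _).2 ⟨c, rfl⟩
  refine ⟨Matrix.GeneralLinearGroup.mkOfDetNeZero (c • (1 : M3 F)) hd * P, ?_, ?_⟩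
  · rw [Units.val_mul]
    show c • (1 : M3 F) * (P : M3 F) = c • (P : M3 F)
    rw [Matrix.smul_mul, one_mul]
  · rw [diagAut_mul, h1, one_mul]

/-- product with an outer element, the inverse up to a scalar -/
theorem GIs.mul_outer' {α β : MulAut (SL3 F)} {s : Bool} {A A' B : M3 F} {c : F} (hα : GIs α s A)
    (hβ : GIs β true B) (h : A * A' = c • (1 : M3 F)) (hc : c ≠ 0) :
    GIs (α * β) (!s) (A'.transpose * B) := by
  have h1 : A * (c⁻¹ • A') = 1 := by
    rw [Matrix.mul_smul, h, smul_smul, inv_mul_cancel₀ hc, one_smul]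
  have h2 := (hα.mul_outer hβ h1).smul hc
  have e : c • ((c⁻¹ • A').transpose * B) = A'.transpose * B := by
    rw [Matrix.transpose_smul, Matrix.smul_mul, smul_smul, mul_inv_cancel₀ hc, one_smul]
  rwa [e] at h2

theorem graph_ne (P : GL (Fin 3) F) : graphAut F * diagAut P ≠ 1 := by
  intro h
  obtain ⟨g, h1, h2⟩ : ∃ g : SL3 F, (g : M3 F).trace = 1 ∧ (adjugate (g : M3 F)).trace = 0 := by
    refine ⟨⟨!![0, 0, 1; 1, 0, 0; 0, 1, 1], ?_⟩, ?_, ?_⟩
    · simp [Matrix.det_fin_three]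
    · simp [Matrix.trace, Fin.sum_univ_three]
    · simp [Matrix.trace, Fin.sum_univ_three, Matrix.adjugate_fin_three]
  have h3 : it (diagAut P g) = g := by
    have := congrArg (fun e : MulAut (SL3 F) => e g) h
    exact this
  have h4 : diagAut P g = it g := by rw [← h3, it_it, h3]
  have h5 : ((diagAut P g : SL3 F) : M3 F).trace = 1 := by
    rw [diagAut_coe, Matrix.trace_mul_comm, ← mul_assoc, ← Units.val_mul, inv_mul_cancel,
      Units.val_one, one_mul]
    exact h1
  rw [h4, coe_it, Matrix.trace_transpose, h2] at h5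
  exact zero_ne_one h5

theorem diagAut_inv (P : GL (Fin 3) F) : (diagAut P)⁻¹ = diagAut P⁻¹ := by
  rw [inv_eq_iff_mul_eq_one, ← diagAut_mul, mul_inv_cancel, diagAut_one]

theorem diagAut_eq_iff (P Q : GL (Fin 3) F) :
    diagAut P = diagAut Q ↔ ∃ c : F, c ≠ 0 ∧ (Q : M3 F) = c • (P : M3 F) := by
  constructor
  · intro h
    have h1 : diagAut (P⁻¹ * Q) = 1 := by
      rw [diagAut_mul, ← h, ← diagAut_inv, inv_mul_cancel]
    obtain ⟨c, hc⟩ := (diagAut_eq_one_iff _).1 h1
    have h2 : (Q : M3 F) = (P : M3 F) * ((P⁻¹ * Q : GL (Fin 3) F) : M3 F) := by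
      rw [← Units.val_mul, mul_inv_cancel_left]
    rw [hc, Matrix.mul_smul, mul_one] at h2
    refine ⟨c, ?_, h2⟩
    rintro rfl
    rw [zero_smul] at h2
    have h3 : (Q : M3 F).det ≠ 0 := (Matrix.isUnit_iff_isUnit_det _).1 Q.isUnit |>.ne_zero
    rw [h2] at h3
    exact h3 (by simp)
  · rintro ⟨c, hc, h⟩
    have h1 : ((P⁻¹ * Q : GL (Fin 3) F) : M3 F) = c • (1 : M3 F) := by
      rw [Units.val_mul, h, Matrix.mul_smul, ← Units.val_mul, inv_mul_cancel, Units.val_one]
    have h2 := (diagAut_eq_one_iff _).2 ⟨c, h1⟩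
    rw [diagAut_mul, ← diagAut_inv, inv_mul_eq_one] at h2
    exact h2

theorem GIs.uniq {α : MulAut (SL3 F)} {s t : Bool} {A B : M3 F} (hA : GIs α s A)
    (hB : GIs α t B) : s = t ∧ ∃ c : F, c ≠ 0 ∧ B = c • A := by
  obtain ⟨P, rfl, h1⟩ := hA
  obtain ⟨Q, rfl, h2⟩ := hB
  have h3 := h1.symm.trans h2
  have key : ∀ P Q : GL (Fin 3) F, graphAut F * diagAut P ≠ diagAut Q := by
    intro P Q h
    apply graph_ne (P * Q⁻¹)
    rw [diagAut_mul, ← mul_assoc, h, ← diagAut_inv, mul_inv_cancel]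
  cases s <;> cases t
  · simp only [Bool.false_eq_true, if_false, one_mul] at h3
    exact ⟨rfl, (diagAut_eq_iff P Q).1 h3⟩
  · simp only [Bool.false_eq_true, if_false, one_mul, if_true] at h3
    exact absurd h3.symm (key Q P)
  · simp only [Bool.false_eq_true, if_false, one_mul, if_true] at h3
    exact absurd h3 (key P Q)
  · simp only [if_true] at h3
    exact ⟨rfl, (diagAut_eq_iff P Q).1 (mul_left_cancel h3)⟩

theorem GIs.ext {α β : MulAut (SL3 F)} {s : Bool} {A B : M3 F} (hA : GIs α s A)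
    (hB : GIs β s B) (c : F) (h : B = c • A) : α = β := by
  have hc : c ≠ 0 := by
    rintro rfl
    have := hB.det_ne
    rw [h, zero_smul] at this
    exact this (by simp)
  obtain ⟨P, rfl, h1⟩ := hA
  obtain ⟨Q, rfl, h2⟩ := hB
  rw [h1, h2, (diagAut_eq_iff P Q).2 ⟨c, hc, h⟩]

theorem GIs.eq_one_iff {α : MulAut (SL3 F)} {A : M3 F} (hA : GIs α false A) :
    α = 1 ↔ ∃ c : F, A = c • (1 : M3 F) := by
  constructor
  · rintro rfl
    obtain ⟨_, c, _, h⟩ := gis_one.uniq hA
    exact ⟨c, h⟩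
  · rintro ⟨c, h⟩
    exact (gis_one.ext hA c h).symm

/-! ### the relation `InA` -/

theorem InA.exists {H : Subgroup (MulAut (SL3 F))} {A : M3 F} (h : InA H A) :
    A.det = 1 ∧ ∃ α ∈ H, GIs α false A := by
  obtain ⟨g, rfl, hg⟩ := h
  exact ⟨g.2, _, hg, gis_conj g⟩

theorem GIs.inA {H : Subgroup (MulAut (SL3 F))} {α : MulAut (SL3 F)} {A : M3 F}
    (h : GIs α false A) (hα : α ∈ H) (hA : A.det = 1) : InA H A := by
  obtain ⟨g, hg⟩ : ∃ g : SL3 F, (g : M3 F) = A := ⟨⟨A, hA⟩, rfl⟩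
  have h1 := gis_conj g
  rw [hg] at h1
  have h2 : α = MulAut.conj g := h.ext h1 1 (by rw [one_smul])
  exact ⟨g, hg, by rw [← h2]; exact hα⟩

theorem InA.one {H : Subgroup (MulAut (SL3 F))} : InA H (1 : M3 F) :=
  ⟨1, rfl, by rw [map_one]; exact H.one_mem⟩

theorem InA.mul {H : Subgroup (MulAut (SL3 F))} {A B : M3 F} (hA : InA H A) (hB : InA H B) :
    InA H (A * B) := by
  obtain ⟨g, rfl, hg⟩ := hA
  obtain ⟨h, rfl, hh⟩ := hB
  exact ⟨g * h, rfl, by rw [map_mul]; exact H.mul_mem hg hh⟩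

theorem InA.inv {H : Subgroup (MulAut (SL3 F))} {A B : M3 F} (hA : InA H A) (h : A * B = 1) :
    InA H B := by
  obtain ⟨g, rfl, hg⟩ := hA
  refine ⟨g⁻¹, ?_, by rw [map_inv]; exact H.inv_mem hg⟩
  have h2 : ((g⁻¹ : SL3 F) : M3 F) * (g : M3 F) = 1 := by
    rw [← Matrix.SpecialLinearGroup.coe_mul, inv_mul_cancel, Matrix.SpecialLinearGroup.coe_one]
  calc ((g⁻¹ : SL3 F) : M3 F) = ((g⁻¹ : SL3 F) : M3 F) * ((g : M3 F) * B) := by rw [h, mul_one]
    _ = B := by rw [← mul_assoc, h2, one_mul]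

/-- conjugation with an inner element of `H` -/
theorem InA.conj {H : Subgroup (MulAut (SL3 F))} {A D D' : M3 F} {δ : MulAut (SL3 F)} {c : F}
    (hA : InA H A) (hδ : δ ∈ H) (hD : GIs δ false D) (h : D * D' = c • (1 : M3 F)) (hc : c ≠ 0) :
    InA H (c⁻¹ • (D * A * D')) := by
  obtain ⟨hd, α, hα, hαA⟩ := hA.exists
  have hDd := hD.det_ne
  have h1 : D * (c⁻¹ • D') = 1 := by
    rw [Matrix.mul_smul, h, smul_smul, inv_mul_cancel₀ hc, one_smul]
  have hdet : D.det * (c⁻¹ • D').det = 1 := by rw [← Matrix.det_mul, h1, Matrix.det_one]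
  have hD'd : (c⁻¹ • D').det ≠ 0 := by
    intro h0
    rw [h0, mul_zero] at hdet
    exact zero_ne_one hdet
  obtain ⟨ε, hε⟩ := gis_exists false (c⁻¹ • D') hD'd
  have h2 : δ * ε = 1 := by
    have h3 := hD.mul_inner hε
    rw [h1] at h3
    exact h3.ext gis_one 1 (by rw [one_smul])
  have h3 : ε = δ⁻¹ := eq_inv_of_mul_eq_one_right h2
  have h4 := (hD.mul_inner hαA).mul_inner hε
  have e : D * A * (c⁻¹ • D') = c⁻¹ • (D * A * D') := by rw [Matrix.mul_smul]
  rw [e] at h4
  refine h4.inA ?_ ?_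
  · rw [h3]
    exact H.mul_mem (H.mul_mem hδ hα) (H.inv_mem hδ)
  · rw [← e, Matrix.det_mul, Matrix.det_mul, hd, mul_one]
    exact hdet

/-! ### base change -/

/-- base change of an inner element -/
theorem GIs.bc_inner {α : MulAut (SL3 F)} {A : M3 F} (P : GL (Fin 3) F) (h : GIs α false A) :
    GIs ((diagAut P)⁻¹ * α * diagAut P) false
      (((P⁻¹ : GL (Fin 3) F) : M3 F) * A * (P : M3 F)) := by
  have h1 : GIs (diagAut P) false (P : M3 F) := ⟨P, rfl, by simp⟩
  have h2 : GIs (diagAut P)⁻¹ false ((P⁻¹ : GL (Fin 3) F) : M3 F) :=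
    ⟨P⁻¹, rfl, by rw [diagAut_inv]; simp⟩
  exact (h2.mul_inner h).mul_inner h1

/-- base change of an outer element -/
theorem GIs.bc_outer {α : MulAut (SL3 F)} {A : M3 F} (P : GL (Fin 3) F) (h : GIs α true A) :
    GIs ((diagAut P)⁻¹ * α * diagAut P) true ((P : M3 F).transpose * A * (P : M3 F)) := by
  have h1 : GIs (diagAut P) false (P : M3 F) := ⟨P, rfl, by simp⟩
  have h2 : GIs (diagAut P)⁻¹ false ((P⁻¹ : GL (Fin 3) F) : M3 F) :=
    ⟨P⁻¹, rfl, by rw [diagAut_inv]; simp⟩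
  have h3 := h2.mul_outer h (A' := (P : M3 F)) (by
    rw [← Units.val_mul, inv_mul_cancel, Units.val_one])
  exact h3.mul_inner h1

end Pool.SCG
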