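import Pool.Agent.H24.SCG2.Stmts3

/-!
Project SCG2: statements of the modules, part four (characteristic three).
-/

namespace Pool.SCG

open Matrix

/-- characteristic three, not a square -/
def OddT (F : Type*) [Field F] : Prop := (3 : F) = 0 ∧ ¬ IsSquare (Nat.card F)

/-- the form `x₁y₃ + x₃y₁ + g x₂y₂` -/
def Th {F : Type*} [Field F] (g : F) : Matrix (Fin 3) (Fin 3) F := !![0, 0, 1; 0, g, 0; 1, 0, 0]

/-- the product of `Th g` and the reflection with centre `u` -/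
def MA {F : Type*} [Field F] (g u1 u2 u3 : F) : Matrix (Fin 3) (Fin 3) F :=
  !![2 * u3 ^ 2, 2 * g * u2 * u3, -(g * u2 ^ 2);
    2 * g * u2 * u3, g ^ 2 * u2 ^ 2 - 2 * g * u1 * u3, 2 * g * u1 * u2;
    -(g * u2 ^ 2), 2 * g * u1 * u2, 2 * u1 ^ 2]

/-- unipotent elements of the orthogonal group of `Th g` -/
noncomputable def Ug {F : Type*} [Field F] (g x : F) : Matrix (Fin 3) (Fin 3) F :=
  !![1, x, -(x ^ 2 * (2 * g)⁻¹); 0, 1, -(x * g⁻¹); 0, 0, 1]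

/-- antidiagonal matrices -/
noncomputable def An {F : Type*} [Field F] (l : F) : Matrix (Fin 3) (Fin 3) F :=
  !![0, 0, l; 0, -1, 0; l⁻¹, 0, 0]

/-- if all elements are cubes, the diagonal automorphisms are inner -/
def DGTStmt : Prop := ∀ (F : Type) [Field F], (∀ x : F, ∃ y : F, y ^ 3 = x) →
  DiagExt F = GraphExt F ∧ (∀ P : GL (Fin 3) F, GraphExtC P = GraphExt F) ∧
  (∀ G : Subgroup (MulAut (SL3 F)), Adm G ↔ G = GraphExt F)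

/-- the upper bound in characteristic three -/
def UPQStmt : Prop := ∀ (F : Type) [Field F] [Finite F], OddT F →
  ∀ (G : Subgroup (MulAut (SL3 F))) (r : ℕ), Inn F ≤ G → G ≤ AutG F → HasStringC G r →
    G = GraphExt F ∧ r ≤ 4

/-- a subgroup of `GL(2,F)` with a full torus -/
def FTLStmt : Prop := ∀ (F : Type) [Field F], (2 : F) ≠ 0 →
  (∃ l : F, l ≠ 0 ∧ l ^ 2 ≠ 1 ∧ (l + 1) ^ 2 ≠ -(l - 1) ^ 2) →
  ∀ (X : Subgroup (GL (Fin 2) F)) (x1 g0 : GL (Fin 2) F) (β c0 : F),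
    (∀ l : F, l ≠ 0 → ∃ t ∈ X, ∃ c : F, c ≠ 0 ∧ (t : M2 F) = c • !![l, 0; 0, 1]) →
    x1 ∈ X → c0 ≠ 0 → (x1 : M2 F) = c0 • !![0, β; 1, 0] → g0 ∈ X → (g0 : M2 F) 0 0 ≠ 0 →
    (g0 : M2 F) 1 0 ≠ 0 →
    ∀ u : F, ∃ g ∈ X, ∃ c : F, c ≠ 0 ∧ (g : M2 F) = c • !![1, u; 0, 1]

/-- conics: all unipotent elements -/
def CONStmt : Prop := ∀ (F : Type) [Field F], (2 : F) ≠ 0 →
  (∃ l : F, l ≠ 0 ∧ l ^ 2 ≠ 1 ∧ (l + 1) ^ 2 ≠ -(l - 1) ^ 2) →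
  ∀ (H : Subgroup (MulAut (SL3 F))) (a c : MulAut (SL3 F)) (g u1 u2 u3 : F), g ≠ 0 → u2 ≠ 0 →
    u3 ≠ 0 → 2 * u1 * u3 + g * u2 ^ 2 ≠ 0 → a ∈ H → c ∈ H →
    (∀ l : F, l ≠ 0 → ∃ t ∈ H, GIs t false (dg l 1 l⁻¹)) →
    GIs c false (An 1) → GIs a true (MA g u1 u2 u3) → ∀ x : F, InA H (Ug g x)

/-- two conics generate -/
def UUGStmt : Prop := ∀ (F : Type) [Field F], (2 : F) ≠ 0 →
  ∀ (H : Subgroup (MulAut (SL3 F))) (c : MulAut (SL3 F)) (g g' : F), g ≠ 0 → g' ≠ 0 → g ≠ g' →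
    c ∈ H → GIs c false (An 1) → (∀ x : F, InA H (Ug g x)) → (∀ x : F, InA H (Ug g' x)) →
    Inn F ≤ H

/-- the centraliser of two polarities -/
def CTHStmt : Prop := ∀ (F : Type) [Field F], (2 : F) ≠ 0 →
  ∀ (x θ θ' : MulAut (SL3 F)) (s : Bool) (M : Matrix (Fin 3) (Fin 3) F) (g g' : F), g ≠ 0 →
    g' ≠ 0 → g ^ 2 ≠ g' ^ 2 → GIs θ true (Th g) → GIs θ' true (Th g') → GIs x s M →
    x * θ = θ * x → x * θ' = θ' * x →
    ∃ l : F, l ≠ 0 ∧ (GIs x false (dg l 1 l⁻¹) ∨ GIs x false (An l))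

/-! ### the family for `q = 3 ^ e`, `e ≥ 3` odd -/

/-- the conditions on the parameter -/
structure ParF {F : Type*} [Field F] (s : F) : Prop where
  s0 : s ≠ 0
  s1 : s ^ 2 ≠ 1
  s2 : s ^ 2 ≠ -1
  s4 : s ^ 4 ≠ -1
  gen : ∀ x : F, x ≠ 0 → ∃ k : ℕ, (-(s ^ 2)) ^ k = x
  lam : ∃ l : F, l ≠ 0 ∧ l ^ 2 ≠ 1 ∧ (l + 1) ^ 2 ≠ -(l - 1) ^ 2

def FEXStmt : Prop := ∀ (F : Type) [Field F] [Finite F], OddT F → Nat.card F ≠ 3 →
  ∃ s : F, ParF s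

/-- the generators -/
structure GensF {F : Type*} [Field F] (s : F) (a b c d : MulAut (SL3 F)) : Prop where
  ha : GIs a true (MA (-((s ^ 2 + (s ^ 2)⁻¹) * (s - 1) ^ 6)) ((s - 1) ^ 3) 1 (-(s - 1) ^ 3))
  hb : GIs b false (An (-(s ^ 2)))
  hc : GIs c false (An 1)
  hd : GIs d true (MA ((s ^ 2 + (s ^ 2)⁻¹) * (s + 1) ^ 6) (s * (s + 1) ^ 3) (-1)
    ((s + 1) ^ 3 * s⁻¹))

def FGRStmt : Prop := ∀ (F : Type) [Field F] (s : F), (3 : F) = 0 → ParF s →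
  ∃ a b c d : MulAut (SL3 F), GensF s a b c d ∧ a ≠ 1 ∧ b ≠ 1 ∧ c ≠ 1 ∧ d ≠ 1 ∧
    a * a = 1 ∧ b * b = 1 ∧ c * c = 1 ∧ d * d = 1 ∧
    a * c = c * a ∧ a * d = d * a ∧ b * d = d * b ∧ a ≠ b ∧ b ≠ c ∧ c ≠ d

def FGSStmt : Prop := ∀ (F : Type) [Field F] (s : F), (3 : F) = 0 → ParF s →
  ∀ a b c d : MulAut (SL3 F), GensF s a b c d →
    (∀ k : ℕ, (b * c) ^ k * d = d * (b * c) ^ k → (b * c) ^ k = 1) ∧
    (∀ k : ℕ, (b * c) ^ k * a = a * (b * c) ^ k → (b * c) ^ k = 1)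

def FGIStmt : Prop := ∀ (F : Type) [Field F] (s : F), (3 : F) = 0 → ParF s →
  ∀ a b c d : MulAut (SL3 F), GensF s a b c d →
    (∀ x ∈ Subgroup.closure ({a, b, c} : Set (MulAut (SL3 F))),
      x ∈ Subgroup.closure ({b, c, d} : Set (MulAut (SL3 F))) →
      x ∈ Subgroup.closure ({b, c} : Set (MulAut (SL3 F))))

def FGGStmt : Prop := ∀ (F : Type) [Field F] (s : F), (3 : F) = 0 → ParF s →
  ∀ a b c d : MulAut (SL3 F), GensF s a b c d →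
    Inn F ≤ Subgroup.closure ({a, b, c, d} : Set (MulAut (SL3 F)))

/-! ### `q = 3` -/

/-- the generators for `q = 3` -/
structure Gens3 {F : Type*} [Field F] (a b c d : MulAut (SL3 F)) : Prop where
  ha : GIs a true !![0, 0, 1; 0, 1, 0; 1, 0, 0]
  hb : GIs b false (dg 1 (-1) (-1))
  hc : GIs c false !![-1, 0, 0; -1, 1, 0; -1, -1, -1]
  hd : GIs d true (dg (-1) 1 (-1))

def R3RStmt : Prop := ∀ (F : Type) [Field F], (3 : F) = 0 →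
  ∃ a b c d : MulAut (SL3 F), Gens3 a b c d ∧ a ≠ 1 ∧ b ≠ 1 ∧ c ≠ 1 ∧ d ≠ 1 ∧
    a * a = 1 ∧ b * b = 1 ∧ c * c = 1 ∧ d * d = 1 ∧
    a * c = c * a ∧ a * d = d * a ∧ b * d = d * b ∧ a ≠ b ∧ b ≠ c ∧ c ≠ d

def R3SStmt : Prop := ∀ (F : Type) [Field F], (3 : F) = 0 →
  ∀ a b c d : MulAut (SL3 F), Gens3 a b c d →
    (∀ k : ℕ, (b * c) ^ k * d = d * (b * c) ^ k → (b * c) ^ k = 1) ∧
    (∀ k : ℕ, (b * c) ^ k * a = a * (b * c) ^ k → (b * c) ^ k = 1)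

def R3IStmt : Prop := ∀ (F : Type) [Field F] [Finite F], (3 : F) = 0 → Nat.card F = 3 →
  ∀ a b c d : MulAut (SL3 F), Gens3 a b c d →
    (∀ x ∈ Subgroup.closure ({a, b, c} : Set (MulAut (SL3 F))),
      x ∈ Subgroup.closure ({b, c, d} : Set (MulAut (SL3 F))) →
      x ∈ Subgroup.closure ({b, c} : Set (MulAut (SL3 F))))

def R3GStmt : Prop := ∀ (F : Type) [Field F] [Finite F], (3 : F) = 0 → Nat.card F = 3 →
  ∀ a b c d : MulAut (SL3 F), Gens3 a b c d →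
    Inn F ≤ Subgroup.closure ({a, b, c, d} : Set (MulAut (SL3 F)))

/-- existence in rank four in characteristic three -/
def EXQStmt : Prop := ∀ (F : Type) [Field F] [Finite F], OddT F → HasStringC (GraphExt F) 4

/-- the final theorem in characteristic three -/
def FINQStmt : Prop := ∀ (F : Type) [Field F] [Finite F], OddT F →
  (∀ G : Subgroup (MulAut (SL3 F)), Inn F ≤ G → G ≤ AutG F →
    ((∃ r, HasStringC G r) ↔ Adm G)) ∧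
  (∀ G : Subgroup (MulAut (SL3 F)), Adm G → Inn F ≤ G ∧ G ≤ AutG F ∧
    IsGreatest {r : ℕ | HasStringC G r} 4)

/-- the final theorem for `q = 5` modulo `6`, from the old project -/
def FIN5Stmt : Prop := ∀ (F : Type) [Field F] [Finite F], Nat.card F % 6 = 5 →
  (∀ G : Subgroup (MulAut (SL3 F)), Inn F ≤ G → G ≤ AutG F →
    ((∃ r, HasStringC G r) ↔ Adm G)) ∧
  (∀ G : Subgroup (MulAut (SL3 F)), Adm G → Inn F ≤ G ∧ G ≤ AutG F ∧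
    IsGreatest {r : ℕ | HasStringC G r} 4)

/-- the final theorem for all odd `q` which are not squares -/
def FINALStmt : Prop := ∀ (F : Type) [Field F] [Finite F], Odd (Nat.card F) →
  ¬ IsSquare (Nat.card F) →
  (∀ G : Subgroup (MulAut (SL3 F)), Inn F ≤ G → G ≤ AutG F →
    ((∃ r, HasStringC G r) ↔ Adm G)) ∧
  (∀ G : Subgroup (MulAut (SL3 F)), Adm G → Inn F ≤ G ∧ G ≤ AutG F ∧
    IsGreatest {r : ℕ | HasStringC G r} 4)

end Pool.SCG
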