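import Pool.Agent.H24.SCG.Base

/-!
Project SCG2 (string C-groups with socle `PSL(3,q)`, all odd non-square `q`): definitions.
-/

namespace Pool.SCG

open Matrix

/-! ### The groups -/

/-- the group generated by the inner, diagonal and graph automorphisms (`PGL(3,q).2`) -/
def DiagExt (F : Type*) [Field F] : Subgroup (MulAut (SL3 F)) :=
  Subgroup.closure (Set.range (diagAut : GL (Fin 3) F → MulAut (SL3 F)) ∪ {graphAut F})

/-- the conjugate of `GraphExt F` under the diagonal automorphism of `P` -/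
def GraphExtC {F : Type*} [Field F] (P : GL (Fin 3) F) : Subgroup (MulAut (SL3 F)) :=
  (GraphExt F).map (MulAut.conj (diagAut P)).toMonoidHom

/-- the groups which have string C-group representations -/
def Adm {F : Type*} [Field F] (G : Subgroup (MulAut (SL3 F))) : Prop :=
  G = DiagExt F ∨ ∃ P : GL (Fin 3) F, G = GraphExtC P

/-! ### Scalars and strings modulo scalars -/

/-- characteristic different from two -/
def G2 (F : Type*) [Field F] : Prop := (2 : F) ≠ 0 ∧ True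

/-- the scalars of `Cor F` -/
def Zs (F : Type*) [Field F] : Set (Cor F) := {x | ∃ z : F, z ^ 3 = 1 ∧ Is x false (dg z z z)}

/-- `q` is `1` modulo `6` and not a square -/
def OddP (F : Type*) [Field F] : Prop := Nat.card F % 6 = 1 ∧ ¬ IsSquare (Nat.card F)

/-- the data of a string C-group of rank five, exact form, without the conditions `v3`, `v4` -/
structure Str5w {F : Type*} [Field F] (a b c d e : Cor F) : Prop where
  ia : a ≠ 1 ∧ a * a = 1
  ib : b ≠ 1 ∧ b * b = 1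
  ic : c ≠ 1 ∧ c * c = 1
  id : d ≠ 1 ∧ d * d = 1
  ie : e ≠ 1 ∧ e * e = 1
  ac : a * c = c * a
  ad : a * d = d * a
  ae : a * e = e * a
  bd : b * d = d * b
  be : b * e = e * b
  ce : c * e = e * c
  ab : a * b ≠ b * a
  bc : b * c ≠ c * b
  cd : c * d ≠ d * c
  de : d * e ≠ e * d
  v1 : e ∉ Subgroup.closure ({a, b, c, d} : Set (Cor F))
  v2 : a ∉ Subgroup.closure ({b, c, d, e} : Set (Cor F))

/-- the data of a string C-group of rank five modulo scalars -/
structure StrZ {F : Type*} [Field F] (a b c d e : Cor F) : Prop where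
  ia : a ≠ 1 ∧ a * a = 1
  ib : b ≠ 1 ∧ b * b = 1
  ic : c ≠ 1 ∧ c * c = 1
  id : d ≠ 1 ∧ d * d = 1
  ie : e ≠ 1 ∧ e * e = 1
  ac : a * c = c * a
  ad : a * d = d * a
  ae : a * e = e * a
  bd : ∃ z ∈ Zs F, b * d = z * (d * b)
  bdx : a.s = false ∨ b.s = false ∨ d.s = false ∨ e.s = false → b * d = d * b
  be : b * e = e * b
  ce : c * e = e * c
  ab : ∀ z ∈ Zs F, a * b ≠ z * (b * a)
  bc : ∀ z ∈ Zs F, b * c ≠ z * (c * b)
  cd : ∀ z ∈ Zs F, c * d ≠ z * (d * c)
  de : ∀ z ∈ Zs F, d * e ≠ z * (e * d)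
  v1 : e ∉ Subgroup.closure ({a, b, c, d} ∪ Zs F : Set (Cor F))
  v2 : a ∉ Subgroup.closure ({b, c, d, e} ∪ Zs F : Set (Cor F))
  v3 : ∀ x ∈ Subgroup.closure ({a, b} ∪ Zs F : Set (Cor F)),
    x ∈ Subgroup.closure ({c, d, e} ∪ Zs F : Set (Cor F)) → x ∈ Zs F
  v4 : ∀ x ∈ Subgroup.closure ({d, e} ∪ Zs F : Set (Cor F)),
    x ∈ Subgroup.closure ({a, b, c} ∪ Zs F : Set (Cor F)) → x ∈ Zs F

/-- monomial matrices -/
def Mono {F : Type*} [Field F] (A : Matrix (Fin 3) (Fin 3) F) : Prop :=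
  ∃ (f : Fin 3 → F) (σ : Equiv.Perm (Fin 3)), A = Matrix.of fun i j => if σ i = j then f i else 0

/-- the monomial strings of rank five -/
structure T5 {F : Type*} [Field F] (a b c d e : Cor F) : Prop where
  sa : a.s = true
  sb : b.s = true
  scd : c.s = d.s
  se : e.s = false
  cd3 : (c * d) ^ 3 = 1
  ab3 : c.s = true → (a * b) ^ 3 ≠ 1
  mono : ∃ P : SL3 F, Mono ((cj P a).m : Matrix (Fin 3) (Fin 3) F) ∧
    Mono ((cj P b).m : Matrix (Fin 3) (Fin 3) F) ∧ Mono ((cj P c).m : Matrix (Fin 3) (Fin 3) F) ∧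
    Mono ((cj P d).m : Matrix (Fin 3) (Fin 3) F) ∧ Mono ((cj P e).m : Matrix (Fin 3) (Fin 3) F)

/-- the matrix `A` is the matrix of an inner element of `H` -/
def InM {F : Type*} [Field F] (H : Subgroup (Cor F)) (A : Matrix (Fin 3) (Fin 3) F) : Prop :=
  ∃ x ∈ H, Is x false A

/-- upper unipotent element of the orthogonal group of `Q0` -/
noncomputable def Uc {F : Type*} [Field F] (s : F) : Matrix (Fin 3) (Fin 3) F :=
  !![1, s, s ^ 2 * 2⁻¹; 0, 1, s; 0, 0, 1]

/-- lower unipotent element of the orthogonal group of `Q0` -/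
def Lc {F : Type*} [Field F] (s : F) : Matrix (Fin 3) (Fin 3) F :=
  !![1, 0, 0; 2 * s, 1, 0; 2 * s ^ 2, 2 * s, 1]

/-- a signed cyclic permutation -/
def Cm (F : Type*) [Field F] : Matrix (Fin 3) (Fin 3) F := !![0, 0, -1; 1, 0, 0; 0, -1, 0]

/-- abbreviation: two by two matrices -/
abbrev M2 (F : Type*) := Matrix (Fin 2) (Fin 2) F

end Pool.SCG
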