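import Pool.Agent.H24.SCG2.Defs

/-!
Project SCG2: the groups of automorphisms of `PSL(3,F)`.

`PSL3 F` is the group `PSL(3,F)`.  The diagonal, field and graph automorphisms of `SL(3,F)`
(`diagAut`, `fieldAut`, `graphAut`) induce automorphisms of `PSL(3,F)` by `indAut`.
-/

namespace Pool.SCG

open Matrix

/-- the group `PSL(3,F)` -/
abbrev PSL3 (F : Type*) [Field F] := Matrix.ProjectiveSpecialLinearGroup (Fin 3) F

/-- the automorphism of `PSL(3,F)` induced by an automorphism of `SL(3,F)` -/
def indAut (F : Type*) [Field F] : MulAut (SL3 F) →* MulAut (PSL3 F) where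
  toFun α := QuotientGroup.congr (Subgroup.center (SL3 F)) (Subgroup.center (SL3 F)) α
    (Subgroup.characteristic_iff_map_eq.1 inferInstance α)
  map_one' := by
    ext x : 1
    induction x using QuotientGroup.induction_on with
    | H g => rfl
  map_mul' α β := by
    ext x : 1
    induction x using QuotientGroup.induction_on with
    | H g => rfl

/-- the inner automorphisms of `PSL(3,F)` -/
def InnP (F : Type*) [Field F] : Subgroup (MulAut (PSL3 F)) := (MulAut.conj : PSL3 F →* _).range

/-- the automorphisms of `PSL(3,F)` generated by the inner, diagonal, field and graph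
automorphisms -/
def AutP (F : Type*) [Field F] : Subgroup (MulAut (PSL3 F)) := (AutG F).map (indAut F)

/-- the automorphisms of `PSL(3,F)` generated by the inner, diagonal and graph automorphisms -/
def DiagP (F : Type*) [Field F] : Subgroup (MulAut (PSL3 F)) := (DiagExt F).map (indAut F)

/-- the group generated by the inner automorphisms and the graph automorphism -/
def GraphP (F : Type*) [Field F] : Subgroup (MulAut (PSL3 F)) := (GraphExt F).map (indAut F)

end Pool.SCG
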