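import Pool.Agent.H24.SCG2.DefsP

/-!
Project SCG2: the groups of automorphisms of `PSL(3,F)`, in the form in which they are used in
the final statement.

`PS F` is the group `PSL(3,F)`, `APS F` its automorphism group.  An automorphism of `SL(3,F)`
(`diagAut`, `fieldAut`, `graphAut`) induces an automorphism of `PSL(3,F)` by `indP`.
-/

namespace Pool.SCG

open Matrix

/-- the group `PSL(3,F) = SL(3,F) / centre` -/
def PS (F : Type) [Field F] : Type := Matrix.ProjectiveSpecialLinearGroup (Fin 3) F

instance instGroupPS (F : Type) [Field F] : Group (PS F) :=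
  inferInstanceAs (Group (Matrix.ProjectiveSpecialLinearGroup (Fin 3) F))

/-- the automorphism group of `PSL(3,F)` -/
def APS (F : Type) [Field F] : Type := MulAut (PS F)

instance instGroupAPS (F : Type) [Field F] : Group (APS F) :=
  inferInstanceAs (Group (MulAut (PS F)))

theorem center_map {F : Type} [Field F] (α : MulAut (SL3 F)) :
    (Subgroup.center (SL3 F)).map (α : SL3 F →* SL3 F) = Subgroup.center (SL3 F) :=
  Subgroup.characteristic_iff_map_eq.1 inferInstance α

/-- the automorphism of `PSL(3,F)` induced by an automorphism of `SL(3,F)` -/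
def indP1 {F : Type} [Field F] (α : MulAut (SL3 F)) : APS F :=
  QuotientGroup.congr (Subgroup.center (SL3 F)) (Subgroup.center (SL3 F)) α (center_map α)

theorem indP1_eq {F : Type} [Field F] (α : MulAut (SL3 F)) : indP1 α = indAut F α := rfl

theorem indP1_one (F : Type) [Field F] : indP1 (1 : MulAut (SL3 F)) = 1 :=
  map_one (indAut F)

theorem indP1_mul {F : Type} [Field F] (α β : MulAut (SL3 F)) :
    indP1 (α * β) = indP1 α * indP1 β :=
  map_mul (indAut F) α β

/-- the homomorphism `indP1` -/
def indP (F : Type) [Field F] : MulAut (SL3 F) →* APS F where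
  toFun := indP1
  map_one' := indP1_one F
  map_mul' := indP1_mul

/-- the conjugation action of `PSL(3,F)` on itself -/
def cnjP (F : Type) [Field F] : PS F →* APS F := MulAut.conj

/-- `PSL(3,F)` as the group of its inner automorphisms -/
def InnQ (F : Type) [Field F] : Subgroup (APS F) := (cnjP F).range

/-- the automorphisms of `PSL(3,F)` generated by the inner, diagonal, field and graph
automorphisms -/
def AutQ (F : Type) [Field F] : Subgroup (APS F) := (AutG F).map (indP F)

/-- `PGL(3,F).2`: the automorphisms of `PSL(3,F)` generated by the inner, diagonal and graph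
automorphisms -/
def DiagQ (F : Type) [Field F] : Subgroup (APS F) := (DiagExt F).map (indP F)

/-- `PSL(3,F).2`: the group generated by the inner automorphisms and the graph automorphism -/
def GraphQ (F : Type) [Field F] : Subgroup (APS F) := (GraphExt F).map (indP F)

/-- the conjugate of `GraphQ F` under the diagonal automorphism of `P` -/
def GraphQC {F : Type} [Field F] (P : GL (Fin 3) F) : Subgroup (APS F) :=
  (GraphQ F).map (MulAut.conj (indP1 (diagAut P))).toMonoidHom

/-- `G` is `PGL(3,F).2` or conjugate to `PSL(3,F).2` under a diagonal automorphism -/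
def AdmQ {F : Type} [Field F] (G : Subgroup (APS F)) : Prop :=
  G = DiagQ F ∨ ∃ P : GL (Fin 3) F, G = GraphQC P

end Pool.SCG
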