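import Pool.Agent.H24.SCG2.Stmts1
import Pool.Agent.H24.SCG.BCJ

/-! Base change and reversal for `Str5w`. -/

namespace Pool.Agent.H24.SCG2.PBCJ

open Pool.SCG

theorem bcj_thm : BCJwStmt := by
  intro F _ P a b c d e h
  have hinj := cj_injective P
  have one : ∀ x : Cor F, x ≠ 1 ∧ x * x = 1 → cj P x ≠ 1 ∧ cj P x * cj P x = 1 := by
    rintro x ⟨h1, h2⟩
    refine ⟨fun h3 => h1 (hinj (h3.trans (cj_one P).symm)), ?_⟩
    rw [← cj_mul, h2, cj_one]
  have com : ∀ x y : Cor F, x * y = y * x → cj P x * cj P y = cj P y * cj P x := by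
    intro x y h3
    rw [← cj_mul, h3, cj_mul]
  have ncom : ∀ x y : Cor F, x * y ≠ y * x → cj P x * cj P y ≠ cj P y * cj P x := by
    intro x y h3 h4
    apply h3
    apply hinj
    rw [cj_mul, h4, cj_mul]
  have im4 : ∀ x y z w : Cor F, ({cj P x, cj P y, cj P z, cj P w} : Set (Cor F))
      = cj P '' {x, y, z, w} := by
    intro x y z w; rw [Set.image_insert_eq, Set.image_insert_eq, Set.image_pair]
  refine ⟨one a h.ia, one b h.ib, one c h.ic, one d h.id, one e h.ie, com _ _ h.ac, com _ _ h.ad,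
    com _ _ h.ae, com _ _ h.bd, com _ _ h.be, com _ _ h.ce, ncom _ _ h.ab, ncom _ _ h.bc,
    ncom _ _ h.cd, ncom _ _ h.de, ?_, ?_⟩
  · rw [im4, mem_closure_cj]; exact h.v1
  · rw [im4, mem_closure_cj]; exact h.v2

theorem rev_thm : REVwStmt := by
  intro F _ a b c d e h
  have s4 : ∀ x y z w : Cor F, ({x, y, z, w} : Set (Cor F)) = {w, z, y, x} := by
    intro x y w v; ext z; simp only [Set.mem_insert_iff, Set.mem_singleton_iff]; tauto
  refine ⟨h.ie, h.id, h.ic, h.ib, h.ia, h.ce.symm, h.be.symm, h.ae.symm, h.bd.symm, h.ad.symm,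
    h.ac.symm, fun h1 => h.de h1.symm, fun h1 => h.cd h1.symm, fun h1 => h.bc h1.symm,
    fun h1 => h.ab h1.symm, ?_, ?_⟩
  · rw [s4]; exact h.v2
  · rw [s4]; exact h.v1

end Pool.Agent.H24.SCG2.PBCJ
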