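import Pool.Agent.H24.SCG2.Stmts1

/-!
Case 1 of the analysis of rank five, both `b` and `d` inner.
-/

namespace Pool.Agent.H24.SCG2.PC1A

open Matrix Pool.SCG

namespace C1A

variable {F : Type} [Field F]

/-- a homology, written out -/
theorem hom_matrix {x : Cor F} {v f : Fin 3 → F} (h : IsHom x v f) :
    Is x false !![2 * (v 0 * f 0) - 1, 2 * (v 0 * f 1), 2 * (v 0 * f 2);
      2 * (v 1 * f 0), 2 * (v 1 * f 1) - 1, 2 * (v 1 * f 2);
      2 * (v 2 * f 0), 2 * (v 2 * f 1), 2 * (v 2 * f 2) - 1] := by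
  refine ⟨h.1, ?_⟩
  rw [h.2.2]
  ext i j
  fin_cases i <;> fin_cases j <;> simp [Matrix.vecMulVec_apply]

theorem hom_of_D1 {x : Cor F} (h : Is x false (dg 1 (-1) (-1))) :
    IsHom x ![1, 0, 0] ![1, 0, 0] := by
  refine ⟨h.1, ?_, ?_⟩
  · simp [dotProduct, Fin.sum_univ_three]
  · rw [h.2]
    ext i j
    fin_cases i <;> fin_cases j <;> simp [dg]
    norm_num

theorem hom_of_D3 {x : Cor F} (h : Is x false (dg (-1) (-1) 1)) :
    IsHom x ![0, 0, 1] ![0, 0, 1] := by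
  refine ⟨h.1, ?_, ?_⟩
  · simp [dotProduct, Fin.sum_univ_three]
  · rw [h.2]
    ext i j
    fin_cases i <;> fin_cases j <;> simp [dg]
    norm_num

theorem inv3 {b1 b2 b3 : F} (h1 : b1 ≠ 0) (h2 : b2 ≠ 0) (h3 : b3 ≠ 0) (s : F) :
    (dg b1 b2 b3 * !![1, 0, 0; s, 1, 0; 0, 0, 1]) *
      !![b1⁻¹, 0, 0; -(s * b1⁻¹), b2⁻¹, 0; 0, 0, b3⁻¹] = 1 := by
  ext i j
  fin_cases i <;> fin_cases j <;>
    simp [dg, Matrix.mul_apply, Fin.sum_univ_three, h1, h2, h3]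
  ring

theorem inv3' {b1 b2 b3 : F} (h1 : b1 ≠ 0) (h2 : b2 ≠ 0) (h3 : b3 ≠ 0) (s : F) :
    (dg b1 b2 b3 * !![1, s, 0; 0, 1, 0; 0, 0, 1]) *
      !![b1⁻¹, -(s * b2⁻¹), 0; 0, b2⁻¹, 0; 0, 0, b3⁻¹] = 1 := by
  ext i j
  fin_cases i <;> fin_cases j <;>
    simp [dg, Matrix.mul_apply, Fin.sum_univ_three, h1, h2, h3]
  ring

/-- conjugation of a transvection with an outer diagonal element -/
theorem conj_lo {x c : Cor F} {b1 b2 b3 s : F} (h1 : b1 ≠ 0) (h2 : b2 ≠ 0) (h3 : b3 ≠ 0)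
    (hx : Is x false !![1, 0, 0; s, 1, 0; 0, 0, 1]) (hc : Is c true (dg b1 b2 b3)) :
    Is (c * x * c) false !![1, -(s * (b2 * b1⁻¹)), 0; 0, 1, 0; 0, 0, 1] := by
  have k := (hc.mul_inner hx).mul_outer' hc (inv3 h1 h2 h3 s)
  have e : !![b1⁻¹, 0, 0; -(s * b1⁻¹), b2⁻¹, 0; 0, 0, b3⁻¹].transpose * dg b1 b2 b3 =
      !![1, -(s * (b2 * b1⁻¹)), 0; 0, 1, 0; 0, 0, 1] := by
    ext i j
    fin_cases i <;> fin_cases j <;>
      simp [dg, Matrix.mul_apply, Fin.sum_univ_three, h1, h2, h3]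
    ring
  rw [e] at k
  simpa using k

theorem conj_up {x c : Cor F} {b1 b2 b3 s : F} (h1 : b1 ≠ 0) (h2 : b2 ≠ 0) (h3 : b3 ≠ 0)
    (hx : Is x false !![1, s, 0; 0, 1, 0; 0, 0, 1]) (hc : Is c true (dg b1 b2 b3)) :
    Is (c * x * c) false !![1, 0, 0; -(s * (b1 * b2⁻¹)), 1, 0; 0, 0, 1] := by
  have k := (hc.mul_inner hx).mul_outer' hc (inv3' h1 h2 h3 s)
  have e : !![b1⁻¹, -(s * b2⁻¹), 0; 0, b2⁻¹, 0; 0, 0, b3⁻¹].transpose * dg b1 b2 b3 =
      !![1, 0, 0; -(s * (b1 * b2⁻¹)), 1, 0; 0, 0, 1] := by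
    ext i j
    fin_cases i <;> fin_cases j <;>
      simp [dg, Matrix.mul_apply, Fin.sum_univ_three, h1, h2, h3]
    ring
  rw [e] at k
  simpa using k

/-- the input of `TQT` -/
theorem gen_lo (h2 : (2 : F) ≠ 0) (hTQT : TQTStmt) [Finite F] {X : Subgroup (Cor F)}
    {x c e : Cor F} {b1 b2 b3 s : F} (h1 : b1 ≠ 0) (h2' : b2 ≠ 0) (h3 : b3 ≠ 0) (hs : s ≠ 0)
    (hxX : x ∈ X) (hcX : c ∈ X) (hx : Is x false !![1, 0, 0; s, 1, 0; 0, 0, 1])
    (hc : Is c true (dg b1 b2 b3)) (he : Is e false (dg (-1) (-1) 1)) : e ∈ X := by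
  have hk := conj_lo h1 h2' h3 hx hc
  refine hTQT F h2 X x (c * x * c) e (-s) 0 1 (-(s * (b2 * b1⁻¹))) 1 0 hxX
    (X.mul_mem (X.mul_mem hcX hxX) hcX) ?_ ?_ (neg_ne_zero.2 hs)
    (neg_ne_zero.2 (mul_ne_zero hs (mul_ne_zero h2' (inv_ne_zero h1)))) ?_ he
  · have e1 : !![1 - -s * 0 * 1, -s * 0 ^ 2, 0; -(-s * 1 ^ 2), 1 + -s * 0 * 1, 0; 0, 0, 1] =
        !![1, 0, 0; s, 1, 0; 0, 0, 1] := by
      ext i j
      fin_cases i <;> fin_cases j <;> simp
    rw [e1]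
    exact hx
  · have e1 : !![1 - -(s * (b2 * b1⁻¹)) * 1 * 0, -(s * (b2 * b1⁻¹)) * 1 ^ 2, 0;
        -(-(s * (b2 * b1⁻¹)) * 0 ^ 2), 1 + -(s * (b2 * b1⁻¹)) * 1 * 0, 0; 0, 0, 1] =
        !![1, -(s * (b2 * b1⁻¹)), 0; 0, 1, 0; 0, 0, 1] := by
      ext i j
      fin_cases i <;> fin_cases j <;> simp
    rw [e1]
    exact hk
  · norm_num

theorem gen_up (h2 : (2 : F) ≠ 0) (hTQT : TQTStmt) [Finite F] {X : Subgroup (Cor F)}
    {x c e : Cor F} {b1 b2 b3 s : F} (h1 : b1 ≠ 0) (h2' : b2 ≠ 0) (h3 : b3 ≠ 0) (hs : s ≠ 0)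
    (hxX : x ∈ X) (hcX : c ∈ X) (hx : Is x false !![1, s, 0; 0, 1, 0; 0, 0, 1])
    (hc : Is c true (dg b1 b2 b3)) (he : Is e false (dg (-1) (-1) 1)) : e ∈ X := by
  have hk := conj_up h1 h2' h3 hx hc
  refine hTQT F h2 X x (c * x * c) e s 1 0 (s * (b1 * b2⁻¹)) 0 1 hxX
    (X.mul_mem (X.mul_mem hcX hxX) hcX) ?_ ?_ hs
    (mul_ne_zero hs (mul_ne_zero h1 (inv_ne_zero h2'))) ?_ he
  · have e1 : !![1 - s * 1 * 0, s * 1 ^ 2, 0; -(s * 0 ^ 2), 1 + s * 1 * 0, 0; 0, 0, 1] =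
        !![1, s, 0; 0, 1, 0; 0, 0, 1] := by
      ext i j
      fin_cases i <;> fin_cases j <;> simp
    rw [e1]
    exact hx
  · have e1 : !![1 - (s * (b1 * b2⁻¹)) * 0 * 1, (s * (b1 * b2⁻¹)) * 0 ^ 2, 0;
        -((s * (b1 * b2⁻¹)) * 1 ^ 2), 1 + (s * (b1 * b2⁻¹)) * 0 * 1, 0; 0, 0, 1] =
        !![1, 0, 0; -(s * (b1 * b2⁻¹)), 1, 0; 0, 0, 1] := by
      ext i j
      fin_cases i <;> fin_cases j <;> simp
    rw [e1]
    exact hk
  · norm_num

end C1A

open C1A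

theorem c1a_thm (hINV : INVStmt) (hHCM : HCMStmt) (hTQT : TQTStmt) : C1AwStmt := by
  intro F _ _ hF a b c d e b1 b2 b3 hS hN hbs hds
  have h2 : (2 : F) ≠ 0 := hF.1
  obtain ⟨v, f, hb⟩ : ∃ v φ : Fin 3 → F, IsHom b v φ := by
    rcases hINV F h2 b hS.ib.1 hS.ib.2 with h | h
    · exact h
    · rw [hbs] at h; exact absurd h.1 (by simp)
  obtain ⟨w, g, hd⟩ : ∃ v φ : Fin 3 → F, IsHom d v φ := by
    rcases hINV F h2 d hS.id.1 hS.id.2 with h | h
    · exact h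
    · rw [hds] at h; exact absurd h.1 (by simp)
  have ha := hom_of_D1 hN.ha
  have he := hom_of_D3 hN.he
  have hbe : b ≠ e := by
    rintro rfl
    exact hS.v1 (Subgroup.subset_closure (by simp))
  have had : a ≠ d := by
    rintro rfl
    exact hS.v2 (Subgroup.subset_closure (by simp))
  have hbd : b ≠ d := by
    rintro rfl
    exact hS.ab hS.ad
  have k1 := hHCM F h2 b e v f _ _ hb he hS.be hbe
  have k2 := hHCM F h2 a d _ _ w g ha hd hS.ad had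
  have k3 := hHCM F h2 b d v f w g hb hd hS.bd hbd
  simp only [dotProduct, Fin.sum_univ_three, Matrix.cons_val_zero, Matrix.cons_val_one,
    Matrix.cons_val, mul_zero, mul_one, zero_mul, one_mul, add_zero, zero_add] at k1 k2 k3
  obtain ⟨f3, v3⟩ := k1
  obtain ⟨w1, g1⟩ := k2
  rw [w1, f3, mul_zero, zero_mul, zero_add, add_zero] at k3
  rw [g1, v3, zero_mul, mul_zero, zero_add, add_zero] at k3
  obtain ⟨fw, gv⟩ := k3
  have hfv : f 0 * v 0 + f 1 * v 1 = 1 := by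
    have := hb.2.1
    simp only [dotProduct, Fin.sum_univ_three, v3, mul_zero, add_zero] at this
    exact this
  have hgw : g 1 * w 1 + g 2 * w 2 = 1 := by
    have := hd.2.1
    simp only [dotProduct, Fin.sum_univ_three, w1, mul_zero, zero_add] at this
    exact this
  have hbM := hom_matrix hb
  have hdM := hom_matrix hd
  rw [v3, f3] at hbM
  rw [w1, g1] at hdM
  simp only [mul_zero, zero_mul, zero_sub] at hbM hdM
  -- a and b do not commute
  have hvf : v 1 ≠ 0 ∨ f 1 ≠ 0 := by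
    by_contra hcon
    rw [not_or, not_not, not_not] at hcon
    apply hS.ab
    rw [comm_inner_iff hN.ha hbM, hcon.1, hcon.2]
    ext i j
    fin_cases i <;> fin_cases j <;> simp [dg, Matrix.mul_apply, Fin.sum_univ_three]
  have hwg : w 1 ≠ 0 ∨ g 1 ≠ 0 := by
    by_contra hcon
    rw [not_or, not_not, not_not] at hcon
    apply hS.de
    rw [comm_inner_iff hdM hN.he, hcon.1, hcon.2]
    ext i j
    fin_cases i <;> fin_cases j <;> simp [dg, Matrix.mul_apply, Fin.sum_univ_three]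
  have hcase : f 1 = 0 ∨ v 1 = 0 := by
    rcases hwg with h | h
    · left
      rcases mul_eq_zero.1 fw with h' | h'
      · exact h'
      · exact absurd h' h
    · right
      rcases mul_eq_zero.1 gv with h' | h'
      · exact absurd h' h
      · exact h'
  have hdet : b1 * b2 * b3 = 1 := by
    have := hN.hc.det
    rwa [dg_det] at this
  have hb1 : b1 ≠ 0 := by
    rintro rfl
    simp at hdet
  have hb2 : b2 ≠ 0 := by
    rintro rfl
    simp at hdet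
  have hb3 : b3 ≠ 0 := by
    rintro rfl
    simp at hdet
  set X := Subgroup.closure ({a, b, c, d} : Set (Cor F)) with hX
  have haX : a ∈ X := Subgroup.subset_closure (by simp)
  have hbX : b ∈ X := Subgroup.subset_closure (by simp)
  have hcX : c ∈ X := Subgroup.subset_closure (by simp)
  apply hS.v1
  rcases hcase with h0 | h0
  · -- `f 1 = 0`
    have hv1 : v 1 ≠ 0 := by
      rcases hvf with h | h
      · exact h
      · exact absurd h0 h
    rw [h0, zero_mul, add_zero] at hfv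
    have hf0 : f 0 ≠ 0 := by
      intro h
      rw [h, zero_mul] at hfv
      exact zero_ne_one hfv
    have hab : Is (a * b) false !![1, 0, 0; -(2 * (v 1 * f 0)), 1, 0; 0, 0, 1] := by
      have := hN.ha.mul_inner hbM
      have e : dg (1 : F) (-1) (-1) * !![2 * (v 0 * f 0) - 1, 2 * (v 0 * f 1), 0;
          2 * (v 1 * f 0), 2 * (v 1 * f 1) - 1, 0; 0, 0, -1] =
          !![1, 0, 0; -(2 * (v 1 * f 0)), 1, 0; 0, 0, 1] := by
        ext i j
        fin_cases i <;> fin_cases j <;>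
          simp [dg, Matrix.mul_apply, Fin.sum_univ_three, h0]
        linear_combination 2 * hfv
      rwa [e] at this
    refine gen_lo h2 hTQT hb1 hb2 hb3 ?_ (X.mul_mem haX hbX) hcX hab hN.hc hN.he
    exact neg_ne_zero.2 (mul_ne_zero h2 (mul_ne_zero hv1 hf0))
  · -- `v 1 = 0`
    have hf1 : f 1 ≠ 0 := by
      rcases hvf with h | h
      · exact absurd h0 h
      · exact h
    rw [h0, mul_zero, add_zero] at hfv
    have hv0 : v 0 ≠ 0 := by
      intro h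
      rw [h, mul_zero] at hfv
      exact zero_ne_one hfv
    have hab : Is (a * b) false !![1, 2 * (v 0 * f 1), 0; 0, 1, 0; 0, 0, 1] := by
      have := hN.ha.mul_inner hbM
      have e : dg (1 : F) (-1) (-1) * !![2 * (v 0 * f 0) - 1, 2 * (v 0 * f 1), 0;
          2 * (v 1 * f 0), 2 * (v 1 * f 1) - 1, 0; 0, 0, -1] =
          !![1, 2 * (v 0 * f 1), 0; 0, 1, 0; 0, 0, 1] := by
        ext i j
        fin_cases i <;> fin_cases j <;>
          simp [dg, Matrix.mul_apply, Fin.sum_univ_three, h0]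
        linear_combination 2 * hfv
      rwa [e] at this
    refine gen_up h2 hTQT hb1 hb2 hb3 ?_ (X.mul_mem haX hbX) hcX hab hN.hc hN.he
    exact mul_ne_zero h2 (mul_ne_zero hv0 hf1)

end Pool.Agent.H24.SCG2.PC1A
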