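import Pool.Agent.H24.SCG2.Stmts1

/-!
SCG, module C1B: case 1, one of the two remaining generators is outer.
-/

namespace Pool.Agent.H24.SCG2.PC1B

open Matrix Pool.SCG

section aux

variable {F : Type} [Field F]

theorem c1b_neg {x : F} (h2 : (2 : F) ≠ 0) (h : -x = x) : x = 0 := by
  have : 2 * x = 0 := by linear_combination -h
  rcases mul_eq_zero.1 this with h | h
  · exact absurd h h2
  · exact h

/-- an outer element commuting with `dg (-1) (-1) 1` -/
theorem outer_e (h2 : (2 : F) ≠ 0) {y e : Cor F} {B : M3 F} (hy : Is y true B)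
    (he : Is e false (dg (-1) (-1) 1)) (hc : e * y = y * e) :
    B 0 2 = 0 ∧ B 1 2 = 0 ∧ B 2 0 = 0 ∧ B 2 1 = 0 := by
  have h := (comm_inner_outer_iff he hy).1 hc
  have e02 := congrFun (congrFun h 0) 2
  have e12 := congrFun (congrFun h 1) 2
  have e20 := congrFun (congrFun h 2) 0
  have e21 := congrFun (congrFun h 2) 1
  simp [dg, Matrix.mul_apply, Fin.sum_univ_three, Matrix.transpose_apply] at e02 e12 e20 e21
  exact ⟨c1b_neg h2 e02, c1b_neg h2 e12, c1b_neg h2 e20, c1b_neg h2 e21⟩

/-- an outer element commuting with `dg 1 (-1) (-1)` -/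
theorem outer_a (h2 : (2 : F) ≠ 0) {y e : Cor F} {B : M3 F} (hy : Is y true B)
    (he : Is e false (dg 1 (-1) (-1))) (hc : e * y = y * e) :
    B 0 1 = 0 ∧ B 0 2 = 0 ∧ B 1 0 = 0 ∧ B 2 0 = 0 := by
  have h := (comm_inner_outer_iff he hy).1 hc
  have e01 := congrFun (congrFun h 0) 1
  have e02 := congrFun (congrFun h 0) 2
  have e10 := congrFun (congrFun h 1) 0
  have e20 := congrFun (congrFun h 2) 0
  simp [dg, Matrix.mul_apply, Fin.sum_univ_three, Matrix.transpose_apply] at e01 e02 e10 e20
  exact ⟨c1b_neg h2 e01, c1b_neg h2 e02, c1b_neg h2 e10, c1b_neg h2 e20⟩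

theorem comm_e {y e : Cor F} {B : M3 F} (hy : Is y true B)
    (he : Is e false (dg (-1) (-1) 1)) (h02 : B 0 2 = 0) (h12 : B 1 2 = 0) (h20 : B 2 0 = 0)
    (h21 : B 2 1 = 0) : e * y = y * e := by
  rw [comm_inner_outer_iff he hy]
  ext i j
  fin_cases i <;> fin_cases j <;>
    simp [dg, Matrix.mul_apply, Fin.sum_univ_three, Matrix.transpose_apply, h02, h12, h20, h21]

theorem comm_a {y e : Cor F} {B : M3 F} (hy : Is y true B)
    (he : Is e false (dg 1 (-1) (-1))) (h01 : B 0 1 = 0) (h02 : B 0 2 = 0) (h10 : B 1 0 = 0)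
    (h20 : B 2 0 = 0) : e * y = y * e := by
  rw [comm_inner_outer_iff he hy]
  ext i j
  fin_cases i <;> fin_cases j <;>
    simp [dg, Matrix.mul_apply, Fin.sum_univ_three, Matrix.transpose_apply, h01, h02, h10, h20]

/-- a homology commuting with `dg 1 (-1) (-1)` -/
theorem hom_a (h2 : (2 : F) ≠ 0) {x a : Cor F} {w g : Fin 3 → F} (hx : IsHom x w g)
    (ha : Is a false (dg 1 (-1) (-1))) (hc : a * x = x * a) :
    (w 0 = 0 ∧ g 0 = 0) ∨ x = a := by
  have Ix : Is x false (x.m : M3 F) := ⟨hx.1, rfl⟩
  have h := (comm_inner_iff ha Ix).1 hc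
  rw [hx.2.2] at h
  have n1 : g 0 * w 0 + g 1 * w 1 + g 2 * w 2 = 1 := by
    have := hx.2.1
    simpa [dotProduct, Fin.sum_univ_three] using this
  have e01 := congrFun (congrFun h 0) 1
  have e02 := congrFun (congrFun h 0) 2
  have e10 := congrFun (congrFun h 1) 0
  have e20 := congrFun (congrFun h 2) 0
  simp [dg, Matrix.mul_apply, Fin.sum_univ_three, Matrix.vecMulVec_apply, Matrix.sub_apply,
    Matrix.smul_apply, Matrix.one_apply] at e01 e02 e10 e20
  have k01 : w 0 * g 1 = 0 := by
    have : 2 * (2 * (w 0 * g 1)) = 0 := by linear_combination e01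
    rcases mul_eq_zero.1 this with h | h
    · exact absurd h h2
    · rcases mul_eq_zero.1 h with h | h
      · exact absurd h h2
      · exact h
  have k02 : w 0 * g 2 = 0 := by
    have : 2 * (2 * (w 0 * g 2)) = 0 := by linear_combination e02
    rcases mul_eq_zero.1 this with h | h
    · exact absurd h h2
    · rcases mul_eq_zero.1 h with h | h
      · exact absurd h h2
      · exact h
  have k10 : w 1 * g 0 = 0 := by
    have : 2 * (2 * (w 1 * g 0)) = 0 := by linear_combination -e10
    rcases mul_eq_zero.1 this with h | h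
    · exact absurd h h2
    · rcases mul_eq_zero.1 h with h | h
      · exact absurd h h2
      · exact h
  have k20 : w 2 * g 0 = 0 := by
    have : 2 * (2 * (w 2 * g 0)) = 0 := by linear_combination -e20
    rcases mul_eq_zero.1 this with h | h
    · exact absurd h h2
    · rcases mul_eq_zero.1 h with h | h
      · exact absurd h h2
      · exact h
  by_cases hw : w 0 = 0
  · by_cases hg : g 0 = 0
    · exact Or.inl ⟨hw, hg⟩
    · exfalso
      have w1 : w 1 = 0 := (mul_eq_zero.1 k10).resolve_right hg
      have w2 : w 2 = 0 := (mul_eq_zero.1 k20).resolve_right hg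
      rw [hw, w1, w2] at n1
      simp at n1
  · right
    have g1 : g 1 = 0 := (mul_eq_zero.1 k01).resolve_left hw
    have g2 : g 2 = 0 := (mul_eq_zero.1 k02).resolve_left hw
    have g0 : g 0 ≠ 0 := by
      intro h0
      rw [h0, g1, g2] at n1
      simp at n1
    have w1 : w 1 = 0 := (mul_eq_zero.1 k10).resolve_right g0
    have w2 : w 2 = 0 := (mul_eq_zero.1 k20).resolve_right g0
    have n2 : g 0 * w 0 = 1 := by
      rw [g1, g2] at n1
      linear_combination n1
    have : (x.m : M3 F) = dg 1 (-1) (-1) := by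
      rw [hx.2.2]
      ext i j
      fin_cases i <;> fin_cases j <;>
        simp [dg, Matrix.vecMulVec_apply, Matrix.sub_apply, Matrix.smul_apply, Matrix.one_apply,
          w1, w2, g1, g2]
      linear_combination 2 * n2
    rw [this] at Ix
    exact Ix.ext ha

/-- a homology commuting with `dg (-1) (-1) 1` -/
theorem hom_e (h2 : (2 : F) ≠ 0) {x e : Cor F} {w g : Fin 3 → F} (hx : IsHom x w g)
    (he : Is e false (dg (-1) (-1) 1)) (hc : e * x = x * e) :
    (w 2 = 0 ∧ g 2 = 0) ∨ x = e := by
  have Ix : Is x false (x.m : M3 F) := ⟨hx.1, rfl⟩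
  have h := (comm_inner_iff he Ix).1 hc
  rw [hx.2.2] at h
  have n1 : g 0 * w 0 + g 1 * w 1 + g 2 * w 2 = 1 := by
    have := hx.2.1
    simpa [dotProduct, Fin.sum_univ_three] using this
  have e02 := congrFun (congrFun h 0) 2
  have e12 := congrFun (congrFun h 1) 2
  have e20 := congrFun (congrFun h 2) 0
  have e21 := congrFun (congrFun h 2) 1
  simp [dg, Matrix.mul_apply, Fin.sum_univ_three, Matrix.vecMulVec_apply, Matrix.sub_apply,
    Matrix.smul_apply, Matrix.one_apply] at e02 e12 e20 e21
  have k02 : w 0 * g 2 = 0 := by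
    have : 2 * (2 * (w 0 * g 2)) = 0 := by linear_combination -e02
    rcases mul_eq_zero.1 this with h | h
    · exact absurd h h2
    · rcases mul_eq_zero.1 h with h | h
      · exact absurd h h2
      · exact h
  have k12 : w 1 * g 2 = 0 := by
    have : 2 * (2 * (w 1 * g 2)) = 0 := by linear_combination -e12
    rcases mul_eq_zero.1 this with h | h
    · exact absurd h h2
    · rcases mul_eq_zero.1 h with h | h
      · exact absurd h h2
      · exact h
  have k20 : w 2 * g 0 = 0 := by
    have : 2 * (2 * (w 2 * g 0)) = 0 := by linear_combination e20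
    rcases mul_eq_zero.1 this with h | h
    · exact absurd h h2
    · rcases mul_eq_zero.1 h with h | h
      · exact absurd h h2
      · exact h
  have k21 : w 2 * g 1 = 0 := by
    have : 2 * (2 * (w 2 * g 1)) = 0 := by linear_combination e21
    rcases mul_eq_zero.1 this with h | h
    · exact absurd h h2
    · rcases mul_eq_zero.1 h with h | h
      · exact absurd h h2
      · exact h
  by_cases hw : w 2 = 0
  · by_cases hg : g 2 = 0
    · exact Or.inl ⟨hw, hg⟩
    · exfalso
      have w0 : w 0 = 0 := (mul_eq_zero.1 k02).resolve_right hg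
      have w1 : w 1 = 0 := (mul_eq_zero.1 k12).resolve_right hg
      rw [hw, w0, w1] at n1
      simp at n1
  · right
    have g0 : g 0 = 0 := (mul_eq_zero.1 k20).resolve_left hw
    have g1 : g 1 = 0 := (mul_eq_zero.1 k21).resolve_left hw
    have g2 : g 2 ≠ 0 := by
      intro h0
      rw [h0, g0, g1] at n1
      simp at n1
    have w0 : w 0 = 0 := (mul_eq_zero.1 k02).resolve_right g2
    have w1 : w 1 = 0 := (mul_eq_zero.1 k12).resolve_right g2
    have n2 : g 2 * w 2 = 1 := by
      rw [g0, g1] at n1
      linear_combination n1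
    have : (x.m : M3 F) = dg (-1) (-1) 1 := by
      rw [hx.2.2]
      ext i j
      fin_cases i <;> fin_cases j <;>
        simp [dg, Matrix.vecMulVec_apply, Matrix.sub_apply, Matrix.smul_apply, Matrix.one_apply,
          w0, w1, g0, g1]
      linear_combination 2 * n2
    rw [this] at Ix
    exact Ix.ext he

end aux

theorem c1b_thm (hINV : Pool.SCG.INVStmt) (hHCO : Pool.SCG.HCOStmt) : Pool.SCG.C1BwStmt := by
  intro F _ _ hF a b c d e b1 b2 b3 h n hs
  have h2 : (2 : F) ≠ 0 := hF.1
  have ha := n.ha
  have he := n.he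
  have Ib := Is.self b
  have Id := Is.self d
  rcases Bool.eq_false_or_eq_true b.s with hb | hb
  · -- b outer
    rw [hb] at Ib
    have symb : (b.m : M3 F).transpose = (b.m : M3 F) := (outer_sq_iff Ib).1 h.ib.2
    obtain ⟨b02, b12, b20, b21⟩ := outer_e h2 Ib he h.be.symm
    have b01 : (b.m : M3 F) 0 1 ≠ 0 := by
      intro h0
      have h10 : (b.m : M3 F) 1 0 = 0 := by
        have := congrFun (congrFun symb 0) 1
        rw [Matrix.transpose_apply] at this
        rw [this]; exact h0
      exact h.ab (comm_a Ib ha h0 b02 h10 b20)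
    rcases Bool.eq_false_or_eq_true d.s with hd | hd
    · -- d outer
      rw [hd] at Id
      have symd : (d.m : M3 F).transpose = (d.m : M3 F) := (outer_sq_iff Id).1 h.id.2
      obtain ⟨d01, d02, d10, d20⟩ := outer_a h2 Id ha h.ad
      have d12 : (d.m : M3 F) 1 2 ≠ 0 := by
        intro h0
        have h21 : (d.m : M3 F) 2 1 = 0 := by
          have := congrFun (congrFun symd 1) 2
          rw [Matrix.transpose_apply] at this
          rw [this]; exact h0
        exact h.de ((comm_e Id he d02 h0 d20 h21).symm)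
      have key := (comm_outer_iff Ib Id symb symd).1 h.bd
      have detb : (b.m : M3 F).det = 1 := Ib.det
      have detd : (d.m : M3 F).det = 1 := Id.det
      generalize (b.m : M3 F) = B at *
      generalize (d.m : M3 F) = D at *
      have k := congrFun (congrFun key 0) 2
      have b22 : B 2 2 ≠ 0 := by
        intro h0
        rw [Matrix.det_fin_three, b20, b21, h0, b02, b12] at detb
        simp at detb
      have d00 : D 0 0 ≠ 0 := by
        intro h0
        rw [Matrix.det_fin_three, h0, d01, d02] at detd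
        simp at detd
      have hB : adjugate B = !![B 1 1 * B 2 2 - B 1 2 * B 2 1, -(B 0 1 * B 2 2) + B 0 2 * B 2 1,
          B 0 1 * B 1 2 - B 0 2 * B 1 1;
          -(B 1 0 * B 2 2) + B 1 2 * B 2 0, B 0 0 * B 2 2 - B 0 2 * B 2 0,
          -(B 0 0 * B 1 2) + B 0 2 * B 1 0;
          B 1 0 * B 2 1 - B 1 1 * B 2 0, -(B 0 0 * B 2 1) + B 0 1 * B 2 0,
          B 0 0 * B 1 1 - B 0 1 * B 1 0] := Matrix.adjugate_fin_three B
      rw [hB] at k
      simp [Matrix.mul_apply, Fin.sum_univ_three, d01, d02, b02, b12, b20, b21] at k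
      rcases k with k | k
      · rcases k with k | k
        · exact d00 k
        · rcases k with k | k
          · exact b01 k
          · exact b22 k
      · exact d12 k
    · -- d inner
      obtain ⟨w, g, hw⟩ : ∃ w g : Fin 3 → F, IsHom d w g := by
        rcases hINV F h2 d h.id.1 h.id.2 with h' | h'
        · exact h'
        · rw [hd] at h'; exact absurd h'.1 Bool.false_ne_true
      have hda : d ≠ a := by
        intro h0
        exact h.de (by rw [h0]; exact h.ae)
      obtain ⟨w0, g0⟩ := (hom_a h2 hw ha h.ad).resolve_right hda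
      obtain ⟨q1, q2⟩ := (hHCO F h2 d b w g _ hw Ib symb).1 h.bd.symm
      generalize (b.m : M3 F) = B at *
      set r : F := w ⬝ᵥ (B *ᵥ w) with hr
      have t0 := congrFun q2 0
      have t1 := congrFun q2 1
      simp [Matrix.mulVec, dotProduct, Fin.sum_univ_three, w0, g0, b02, b12] at t0 t1
      have w1 : w 1 = 0 := by
        rcases t0 with t0 | t0
        · exact absurd t0 q1
        · rcases t0 with t0 | t0
          · exact absurd t0 b01
          · exact t0
      rw [w1] at t1
      simp at t1
      have n1 : g 0 * w 0 + g 1 * w 1 + g 2 * w 2 = 1 := by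
        have := hw.2.1
        simpa [dotProduct, Fin.sum_univ_three] using this
      have n2 : g 2 * w 2 = 1 := by
        rw [g0, t1] at n1
        linear_combination n1
      have hm : (d.m : M3 F) = dg (-1) (-1) 1 := by
        rw [hw.2.2]
        ext i j
        fin_cases i <;> fin_cases j <;>
          simp [dg, Matrix.vecMulVec_apply, Matrix.sub_apply, Matrix.smul_apply,
            Matrix.one_apply, w0, w1, g0, t1]
        linear_combination 2 * n2
      rw [hd, hm] at Id
      have : d = e := Id.ext he
      exact h.de (by rw [this])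
  · -- b inner, d outer
    have hd : d.s = true := by
      rcases hs with h' | h'
      · rw [hb] at h'; exact absurd h' Bool.false_ne_true
      · exact h'
    rw [hd] at Id
    have symd : (d.m : M3 F).transpose = (d.m : M3 F) := (outer_sq_iff Id).1 h.id.2
    obtain ⟨d01, d02, d10, d20⟩ := outer_a h2 Id ha h.ad
    have d21 : (d.m : M3 F) 2 1 ≠ 0 := by
      intro h0
      have h12 : (d.m : M3 F) 1 2 = 0 := by
        have := congrFun (congrFun symd 2) 1
        rw [Matrix.transpose_apply] at this
        rw [this]; exact h0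
      exact h.de ((comm_e Id he d02 h12 d20 h0).symm)
    obtain ⟨v, f, hv⟩ : ∃ w g : Fin 3 → F, IsHom b w g := by
      rcases hINV F h2 b h.ib.1 h.ib.2 with h' | h'
      · exact h'
      · rw [hb] at h'; exact absurd h'.1 Bool.false_ne_true
    have hbe : b ≠ e := by
      intro h0
      exact h.ab (by rw [h0]; exact h.ae)
    obtain ⟨v2, f2⟩ := (hom_e h2 hv he h.be.symm).resolve_right hbe
    obtain ⟨q1, q2⟩ := (hHCO F h2 b d v f _ hv Id symd).1 h.bd
    generalize (d.m : M3 F) = D at *
    set r : F := v ⬝ᵥ (D *ᵥ v) with hr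
    have t2 := congrFun q2 2
    have t1 := congrFun q2 1
    simp [Matrix.mulVec, dotProduct, Fin.sum_univ_three, v2, f2, d20, d10] at t2 t1
    have v1 : v 1 = 0 := by
      rcases t2 with t2 | t2
      · exact absurd t2 q1
      · rcases t2 with t2 | t2
        · exact absurd t2 d21
        · exact t2
    rw [v1] at t1
    simp at t1
    have n1 : f 0 * v 0 + f 1 * v 1 + f 2 * v 2 = 1 := by
      have := hv.2.1
      simpa [dotProduct, Fin.sum_univ_three] using this
    have n2 : f 0 * v 0 = 1 := by
      rw [f2, t1] at n1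
      linear_combination n1
    have hm : (b.m : M3 F) = dg 1 (-1) (-1) := by
      rw [hv.2.2]
      ext i j
      fin_cases i <;> fin_cases j <;>
        simp [dg, Matrix.vecMulVec_apply, Matrix.sub_apply, Matrix.smul_apply,
          Matrix.one_apply, v1, v2, f2, t1]
      linear_combination 2 * n2
    rw [hb, hm] at Ib
    have : b = a := Ib.ext ha
    exact h.ab (by rw [this])

end Pool.Agent.H24.SCG2.PC1B
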