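import Pool.Agent.H24.SCG2.Stmts1

/-! Case 2, parametrisation for `d.s = false`. -/

namespace Pool.Agent.H24.SCG2.PC2A

open Matrix Pool.SCG

theorem dg_mulVec {F : Type*} [Field F] (b1 b2 b3 : F) (v : Fin 3 → F) :
    (dg b1 b2 b3) *ᵥ v = ![b1 * v 0, b2 * v 1, b3 * v 2] := by
  ext i
  fin_cases i <;> simp [dg, Matrix.mulVec, dotProduct, Fin.sum_univ_three]

theorem dg_quad {F : Type*} [Field F] (b1 b2 b3 : F) (v : Fin 3 → F) :
    v ⬝ᵥ ((dg b1 b2 b3) *ᵥ v) = b1 * v 0 ^ 2 + b2 * v 1 ^ 2 + b3 * v 2 ^ 2 := by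
  rw [dg_mulVec]
  simp [dotProduct, Fin.sum_univ_three]
  ring

/-- the matrix of a homology which is orthogonal for `diag(b)` -/
theorem hom_eq_hB {F : Type*} [Field F] {b1 b2 b3 : F} {v φ : Fin 3 → F}
    (hφ : φ = (v ⬝ᵥ ((dg b1 b2 b3) *ᵥ v))⁻¹ • ((dg b1 b2 b3) *ᵥ v)) :
    (2 : F) • Matrix.vecMulVec v φ - 1 = hB b1 b2 b3 (v 0) (v 1) (v 2) := by
  rw [hφ, dg_quad, dg_mulVec, hB]
  set q := (b1 * v 0 ^ 2 + b2 * v 1 ^ 2 + b3 * v 2 ^ 2)⁻¹
  congr 1
  ext i j
  fin_cases i <;> fin_cases j <;> simp [Matrix.vecMulVec_apply] <;> ring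

theorem c2a_thm (hINV : INVStmt) (hHCO : HCOStmt) : C2AwStmt := by
  intro F _ _ hF a b c d e b1 b2 b3 hS hN hb hd
  have h2 : (2 : F) ≠ 0 := hF.1
  have hdet : b1 * b2 * b3 = 1 := by rw [← dg_det]; exact hN.ha.det
  have hb1 : b1 ≠ 0 := by rintro rfl; simp at hdet
  have hb2 : b2 ≠ 0 := by rintro rfl; simp at hdet
  have hb3 : b3 ≠ 0 := by rintro rfl; simp at hdet
  obtain ⟨v, φ, hv⟩ : ∃ v φ, IsHom d v φ := by
    rcases hINV F h2 d hS.id.1 hS.id.2 with h | h
    · exact h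
    · rw [hd] at h; exact absurd h.1 (by simp)
  have hda := (hHCO F h2 d a v φ (dg b1 b2 b3) hv hN.ha (dg_transpose _ _ _)).1 hS.ad.symm
  have hdis : Is d false (hB b1 b2 b3 (v 0) (v 1) (v 2)) := by
    refine ⟨hd, ?_⟩
    rw [hv.2.2]
    exact hom_eq_hB hda.2
  have hq : b1 * v 0 ^ 2 + b2 * v 1 ^ 2 + b3 * v 2 ^ 2 ≠ 0 := by
    rw [← dg_quad]; exact hda.1
  -- the matrix of `b`
  obtain ⟨B, hB⟩ : ∃ B : M3 F, Is b true B := ⟨_, hb, rfl⟩
  have hBs : B.transpose = B := (outer_sq_iff hB).1 hS.ib.2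
  have hbe : (dg (-1) (-1) 1 : M3 F).transpose * B * dg (-1) (-1) 1 = B :=
    (comm_inner_outer_iff hN.he hB).1 hS.be.symm
  rw [dg_transpose] at hbe
  have e02 := congrFun (congrFun hbe 0) 2
  have e12 := congrFun (congrFun hbe 1) 2
  simp [dg, Matrix.mul_apply, Matrix.vecMul, dotProduct, Fin.sum_univ_three] at e02 e12
  have z02 : B 0 2 = 0 := by
    have : (2 : F) * B 0 2 = 0 := by linear_combination -e02
    simpa [h2] using this
  have z12 : B 1 2 = 0 := by
    have : (2 : F) * B 1 2 = 0 := by linear_combination -e12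
    simpa [h2] using this
  have s20 : B 2 0 = B 0 2 := by
    conv_lhs => rw [← hBs]
    rfl
  have s21 : B 2 1 = B 1 2 := by
    conv_lhs => rw [← hBs]
    rfl
  have s10 : B 1 0 = B 0 1 := by
    conv_lhs => rw [← hBs]
    rfl
  -- `B v = k B0 v`
  have hdb := (hHCO F h2 d b v φ B hv hB hBs).1 hS.bd.symm
  set Q0 := b1 * v 0 ^ 2 + b2 * v 1 ^ 2 + b3 * v 2 ^ 2 with hQ0
  set k := (v ⬝ᵥ (B *ᵥ v)) * Q0⁻¹ with hk
  have hk0 : k ≠ 0 := mul_ne_zero hdb.1 (inv_ne_zero hq)
  have hBv : B *ᵥ v = k • ((dg b1 b2 b3) *ᵥ v) := by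
    have h1 : (v ⬝ᵥ (B *ᵥ v))⁻¹ • (B *ᵥ v) = Q0⁻¹ • ((dg b1 b2 b3) *ᵥ v) := by
      rw [← hdb.2, hda.2, dg_quad]
    calc B *ᵥ v = (v ⬝ᵥ (B *ᵥ v)) • ((v ⬝ᵥ (B *ᵥ v))⁻¹ • (B *ᵥ v)) := by
          rw [smul_smul, mul_inv_cancel₀ hdb.1, one_smul]
      _ = _ := by rw [h1, smul_smul]
  rw [dg_mulVec] at hBv
  have g0 := congrFun hBv 0
  have g1 := congrFun hBv 1
  have g2 := congrFun hBv 2
  simp [Matrix.mulVec, dotProduct, Fin.sum_univ_three, z02, z12, s20, s21, s10] at g0 g1 g2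
  -- `w3 ≠ 0`, `(w1,w2) ≠ 0`
  have hw3 : v 2 ≠ 0 := by
    intro h0
    apply hS.de
    rw [comm_inner_iff hdis hN.he, h0]
    ext i j
    fin_cases i <;> fin_cases j <;>
      simp [dg, Pool.SCG.hB, Matrix.mul_apply, Fin.sum_univ_three, Matrix.sub_apply]
  have hw12 : v 0 ≠ 0 ∨ v 1 ≠ 0 := by
    by_contra hcon
    push Not at hcon
    apply hS.de
    rw [comm_inner_iff hdis hN.he, hcon.1, hcon.2]
    ext i j
    fin_cases i <;> fin_cases j <;>
      simp [dg, Pool.SCG.hB, Matrix.mul_apply, Fin.sum_univ_three, Matrix.sub_apply]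
  have hs : B 2 2 = k * b3 := by
    apply mul_right_cancel₀ hw3
    linear_combination g2
  -- the parameter `κ`
  obtain ⟨κ, k1, k2, k3⟩ : ∃ κ : F, B 0 0 = k * b1 + κ * v 1 ^ 2 ∧ B 0 1 = -(κ * v 0 * v 1) ∧
      B 1 1 = k * b2 + κ * v 0 ^ 2 := by
    by_cases h1 : v 1 = 0
    · have h0 : v 0 ≠ 0 := by
        rcases hw12 with h | h
        · exact h
        · exact absurd h1 h
      have hy : B 0 1 = 0 := by
        rw [h1] at g1
        have : B 0 1 * v 0 = 0 := by linear_combination g1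
        rcases mul_eq_zero.1 this with h | h
        · exact h
        · exact absurd h h0
      refine ⟨(B 1 1 - k * b2) / v 0 ^ 2, ?_, ?_, ?_⟩
      · rw [h1]
        apply mul_right_cancel₀ h0
        rw [h1] at g0
        linear_combination g0
      · rw [h1, hy]; simp
      · field_simp
        ring
    · refine ⟨(B 0 0 - k * b1) / v 1 ^ 2, ?_, ?_, ?_⟩
      · field_simp
        ring
      · field_simp
        linear_combination g0
      · have hy : B 0 1 = -((B 0 0 - k * b1) / v 1 ^ 2 * v 0 * v 1) := by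
          field_simp
          linear_combination g0
        apply mul_right_cancel₀ h1
        have : B 1 1 * v 1 = k * (b2 * v 1) - B 0 1 * v 0 := by linear_combination g1
        rw [this, hy]
        field_simp
        ring
  -- determinant
  have hBmat : B = !![B 0 0, B 0 1, 0; B 0 1, B 1 1, 0; 0, 0, B 2 2] := by
    ext i j
    fin_cases i <;> fin_cases j <;> simp [z02, z12, s20, s21, s10]
  have hdB : B.det = 1 := hB.det
  rw [Matrix.det_fin_three, z02, z12, s20, s21, s10, z02, z12, hs, k1, k2, k3] at hdB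
  have hdet3 : k ^ 3 + k ^ 2 * b3 * κ * (b1 * v 0 ^ 2 + b2 * v 1 ^ 2) = 1 := by
    linear_combination hdB + (-k ^ 3) * hdet
  have hκ0 : κ = 0 → k ≠ 1 := by
    intro h h'
    apply hS.ab
    have : B = dg b1 b2 b3 := by
      rw [hBmat, k1, k2, k3, hs, h, h']
      simp [dg]
    rw [this] at hB
    rw [hN.ha.ext hB]
  refine ⟨v 0, v 1, v 2, hw3, hq, hdis, ?_⟩
  by_cases hom : b1 * v 0 ^ 2 + b2 * v 1 ^ 2 = 0
  · left
    have hk3 : k ^ 3 = 1 := by rw [hom] at hdet3; linear_combination hdet3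
    refine ⟨κ * k ^ 2, k, hk3, hw12, hom, hb, ?_⟩
    rw [hB.2, hBmat, k1, k2, k3, hs]
    ext i j
    fin_cases i <;> fin_cases j <;> simp [BK]
    · linear_combination (-κ * v 1 ^ 2) * hk3
    · linear_combination (-κ * v 0 * v 1) * hk3
    · linear_combination (-κ * v 0 * v 1) * hk3
    · linear_combination (-κ * v 0 ^ 2) * hk3
  · right
    have hκ : κ = (k⁻¹ ^ 2 - k) * (b1 * b2) * (b1 * v 0 ^ 2 + b2 * v 1 ^ 2)⁻¹ := by
      have hb3' : b3 = (b1 * b2)⁻¹ := by
        apply eq_inv_of_mul_eq_one_left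
        linear_combination hdet
      rw [hb3'] at hdet3
      field_simp at hdet3 ⊢
      linear_combination hdet3
    refine ⟨k, ?_, hk0, hom, hb, ?_⟩
    · intro hk2
      have : k = 1 ∨ k = -1 := by
        have : (k - 1) * (k + 1) = 0 := by linear_combination hk2
        rcases mul_eq_zero.1 this with h | h
        · left; linear_combination h
        · right; linear_combination h
      rcases this with h | h
      · refine hκ0 ?_ h
        rw [hκ, h]; simp
      · apply hS.ab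
        rw [comm_outer_iff hN.ha hB (dg_transpose _ _ _) hBs]
        have hadj : adjugate (dg b1 b2 b3) = dg b1⁻¹ b2⁻¹ b3⁻¹ := by
          apply adj_unique hN.ha.det
          rw [dg_mul, mul_inv_cancel₀ hb1, mul_inv_cancel₀ hb2, mul_inv_cancel₀ hb3, dg_one]
        have hκ' : κ * (b1 * v 0 ^ 2 + b2 * v 1 ^ 2) = 2 * (b1 * b2) := by
          rw [hκ, h]
          field_simp
          ring
        rw [hadj, hBmat, k1, k2, k3, hs, h]
        ext i j
        fin_cases i <;> fin_cases j <;>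
          simp [dg, Matrix.mul_apply, Fin.sum_univ_three]
        all_goals field_simp
        · linear_combination (κ * v 1 ^ 2) * hκ'
        · linear_combination (-κ * v 0 * v 1) * hκ'
        · linear_combination (-κ * v 0 * v 1) * hκ'
        · linear_combination (κ * v 0 ^ 2) * hκ'
    · rw [hB.2, hBmat, k1, k2, k3, hs, hκ]
      ext i j
      fin_cases i <;> fin_cases j <;> simp [BM]
      all_goals field_simp
      all_goals ring

end Pool.Agent.H24.SCG2.PC2A
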