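import Pool.Agent.H24.SCG2.Stmts1

/-!
C2B: parametrisation for `d.s = true`.
-/

namespace Pool.Agent.H24.SCG2.PC2B

open Matrix Pool.SCG

/-- a symmetric form of rank one on the plane -/
theorem c2b_ker {F : Type*} [Field F] {n11 n12 n22 w1 w2 : F} (h : w1 ≠ 0 ∨ w2 ≠ 0)
    (h1 : n11 * w1 + n12 * w2 = 0) (h2 : n12 * w1 + n22 * w2 = 0) :
    ∃ κ, n11 = κ * w2 ^ 2 ∧ n12 = -(κ * w1 * w2) ∧ n22 = κ * w1 ^ 2 := by
  by_cases hw1 : w1 = 0
  · subst hw1
    have hw2 : w2 ≠ 0 := by tauto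
    have e1 : n12 = 0 := by
      have : n12 * w2 = 0 := by linear_combination h1
      exact (mul_eq_zero.1 this).resolve_right hw2
    have e2 : n22 = 0 := by
      have : n22 * w2 = 0 := by linear_combination h2
      exact (mul_eq_zero.1 this).resolve_right hw2
    refine ⟨n11 / w2 ^ 2, by field_simp, ?_, ?_⟩
    · rw [e1]; ring
    · rw [e2]; ring
  · refine ⟨n22 / w1 ^ 2, ?_, ?_, by field_simp⟩
    · have e1 : (n11 * w1 ^ 2 - n22 * w2 ^ 2) = 0 := by linear_combination w1 * h1 - w2 * h2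
      field_simp
      linear_combination e1
    · field_simp
      linear_combination h2

/-- entries of the product -/
theorem c2b_entries {F : Type*} [Field F] {b1 b2 b3 p y r s w1 w2 w3 θ : F}
    (h : (!![b2 * b3 * p, b2 * b3 * y, 0; b1 * b3 * y, b1 * b3 * r, 0; 0, 0, b1 * b2 * s] :
        Matrix (Fin 3) (Fin 3) F) * (θ • !![w1 * (b1 * w1), w1 * (b2 * w2), w1 * (b3 * w3);
          w2 * (b1 * w1), w2 * (b2 * w2), w2 * (b3 * w3);
          w3 * (b1 * w1), w3 * (b2 * w2), w3 * (b3 * w3)] - 1) *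
        !![b2 * b3 * p, b2 * b3 * y, 0; b1 * b3 * y, b1 * b3 * r, 0; 0, 0, b1 * b2 * s]
      = θ • !![w1 * (b1 * w1), w1 * (b2 * w2), w1 * (b3 * w3);
          w2 * (b1 * w1), w2 * (b2 * w2), w2 * (b3 * w3);
          w3 * (b1 * w1), w3 * (b2 * w2), w3 * (b3 * w3)] - 1) :
    θ * (b2 * b3 * (p * w1 + y * w2)) * (b3 * w3 * (b1 * b2 * s)) = θ * w1 * (b3 * w3) ∧
    θ * (b1 * b3 * (y * w1 + r * w2)) * (b3 * w3 * (b1 * b2 * s)) = θ * w2 * (b3 * w3) ∧
    θ * (b1 * b2 * s * w3) * (b3 * w3 * (b1 * b2 * s)) - (b1 * b2 * s) ^ 2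
      = θ * w3 * (b3 * w3) - 1 ∧
    θ * (b2 * b3 * (p * w1 + y * w2)) * (b1 * b2 * b3 * (p * w1 + y * w2)) -
      ((b2 * b3 * p) ^ 2 + (b2 * b3 * y) * (b1 * b3 * y)) = θ * w1 * (b1 * w1) - 1 ∧
    θ * (b2 * b3 * (p * w1 + y * w2)) * (b1 * b2 * b3 * (y * w1 + r * w2)) -
      ((b2 * b3 * p) * (b2 * b3 * y) + (b2 * b3 * y) * (b1 * b3 * r)) = θ * w1 * (b2 * w2) ∧
    θ * (b1 * b3 * (y * w1 + r * w2)) * (b1 * b2 * b3 * (p * w1 + y * w2)) -
      ((b1 * b3 * y) * (b2 * b3 * p) + (b1 * b3 * r) * (b1 * b3 * y)) = θ * w2 * (b1 * w1) ∧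
    θ * (b1 * b3 * (y * w1 + r * w2)) * (b1 * b2 * b3 * (y * w1 + r * w2)) -
      ((b1 * b3 * y) * (b2 * b3 * y) + (b1 * b3 * r) ^ 2) = θ * w2 * (b2 * w2) - 1 := by
  have h02 := congrFun (congrFun h 0) 2
  have h12 := congrFun (congrFun h 1) 2
  have h22 := congrFun (congrFun h 2) 2
  have h00 := congrFun (congrFun h 0) 0
  have h01 := congrFun (congrFun h 0) 1
  have h10 := congrFun (congrFun h 1) 0
  have h11 := congrFun (congrFun h 1) 1
  simp [Matrix.mul_apply, Fin.sum_univ_three, Matrix.vecMul, dotProduct, Matrix.sub_apply,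
    Matrix.one_apply] at h02 h12 h22 h00 h01 h10 h11
  refine ⟨?_, ?_, ?_, ?_, ?_, ?_, ?_⟩
  · linear_combination h02
  · linear_combination h12
  · linear_combination h22
  · linear_combination h00
  · linear_combination h01
  · linear_combination h10
  · linear_combination h11

/-- the case distinction in terms of the entries -/
theorem c2b_alg {F : Type*} [Field F] (h2 : (2 : F) ≠ 0)
    {b1 b2 b3 p y r s w1 w2 w3 θ : F} (hdet : b1 * b2 * b3 = 1)
    (hB : (p * r - y ^ 2) * s = 1) (hw3 : w3 ≠ 0) (hw : w1 ≠ 0 ∨ w2 ≠ 0)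
    (hθ : θ * (b1 * w1 ^ 2 + b2 * w2 ^ 2 + b3 * w3 ^ 2) = 2)
    (e13 : θ * (b2 * b3 * (p * w1 + y * w2)) * (b3 * w3 * (b1 * b2 * s)) = θ * w1 * (b3 * w3))
    (e23 : θ * (b1 * b3 * (y * w1 + r * w2)) * (b3 * w3 * (b1 * b2 * s)) = θ * w2 * (b3 * w3))
    (e33 : θ * (b1 * b2 * s * w3) * (b3 * w3 * (b1 * b2 * s)) - (b1 * b2 * s) ^ 2
      = θ * w3 * (b3 * w3) - 1)
    (e11 : θ * (b2 * b3 * (p * w1 + y * w2)) * (b1 * b2 * b3 * (p * w1 + y * w2)) -
      ((b2 * b3 * p) ^ 2 + (b2 * b3 * y) * (b1 * b3 * y)) = θ * w1 * (b1 * w1) - 1)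
    (e12 : θ * (b2 * b3 * (p * w1 + y * w2)) * (b1 * b2 * b3 * (y * w1 + r * w2)) -
      ((b2 * b3 * p) * (b2 * b3 * y) + (b2 * b3 * y) * (b1 * b3 * r)) = θ * w1 * (b2 * w2))
    (e21 : θ * (b1 * b3 * (y * w1 + r * w2)) * (b1 * b2 * b3 * (p * w1 + y * w2)) -
      ((b1 * b3 * y) * (b2 * b3 * p) + (b1 * b3 * r) * (b1 * b3 * y)) = θ * w2 * (b1 * w1))
    (e22 : θ * (b1 * b3 * (y * w1 + r * w2)) * (b1 * b2 * b3 * (y * w1 + r * w2)) -
      ((b1 * b3 * y) * (b2 * b3 * y) + (b1 * b3 * r) ^ 2) = θ * w2 * (b2 * w2) - 1) :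
    (∃ κ : F, κ * (b1 * w1 ^ 2 + b2 * w2 ^ 2) = 0 ∧ p = b1 + κ * w2 ^ 2 ∧
      y = -(κ * w1 * w2) ∧ r = b2 + κ * w1 ^ 2 ∧ s = b3) ∨
    (∃ k : F, k ^ 2 ≠ 1 ∧ k ≠ 0 ∧ b1 * w1 ^ 2 + b2 * w2 ^ 2 = b3 * w3 ^ 2 ∧
      p = 1 * b1 + (k⁻¹ - 1) * (b1 * w1) ^ 2 * (b1 * w1 ^ 2 + b2 * w2 ^ 2)⁻¹ ∧
      y = (k⁻¹ - 1) * (b1 * w1) * (b2 * w2) * (b1 * w1 ^ 2 + b2 * w2 ^ 2)⁻¹ ∧
      r = 1 * b2 + (k⁻¹ - 1) * (b2 * w2) ^ 2 * (b1 * w1 ^ 2 + b2 * w2 ^ 2)⁻¹ ∧ s = k * b3) ∨
    ((b2 * b3 * p) ^ 2 + (b2 * b3 * y) * (b1 * b3 * y) = 1 ∧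
      (b2 * b3 * p) * (b2 * b3 * y) + (b2 * b3 * y) * (b1 * b3 * r) = 0 ∧
      (b1 * b3 * y) * (b2 * b3 * p) + (b1 * b3 * r) * (b1 * b3 * y) = 0 ∧
      (b1 * b3 * y) * (b2 * b3 * y) + (b1 * b3 * r) ^ 2 = 1 ∧ (b1 * b2 * s) ^ 2 = 1) := by
  have hb1 : b1 ≠ 0 := by
    rintro rfl
    simp at hdet
  have hb2 : b2 ≠ 0 := by
    rintro rfl
    simp at hdet
  have hb3 : b3 ≠ 0 := by
    rintro rfl
    simp at hdet
  have hθ0 : θ ≠ 0 := by
    rintro rfl
    apply h2
    rw [← hθ]; ring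
  have hs : s ≠ 0 := by
    rintro rfl
    simp at hB
  obtain ⟨k, hk⟩ : ∃ k, k = b1 * b2 * s := ⟨_, rfl⟩
  have hk0 : k ≠ 0 := by
    rw [hk]; exact mul_ne_zero (mul_ne_zero hb1 hb2) hs
  have hks : s = k * b3 := by
    rw [hk]; linear_combination (-s) * hdet
  -- the vector `(w1,w2)` is an eigenvector
  have hE1 : (p * w1 + y * w2) * k = b1 * w1 := by
    have : θ * (b3 * w3) * ((p * w1 + y * w2) * k - b1 * w1) = 0 := by
      rw [hk]
      linear_combination b1 * e13 - θ * b3 * w3 * (p * w1 + y * w2) * (b1 * b2 * s) * hdet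
    rcases mul_eq_zero.1 this with h | h
    · exact absurd h (mul_ne_zero hθ0 (mul_ne_zero hb3 hw3))
    · linear_combination h
  have hE2 : (y * w1 + r * w2) * k = b2 * w2 := by
    have : θ * (b3 * w3) * ((y * w1 + r * w2) * k - b2 * w2) = 0 := by
      rw [hk]
      linear_combination b2 * e23 - θ * b3 * w3 * (y * w1 + r * w2) * (b1 * b2 * s) * hdet
    rcases mul_eq_zero.1 this with h | h
    · exact absurd h (mul_ne_zero hθ0 (mul_ne_zero hb3 hw3))
    · linear_combination h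
  have hkd : (p * r - y ^ 2) * k = b1 * b2 := by
    rw [hk]; linear_combination b1 * b2 * hB
  obtain ⟨κ, hp, hy, hr⟩ := c2b_ker (n11 := p - k⁻¹ * b1) (n12 := y) (n22 := r - k⁻¹ * b2) hw
    (by
      field_simp
      linear_combination hE1)
    (by
      field_simp
      linear_combination hE2)
  have hp' : p = k⁻¹ * b1 + κ * w2 ^ 2 := by linear_combination hp
  have hr' : r = k⁻¹ * b2 + κ * w1 ^ 2 := by linear_combination hr
  have hκ : κ * (b1 * w1 ^ 2 + b2 * w2 ^ 2) = b1 * b2 * (1 - k⁻¹) := by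
    rw [hp', hr', hy] at hkd
    have hkk : k⁻¹ * k = 1 := inv_mul_cancel₀ hk0
    linear_combination hkd - (k⁻¹ * b1 * b2 + κ * (b1 * w1 ^ 2 + b2 * w2 ^ 2)) * hkk
  have h33 : (k ^ 2 - 1) * (θ * (b3 * w3 ^ 2) - 1) = 0 := by
    rw [hk]; linear_combination e33
  rcases mul_eq_zero.1 h33 with h | h
  · have : (k - 1) * (k + 1) = 0 := by linear_combination h
    rcases mul_eq_zero.1 this with h1 | h1
    · -- `k = 1`
      have hk1 : k = 1 := by linear_combination h1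
      left
      refine ⟨κ, ?_, ?_, hy, ?_, ?_⟩
      · rw [hκ, hk1]; simp
      · rw [hp', hk1]; simp
      · rw [hr', hk1]; simp
      · rw [hks, hk1]; simp
    · -- `k = -1`
      have hk1 : k = -1 := by linear_combination h1
      right; right
      rw [hk1] at hE1 hE2
      have hE1' : p * w1 + y * w2 = -(b1 * w1) := by linear_combination -hE1
      have hE2' : y * w1 + r * w2 = -(b2 * w2) := by linear_combination -hE2
      rw [hE1'] at e11 e12 e21
      rw [hE2'] at e12 e21 e22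
      rw [hdet] at e11 e12 e21 e22
      refine ⟨?_, ?_, ?_, ?_, ?_⟩
      · linear_combination -e11 + θ * b1 * w1 ^ 2 * hdet
      · linear_combination -e12 + θ * b2 * w1 * w2 * hdet
      · linear_combination -e21 + θ * b1 * w1 * w2 * hdet
      · linear_combination -e22 + θ * b2 * w2 ^ 2 * hdet
      · rw [← hk, hk1]; ring
  · -- `k ^ 2 ≠ 1` or one of the cases above
    by_cases hk2 : k ^ 2 = 1
    · have : (k - 1) * (k + 1) = 0 := by linear_combination hk2
      rcases mul_eq_zero.1 this with h1 | h1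
      · have hk1 : k = 1 := by linear_combination h1
        left
        refine ⟨κ, ?_, ?_, hy, ?_, ?_⟩
        · rw [hκ, hk1]; simp
        · rw [hp', hk1]; simp
        · rw [hr', hk1]; simp
        · rw [hks, hk1]; simp
      · have hk1 : k = -1 := by linear_combination h1
        right; right
        rw [hk1] at hE1 hE2
        have hE1' : p * w1 + y * w2 = -(b1 * w1) := by linear_combination -hE1
        have hE2' : y * w1 + r * w2 = -(b2 * w2) := by linear_combination -hE2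
        rw [hE1'] at e11 e12 e21
        rw [hE2'] at e12 e21 e22
        rw [hdet] at e11 e12 e21 e22
        refine ⟨?_, ?_, ?_, ?_, ?_⟩
        · linear_combination -e11 + θ * b1 * w1 ^ 2 * hdet
        · linear_combination -e12 + θ * b2 * w1 * w2 * hdet
        · linear_combination -e21 + θ * b1 * w1 * w2 * hdet
        · linear_combination -e22 + θ * b2 * w2 ^ 2 * hdet
        · rw [← hk, hk1]; ring
    · right; left
      have hom : b1 * w1 ^ 2 + b2 * w2 ^ 2 = b3 * w3 ^ 2 := by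
        have : θ * (b1 * w1 ^ 2 + b2 * w2 ^ 2 - b3 * w3 ^ 2) = 0 := by
          linear_combination hθ - 2 * h
        rcases mul_eq_zero.1 this with h1 | h1
        · exact absurd h1 hθ0
        · linear_combination h1
      have hom0 : b1 * w1 ^ 2 + b2 * w2 ^ 2 ≠ 0 := by
        rw [hom]; exact mul_ne_zero hb3 (pow_ne_zero 2 hw3)
      have hκ' : κ = b1 * b2 * (1 - k⁻¹) * (b1 * w1 ^ 2 + b2 * w2 ^ 2)⁻¹ :=
        (eq_mul_inv_iff_mul_eq₀ hom0).2 hκ
      refine ⟨k, hk2, hk0, hom, ?_, ?_, ?_, hks⟩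
      · rw [hp', hκ']
        field_simp
        ring
      · rw [hy, hκ']
        field_simp
        ring
      · rw [hr', hκ']
        field_simp
        ring

/-- `H3` commutes with `hB` if `w3 = 0` or `w1 = w2 = 0` -/
theorem c2b_comm {F : Type*} [Field F] {b1 b2 b3 w1 w2 w3 : F}
    (h : w3 = 0 ∨ (w1 = 0 ∧ w2 = 0)) :
    hB b1 b2 b3 w1 w2 w3 * dg (-1) (-1) 1 = dg (-1) (-1) 1 * hB b1 b2 b3 w1 w2 w3 := by
  rcases h with h | ⟨h1, h2⟩
  · subst h
    ext i j
    fin_cases i <;> fin_cases j <;>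
      simp [hB, dg, Matrix.mul_apply, Fin.sum_univ_three]
  · subst h1 h2
    ext i j
    fin_cases i <;> fin_cases j <;>
      simp [hB, dg, Matrix.mul_apply, Fin.sum_univ_three]

/-- the homology commuting with a diagonal form -/
theorem c2b_hom {F : Type*} [Field F] (b1 b2 b3 : F) (w : Fin 3 → F) :
    (2 : F) • Matrix.vecMulVec w ((w ⬝ᵥ (dg b1 b2 b3 *ᵥ w))⁻¹ • (dg b1 b2 b3 *ᵥ w)) - 1
      = hB b1 b2 b3 (w 0) (w 1) (w 2) := by
  have hq : w ⬝ᵥ (dg b1 b2 b3 *ᵥ w) = b1 * w 0 ^ 2 + b2 * w 1 ^ 2 + b3 * w 2 ^ 2 := by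
    simp [dg, Matrix.mulVec, dotProduct, Fin.sum_univ_three]
    ring
  rw [hq]
  unfold hB
  ext i j
  fin_cases i <;> fin_cases j <;>
    simp [dg, Matrix.vecMulVec, Matrix.mulVec, dotProduct, Fin.sum_univ_three] <;> ring

theorem c2b_thm (hINV : INVStmt) (hHCO : HCOStmt) : C2BwStmt := by
  intro F _ _ hF a b c d e b1 b2 b3 hS hN hbs hds
  have h2 : (2 : F) ≠ 0 := hF.1
  have ha := hN.ha
  have he := hN.he
  have hdet : b1 * b2 * b3 = 1 := by
    have := ha.det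
    rwa [dg_det] at this
  have hb1 : b1 ≠ 0 := by
    rintro rfl
    simp at hdet
  have hb2 : b2 ≠ 0 := by
    rintro rfl
    simp at hdet
  have hb3 : b3 ≠ 0 := by
    rintro rfl
    simp at hdet
  have hinv : dg b1 b2 b3 * dg (b2 * b3) (b1 * b3) (b1 * b2) = 1 := by
    rw [dg_mul, ← dg_one]
    congr 1
    · linear_combination hdet
    · linear_combination hdet
    · linear_combination hdet
  -- the matrix of `b`
  obtain ⟨B, hB⟩ : ∃ B, Is b true B := ⟨_, hbs, rfl⟩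
  have hBt : B.transpose = B := (outer_sq_iff hB).1 hS.ib.2
  have hBe := (comm_inner_outer_iff he hB).1 hS.be.symm
  obtain ⟨p, y, r, s, hBm⟩ : ∃ p y r s : F, B = !![p, y, 0; y, r, 0; 0, 0, s] := by
    refine ⟨B 0 0, B 0 1, B 1 1, B 2 2, ?_⟩
    have h01 := congrFun (congrFun hBt 0) 1
    have h02 := congrFun (congrFun hBt 0) 2
    have h12 := congrFun (congrFun hBt 1) 2
    have k02 := congrFun (congrFun hBe 0) 2
    have k12 := congrFun (congrFun hBe 1) 2
    simp [dg, Matrix.mul_apply, Fin.sum_univ_three, Matrix.transpose_apply] at h01 h02 h12 k02 k12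
    have z02 : B 0 2 = 0 := by
      have : 2 * B 0 2 = 0 := by linear_combination -k02
      exact (mul_eq_zero.1 this).resolve_left h2
    have z12 : B 1 2 = 0 := by
      have : 2 * B 1 2 = 0 := by linear_combination -k12
      exact (mul_eq_zero.1 this).resolve_left h2
    ext i j
    fin_cases i <;> fin_cases j <;> simp [h01, h02, h12, z02, z12]
  rw [hBm] at hB
  have hBdet : (p * r - y ^ 2) * s = 1 := by
    have := hB.det
    rw [Matrix.det_fin_three] at this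
    simp at this
    linear_combination this
  -- the homology `a * d`
  obtain ⟨D, hD⟩ : ∃ D, Is d true D := ⟨_, hds, rfl⟩
  have hg0 := ha.mul_outer' hD hinv
  have haa := hS.ia.2
  have hbb := hS.ib.2
  have hdd := hS.id.2
  have hg1 : a * d ≠ 1 := by
    intro h
    have hda : d = a := by
      calc d = (a * a) * d := by rw [haa, one_mul]
        _ = a * (a * d) := by rw [mul_assoc]
        _ = a := by rw [h, mul_one]
    apply hS.de
    rw [hda]
    exact hS.ae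
  have hg2 : (a * d) * (a * d) = 1 := by
    calc (a * d) * (a * d) = a * (d * a) * d := by simp only [mul_assoc]
      _ = (a * a) * (d * d) := by rw [← hS.ad]; simp only [mul_assoc]
      _ = 1 := by rw [haa, hdd, one_mul]
  have hga : (a * d) * a = a * (a * d) := by
    rw [mul_assoc, ← hS.ad]
  rcases hINV F h2 (a * d) hg1 hg2 with ⟨w, φ, hw⟩ | ⟨hs, -⟩
  swap
  · have h1 := hg0.1
    rw [hs] at h1
    exact absurd h1 (by simp)
  obtain ⟨hq, hφ⟩ := (hHCO F h2 (a * d) a w φ (dg b1 b2 b3) hw ha (dg_transpose _ _ _)).1 hga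
  have hK : Is (a * d) false (Pool.SCG.hB b1 b2 b3 (w 0) (w 1) (w 2)) := by
    refine ⟨hw.1, ?_⟩
    rw [hw.2.2, hφ]
    exact c2b_hom b1 b2 b3 w
  have hq' : b1 * w 0 ^ 2 + b2 * w 1 ^ 2 + b3 * w 2 ^ 2 ≠ 0 := by
    intro h0
    apply hq
    rw [← h0]
    simp [dg, Matrix.mulVec, dotProduct, Fin.sum_univ_three]
    ring
  generalize w 0 = w1 at hK hq'
  generalize w 1 = w2 at hK hq'
  generalize w 2 = w3 at hK hq'
  have hd' : Is d true (dg b1 b2 b3 * Pool.SCG.hB b1 b2 b3 w1 w2 w3) := by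
    have := ha.mul_inner hK
    rwa [← mul_assoc, haa, one_mul] at this
  have hge : ¬ (w3 = 0 ∨ (w1 = 0 ∧ w2 = 0)) := by
    intro h
    have h1 : (a * d) * e = e * (a * d) := (comm_inner_iff hK he).2 (c2b_comm h)
    apply hS.de
    calc d * e = (a * a) * (d * e) := by rw [haa, one_mul]
      _ = a * ((a * d) * e) := by simp only [mul_assoc]
      _ = a * (e * (a * d)) := by rw [h1]
      _ = (a * e) * (a * d) := by simp only [mul_assoc]
      _ = e * (a * a) * d := by rw [hS.ae]; simp only [mul_assoc]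
      _ = e * d := by rw [haa, mul_one]
  have hw3 : w3 ≠ 0 := fun h => hge (Or.inl h)
  have hw12 : w1 ≠ 0 ∨ w2 ≠ 0 := by
    by_contra h
    push Not at h
    exact hge (Or.inr h)
  -- the product `a * b`
  have hM := ha.mul_outer' hB hinv
  have hMm : (dg (b2 * b3) (b1 * b3) (b1 * b2)).transpose * !![p, y, 0; y, r, 0; 0, 0, s]
      = !![b2 * b3 * p, b2 * b3 * y, 0; b1 * b3 * y, b1 * b3 * r, 0; 0, 0, b1 * b2 * s] := by
    ext i j
    fin_cases i <;> fin_cases j <;> simp [dg, Matrix.mul_apply, Fin.sum_univ_three]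
  rw [hMm] at hM
  have hrel : (a * b) * (a * d) * (a * b) = a * d := by
    calc (a * b) * (a * d) * (a * b) = a * b * (a * (d * a)) * b := by simp only [mul_assoc]
      _ = a * b * ((a * a) * d) * b := by rw [← hS.ad]; simp only [mul_assoc]
      _ = a * (b * d) * b := by rw [haa, one_mul]; simp only [mul_assoc]
      _ = a * d * (b * b) := by rw [hS.bd]; simp only [mul_assoc]
      _ = a * d := by rw [hbb, mul_one]
  have hMKM := (hM.mul_inner hK).mul_inner hM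
  rw [hrel] at hMKM
  have hEq := (hMKM.uniq hK).2
  obtain ⟨θ, hθ⟩ : ∃ θ, θ = 2 * (b1 * w1 ^ 2 + b2 * w2 ^ 2 + b3 * w3 ^ 2)⁻¹ := ⟨_, rfl⟩
  have hθ' : θ * (b1 * w1 ^ 2 + b2 * w2 ^ 2 + b3 * w3 ^ 2) = 2 := by
    rw [hθ, mul_assoc, inv_mul_cancel₀ hq', mul_one]
  unfold Pool.SCG.hB at hEq
  rw [← hθ] at hEq
  obtain ⟨e13, e23, e33, e11, e12, e21, e22⟩ := c2b_entries hEq
  refine ⟨w1, w2, w3, hw3, hq', hd', ?_⟩
  rcases c2b_alg h2 hdet hBdet hw3 hw12 hθ' e13 e23 e33 e11 e12 e21 e22 with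
    ⟨κ, hκ, hp, hy, hr, hs⟩ | ⟨k, hk2, hk0, hom, hp, hy, hr, hs⟩ | ⟨f11, f12, f21, f22, f33⟩
  · left
    have hκ0 : κ ≠ 0 := by
      rintro rfl
      apply hS.ab
      have hba : b = a := by
        apply hB.ext
        have e : (!![p, y, 0; y, r, 0; 0, 0, s] : Matrix (Fin 3) (Fin 3) F) = dg b1 b2 b3 := by
          rw [hp, hy, hr, hs]
          simp [dg]
        rw [e]
        exact ha
      rw [hba]
    refine ⟨κ, hκ0, hw12, (mul_eq_zero.1 hκ).resolve_left hκ0, ?_⟩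
    have e : (!![p, y, 0; y, r, 0; 0, 0, s] : Matrix (Fin 3) (Fin 3) F)
        = BK b1 b2 b3 w1 w2 κ := by
      unfold BK
      rw [hp, hy, hr, hs]
    rw [← e]
    exact hB
  · right
    refine ⟨k, hk2, hk0, hom, ?_⟩
    have e : (!![p, y, 0; y, r, 0; 0, 0, s] : Matrix (Fin 3) (Fin 3) F)
        = BM b1 b2 b3 w1 w2 1 k⁻¹ k := by
      unfold BM
      rw [hp, hy, hr, hs]
    rw [← e]
    exact hB
  · exfalso
    have hsq : (a * b) * (a * b) = 1 := by
      rw [inner_sq_iff hM]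
      ext i j
      fin_cases i <;> fin_cases j <;> simp [Matrix.mul_apply, Fin.sum_univ_three]
      · linear_combination f11
      · linear_combination f12
      · linear_combination f21
      · linear_combination f22
      · linear_combination f33
    apply hS.ab
    have h1 : a * b = (a * b)⁻¹ := eq_inv_of_mul_eq_one_left hsq
    rw [_root_.mul_inv_rev, inv_eq_of_mul_eq_one_left haa, inv_eq_of_mul_eq_one_left hbb] at h1
    exact h1

end Pool.Agent.H24.SCG2.PC2B
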