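import Pool.Agent.H24.SCG2.Stmts1

/-! Case 2, `w2 = 0`, `d` inner. -/

namespace Pool.Agent.H24.SCG2.PC2F

open Matrix Pool.SCG

variable {F : Type*} [Field F]

/-- block matrices fixing the second basis vector -/
def Bl (p q r s : F) : Matrix (Fin 3) (Fin 3) F := !![p, 0, q; 0, 1, 0; r, 0, s]

theorem bl_mul (p q r s p' q' r' s' : F) : Bl p q r s * Bl p' q' r' s' =
    Bl (p * p' + q * r') (p * q' + q * s') (r * p' + s * r') (r * q' + s * s') := by
  ext i j
  fin_cases i <;> fin_cases j <;> simp [Bl, Matrix.mul_apply, Fin.sum_univ_three]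

theorem bl_det (p q r s : F) : (Bl p q r s).det = p * s - q * r := by
  simp [Bl, Matrix.det_fin_three]

theorem bl_one : Bl (1 : F) 0 0 1 = 1 := by
  ext i j
  fin_cases i <;> fin_cases j <;> simp [Bl]

theorem bl_inj {p q r s p' q' r' s' : F} (h : Bl p q r s = Bl p' q' r' s') :
    p = p' ∧ q = q' ∧ r = r' ∧ s = s' := by
  have h0 := congrFun (congrFun h 0) 0
  have h1 := congrFun (congrFun h 0) 2
  have h2 := congrFun (congrFun h 2) 0
  have h3 := congrFun (congrFun h 2) 2
  simp [Bl] at h0 h1 h2 h3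
  exact ⟨h0, h1, h2, h3⟩

theorem bl_pow {g : Cor F} (hg : ∃ p q r s : F, Is g false (Bl p q r s)) (n : ℕ) :
    ∃ p q r s : F, Is (g ^ n) false (Bl p q r s) := by
  induction n with
  | zero =>
    refine ⟨1, 0, 0, 1, ?_⟩
    rw [bl_one, pow_zero]
    exact is_one
  | succ n ih =>
    obtain ⟨p, q, r, s, h⟩ := ih
    obtain ⟨p', q', r', s', h'⟩ := hg
    have := h.mul_inner h'
    rw [bl_mul] at this
    rw [pow_succ]
    exact ⟨_, _, _, _, this⟩

/-- an involution among the block matrices -/
theorem bl_invol (h2 : (2 : F) ≠ 0) {y : Cor F} (hy : ∃ p q r s : F, Is y false (Bl p q r s))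
    (h1 : y ≠ 1) (hyy : y * y = 1) : Is y false (dg (-1) 1 (-1)) := by
  obtain ⟨p, q, r, s, h⟩ := hy
  have hdet : p * s - q * r = 1 := by rw [← bl_det]; exact h.det
  have hsq := (inner_sq_iff h).1 hyy
  rw [bl_mul, ← bl_one] at hsq
  obtain ⟨e1, e2, e3, e4⟩ := bl_inj hsq
  by_cases hps : p + s = 0
  · exfalso
    have hs : s = -p := by linear_combination hps
    subst hs
    apply h2
    linear_combination -e1 - hdet
  · have hq : q = 0 := by
      have : q * (p + s) = 0 := by linear_combination e2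
      rcases mul_eq_zero.1 this with h | h
      · exact h
      · exact absurd h hps
    have hr : r = 0 := by
      have : r * (p + s) = 0 := by linear_combination e3
      rcases mul_eq_zero.1 this with h | h
      · exact h
      · exact absurd h hps
    subst hq
    subst hr
    have hp : (p - 1) * (p + 1) = 0 := by linear_combination e1
    have hpne : p ≠ 0 := by
      rintro rfl
      simp at hdet
    have hsp : s = p := by
      have : p * (s - p) = 0 := by linear_combination hdet - e1
      rcases mul_eq_zero.1 this with h | h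
      · exact absurd h hpne
      · linear_combination h
    subst hsp
    rcases mul_eq_zero.1 hp with h' | h'
    · exfalso
      have hs1 : s = 1 := by linear_combination h'
      subst hs1
      apply h1
      rw [bl_one] at h
      exact h.ext is_one
    · have hs1 : s = -1 := by linear_combination h'
      subst hs1
      have e : Bl (-1 : F) 0 0 (-1) = dg (-1) 1 (-1) := by
        ext i j
        fin_cases i <;> fin_cases j <;> simp [Bl, dg]
      rwa [e] at h

/-- group theory of the case: `a, g, z` commute, `c = a z e`, `c d = a z g`. -/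
theorem group_part {G : Type*} [Group G] [Finite G] (a c d e z : G)
    (hz : z = a * c * e) (haa : a * a = 1) (hcc : c * c = 1) (hdd : d * d = 1) (hee : e * e = 1)
    (hac : a * c = c * a) (had : a * d = d * a) (hae : a * e = e * a) (hce : c * e = e * c)
    (hzd : z * d = d * z) (hde : d * e ≠ e * d)
    (hpow : ∀ n : ℕ, (e * d) ^ n ≠ 1 → (e * d) ^ n * (e * d) ^ n = 1 → (e * d) ^ n = z) :
    e ∈ Subgroup.closure ({c, d} : Set G) ∨ a ∈ Subgroup.closure ({c, d, e} : Set G) := by
  have hza : a * z = z * a := by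
    rw [hz]
    calc a * (a * c * e) = (a * a) * c * e := by simp only [mul_assoc]
      _ = c * e * (a * a) := by rw [haa, one_mul, mul_one]
      _ = a * c * e * a := by
        calc c * e * (a * a) = c * (e * a) * a := by simp only [mul_assoc]
          _ = c * (a * e) * a := by rw [hae]
          _ = (c * a) * e * a := by simp only [mul_assoc]
          _ = a * c * e * a := by rw [hac]
  have hze : z * e = e * z := by
    rw [hz]
    calc a * c * e * e = a * (c * e) * e := by simp only [mul_assoc]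
      _ = a * (e * c) * e := by rw [hce]
      _ = (a * e) * c * e := by simp only [mul_assoc]
      _ = e * a * c * e := by rw [hae]
      _ = e * (a * c * e) := by simp only [mul_assoc]
  have hzz : z * z = 1 := by
    calc z * z = a * c * e * z := by rw [← hz]
      _ = a * c * (e * z) := by simp only [mul_assoc]
      _ = a * c * (z * e) := by rw [hze]
      _ = a * c * (a * c * e * e) := by rw [← hz]
      _ = a * (c * a) * c * (e * e) := by simp only [mul_assoc]
      _ = a * (a * c) * c := by rw [hac, hee, mul_one]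
      _ = (a * a) * (c * c) := by simp only [mul_assoc]
      _ = 1 := by rw [haa, hcc, one_mul]
  have hcaze : c = a * z * e := by
    calc c = (a * a) * c * (e * e) := by rw [haa, hee, one_mul, mul_one]
      _ = a * (a * c * e) * e := by simp only [mul_assoc]
      _ = a * z * e := by rw [← hz]
  have hce' : c * e = a * z := by
    calc c * e = a * z * e * e := by rw [← hcaze]
      _ = a * z * (e * e) := by simp only [mul_assoc]
      _ = a * z := by rw [hee, mul_one]
  have hagz : Commute (a * z) (e * d) := by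
    have c1 : Commute a e := hae
    have c2 : Commute a d := had
    have c3 : Commute z e := hze
    have c4 : Commute z d := hzd
    exact (c1.mul_right c2).mul_left (c3.mul_right c4)
  have hg1 : e * d ≠ 1 := by
    intro h
    apply hde
    have : e = d := by
      calc e = e * (d * d) := by rw [hdd, mul_one]
        _ = (e * d) * d := by simp only [mul_assoc]
        _ = d := by rw [h, one_mul]
    rw [this]
  have hcd : c * d = (a * z) * (e * d) := by
    rw [← mul_assoc, ← hcaze]
  have hfin : IsOfFinOrder (e * d) := isOfFinOrder_of_finite _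
  have hpos : 0 < orderOf (e * d) := orderOf_pos_iff.2 hfin
  rcases Nat.even_or_odd' (orderOf (e * d)) with ⟨n, hn | hn⟩
  · right
    have hn0 : 0 < n := by omega
    have h1 : (e * d) ^ n ≠ 1 := by
      intro h
      have := orderOf_le_of_pow_eq_one hn0 h
      omega
    have h2 : (e * d) ^ n * (e * d) ^ n = 1 := by
      rw [← pow_add, ← two_mul, ← hn, pow_orderOf_eq_one]
    have h3 := hpow n h1 h2
    have hc : c ∈ Subgroup.closure ({c, d, e} : Set G) := Subgroup.subset_closure (by simp)
    have hd : d ∈ Subgroup.closure ({c, d, e} : Set G) := Subgroup.subset_closure (by simp)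
    have he : e ∈ Subgroup.closure ({c, d, e} : Set G) := Subgroup.subset_closure (by simp)
    have hzm : z ∈ Subgroup.closure ({c, d, e} : Set G) := by
      rw [← h3]
      exact pow_mem (mul_mem he hd) n
    have haeq : a = (c * e) * z := by
      rw [hce', mul_assoc, hzz, mul_one]
    rw [haeq]
    exact mul_mem (mul_mem hc he) hzm
  · left
    have hc : c ∈ Subgroup.closure ({c, d} : Set G) := Subgroup.subset_closure (by simp)
    have hd : d ∈ Subgroup.closure ({c, d} : Set G) := Subgroup.subset_closure (by simp)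
    have hazaz : (a * z) ^ 2 = 1 := by
      rw [pow_two]
      calc a * z * (a * z) = a * (z * a) * z := by simp only [mul_assoc]
        _ = a * (a * z) * z := by rw [hza]
        _ = (a * a) * (z * z) := by simp only [mul_assoc]
        _ = 1 := by rw [haa, hzz, one_mul]
    have hp : (c * d) ^ (2 * n + 1) = a * z := by
      rw [hcd, hagz.mul_pow, pow_succ (a * z), pow_mul, hazaz, one_pow, one_mul, ← hn,
        pow_orderOf_eq_one, mul_one]
    have hazm : a * z ∈ Subgroup.closure ({c, d} : Set G) := by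
      rw [← hp]
      exact pow_mem (mul_mem hc hd) _
    have heeq : e = c * (a * z) := by
      rw [← hce', ← mul_assoc, hcc, one_mul]
    rw [heeq]
    exact mul_mem hc hazm

theorem hB_bl (b1 b3 b2 w1 w3 : F) : hB b1 b2 b3 w1 0 w3 =
    !![2 * (b1 * w1 ^ 2 + b3 * w3 ^ 2)⁻¹ * (w1 * (b1 * w1)) - 1, 0,
        2 * (b1 * w1 ^ 2 + b3 * w3 ^ 2)⁻¹ * (w1 * (b3 * w3));
       0, -1, 0;
       2 * (b1 * w1 ^ 2 + b3 * w3 ^ 2)⁻¹ * (w3 * (b1 * w1)), 0,
        2 * (b1 * w1 ^ 2 + b3 * w3 ^ 2)⁻¹ * (w3 * (b3 * w3)) - 1] := by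
  ext i j
  fin_cases i <;> fin_cases j <;> simp [hB]

theorem c2f_thm : C2FwStmt := by
  intro F _ _ hF a b c d e b1 b2 b3 w1 w3 hS hN hd hq hcs
  have hc : Is c true (dg b1 (-b2) (-b3)) := by
    rcases hN.hc with h | h
    · have h1 := h.1
      rw [hcs] at h1
      simp at h1
    · exact h
  have ha := hN.ha
  have he := hN.he
  have hdet : b1 * b2 * b3 = 1 := by rw [← dg_det]; exact ha.det
  have h1 : b1 ≠ 0 := by rintro rfl; simp at hdet
  have h2 : b2 ≠ 0 := by rintro rfl; simp at hdet
  have h3 : b3 ≠ 0 := by rintro rfl; simp at hdet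
  have hinv : dg b1 b2 b3 * dg b1⁻¹ b2⁻¹ b3⁻¹ = 1 := by
    rw [dg_mul, mul_inv_cancel₀ h1, mul_inv_cancel₀ h2, mul_inv_cancel₀ h3, dg_one]
  have hac : Is (a * c) false (dg 1 (-1) (-1)) := by
    have := ha.mul_outer' hc hinv
    rw [dg_transpose, dg_mul] at this
    have e1 : b1⁻¹ * b1 = 1 := inv_mul_cancel₀ h1
    have e2 : b2⁻¹ * -b2 = -1 := by rw [mul_neg, inv_mul_cancel₀ h2]
    have e3 : b3⁻¹ * -b3 = -1 := by rw [mul_neg, inv_mul_cancel₀ h3]
    rw [e1, e2, e3] at this
    exact this
  have hz : Is (a * c * e) false (dg (-1) 1 (-1)) := by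
    have := hac.mul_inner he
    rw [dg_mul] at this
    simpa using this
  have hd' := hd
  rw [hB_bl] at hd'
  have hg : ∃ p q r s : F, Is (e * d) false (Bl p q r s) := by
    have := he.mul_inner hd'
    refine ⟨-(2 * (b1 * w1 ^ 2 + b3 * w3 ^ 2)⁻¹ * (w1 * (b1 * w1)) - 1),
      -(2 * (b1 * w1 ^ 2 + b3 * w3 ^ 2)⁻¹ * (w1 * (b3 * w3))),
      2 * (b1 * w1 ^ 2 + b3 * w3 ^ 2)⁻¹ * (w3 * (b1 * w1)),
      2 * (b1 * w1 ^ 2 + b3 * w3 ^ 2)⁻¹ * (w3 * (b3 * w3)) - 1, ?_⟩
    have e1 : dg (-1) (-1) 1 * !![2 * (b1 * w1 ^ 2 + b3 * w3 ^ 2)⁻¹ * (w1 * (b1 * w1)) - 1, 0,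
        2 * (b1 * w1 ^ 2 + b3 * w3 ^ 2)⁻¹ * (w1 * (b3 * w3));
       0, -1, 0;
       2 * (b1 * w1 ^ 2 + b3 * w3 ^ 2)⁻¹ * (w3 * (b1 * w1)), 0,
        2 * (b1 * w1 ^ 2 + b3 * w3 ^ 2)⁻¹ * (w3 * (b3 * w3)) - 1] =
        Bl (-(2 * (b1 * w1 ^ 2 + b3 * w3 ^ 2)⁻¹ * (w1 * (b1 * w1)) - 1))
      (-(2 * (b1 * w1 ^ 2 + b3 * w3 ^ 2)⁻¹ * (w1 * (b3 * w3))))
      (2 * (b1 * w1 ^ 2 + b3 * w3 ^ 2)⁻¹ * (w3 * (b1 * w1)))
      (2 * (b1 * w1 ^ 2 + b3 * w3 ^ 2)⁻¹ * (w3 * (b3 * w3)) - 1) := by
      ext i j
      fin_cases i <;> fin_cases j <;>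
        simp [Bl, dg, Matrix.mul_apply, Fin.sum_univ_three]
    rwa [e1] at this
  have hzd : (a * c * e) * d = d * (a * c * e) := by
    rw [comm_inner_iff hz hd']
    ext i j
    fin_cases i <;> fin_cases j <;>
      simp [dg, Matrix.mul_apply, Fin.sum_univ_three]
  have key := group_part a c d e (a * c * e) rfl hS.ia.2 hS.ic.2 hS.id.2 hS.ie.2 hS.ac hS.ad
    hS.ae hS.ce hzd hS.de (by
      intro n hn1 hn2
      exact (bl_invol hF.1 (bl_pow hg n) hn1 hn2).ext hz)
  rcases key with h | h
  · apply hS.v1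
    exact Subgroup.closure_mono (by
      intro x hx
      simp only [Set.mem_insert_iff, Set.mem_singleton_iff] at hx ⊢
      tauto) h
  · apply hS.v2
    exact Subgroup.closure_mono (by
      intro x hx
      simp only [Set.mem_insert_iff, Set.mem_singleton_iff] at hx ⊢
      tauto) h

end Pool.Agent.H24.SCG2.PC2F
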