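import Pool.Agent.H24.SCG2.Stmts1

/-!
Module C2G of the project SCG.
-/

namespace Pool.Agent.H24.SCG2.PC2G

open Pool.SCG Matrix

theorem c2g_thm : C2GwStmt := by
  intro F _ _ hF a b c d e b1 b2 b3 w1 w3 hS hN hd hw hw3 hcs
  have hc : Is c true (dg b1 (-b2) (-b3)) := by
    rcases hN.hc with h | h
    · exfalso
      have := h.1.symm.trans hcs
      exact Bool.false_ne_true this
    · exact h
  have hdet : b1 * b2 * b3 = 1 := by
    have := hN.ha.det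
    rwa [dg_det] at this
  have hb1 : b1 ≠ 0 := by
    rintro rfl
    simp at hdet
  have hb2 : b2 ≠ 0 := by
    rintro rfl
    simp at hdet
  have hb3 : b3 ≠ 0 := by
    rintro rfl
    simp at hdet
  have hw1 : w1 ≠ 0 := by
    rintro rfl
    have : b3 * w3 ^ 2 = 0 := by rw [← hw]; ring
    exact (mul_ne_zero hb3 (pow_ne_zero 2 hw3)) this
  have h2 : (2 : F) ≠ 0 := hF.1
  have hs : b3 * w3 ^ 2 ≠ 0 := mul_ne_zero hb3 (pow_ne_zero 2 hw3)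
  have hB1 : hB b1 b2 b3 w1 0 w3 = !![0, 0, w1 * w3⁻¹; 0, -1, 0; w3 * w1⁻¹, 0, 0] := by
    have hq : 2 * (b1 * w1 ^ 2 + b2 * 0 ^ 2 + b3 * w3 ^ 2)⁻¹ = (b3 * w3 ^ 2)⁻¹ := by
      rw [hw]
      have : b3 * w3 ^ 2 + b2 * 0 ^ 2 + b3 * w3 ^ 2 = 2 * (b3 * w3 ^ 2) := by ring
      rw [this, mul_inv, ← mul_assoc, mul_inv_cancel₀ h2, one_mul]
    unfold hB
    rw [hq]
    have e1 : (b3 * w3 ^ 2)⁻¹ * (w1 * (b1 * w1)) = 1 := by
      rw [show w1 * (b1 * w1) = b1 * w1 ^ 2 by ring, hw, inv_mul_cancel₀ hs]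
    have e2 : (b3 * w3 ^ 2)⁻¹ * (w1 * (b3 * w3)) = w1 * w3⁻¹ := by
      field_simp
    have e3 : (b3 * w3 ^ 2)⁻¹ * (w3 * (b1 * w1)) = w3 * w1⁻¹ := by
      rw [← hw]
      field_simp
    have e4 : (b3 * w3 ^ 2)⁻¹ * (w3 * (b3 * w3)) = 1 := by
      rw [show w3 * (b3 * w3) = b3 * w3 ^ 2 by ring, inv_mul_cancel₀ hs]
    generalize (b3 * w3 ^ 2)⁻¹ = z at e1 e2 e3 e4
    ext i j
    fin_cases i <;> fin_cases j <;>
      simp [Matrix.smul_apply, smul_eq_mul, e1, e2, e3, e4]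
  rw [hB1] at hd
  have hCi : dg b1 (-b2) (-b3) * dg b1⁻¹ (-b2⁻¹) (-b3⁻¹) = 1 := by
    rw [dg_mul, mul_inv_cancel₀ hb1, neg_mul_neg, neg_mul_neg, mul_inv_cancel₀ hb2,
      mul_inv_cancel₀ hb3, dg_one]
  have h1 := hc.mul_outer' hd hCi
  have e1 : (dg b1⁻¹ (-b2⁻¹) (-b3⁻¹)).transpose *
      (dg b1 b2 b3 * !![0, 0, w1 * w3⁻¹; 0, -1, 0; w3 * w1⁻¹, 0, 0])
      = !![0, 0, w1 * w3⁻¹; 0, 1, 0; -(w3 * w1⁻¹), 0, 0] := by
    rw [dg_transpose, ← mul_assoc, dg_mul, inv_mul_cancel₀ hb1, neg_mul, inv_mul_cancel₀ hb2,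
      neg_mul, inv_mul_cancel₀ hb3]
    ext i j
    fin_cases i <;> fin_cases j <;> simp [dg, Matrix.mul_apply, Fin.sum_univ_three]
  rw [e1] at h1
  have h3 : Is (c * d * (c * d)) false (dg (-1) 1 (-1)) := by
    have h4 := h1.mul_inner h1
    have e2 : (!![0, 0, w1 * w3⁻¹; 0, 1, 0; -(w3 * w1⁻¹), 0, 0] : Matrix (Fin 3) (Fin 3) F) *
        !![0, 0, w1 * w3⁻¹; 0, 1, 0; -(w3 * w1⁻¹), 0, 0] = dg (-1) 1 (-1) := by
      have f1 : w1 * w3⁻¹ * (w3 * w1⁻¹) = 1 := by field_simp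
      have f2 : w3 * w1⁻¹ * (w1 * w3⁻¹) = 1 := by field_simp
      ext i j
      fin_cases i <;> fin_cases j <;>
        simp [dg, Matrix.mul_apply, Fin.sum_univ_three, f1, f2]
    rw [e2] at h4
    exact h4
  have h5 := (hc.mul_inner hN.he).mul_inner h3
  have e3 : dg b1 (-b2) (-b3) * dg (-1) (-1) 1 * dg (-1) 1 (-1) = dg b1 b2 b3 := by
    rw [dg_mul, dg_mul]
    ext i j
    fin_cases i <;> fin_cases j <;> simp [dg]
  rw [e3] at h5
  apply hS.v2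
  rw [hN.ha.ext h5]
  have mc : c ∈ Subgroup.closure ({b, c, d, e} : Set (Cor F)) :=
    Subgroup.subset_closure (by simp)
  have md : d ∈ Subgroup.closure ({b, c, d, e} : Set (Cor F)) :=
    Subgroup.subset_closure (by simp)
  have me : e ∈ Subgroup.closure ({b, c, d, e} : Set (Cor F)) :=
    Subgroup.subset_closure (by simp)
  exact mul_mem (mul_mem mc me) (mul_mem (mul_mem mc md) (mul_mem mc md))

end Pool.Agent.H24.SCG2.PC2G
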