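import Pool.Agent.H24.SCG2.Stmts1

/-!
Module `C2W` of the project SCG: `w1 = 0` is impossible in case 2.
-/

namespace Pool.Agent.H24.SCG2.PC2W

open Matrix Pool.SCG

theorem c2w_thm : Pool.SCG.C2WwStmt := by
  intro F _ _ hF a b c d e b1 b2 b3 w1 w2 w3 s n hd hq h0
  subst h0
  apply s.cd
  have hdet : b1 * b2 * b3 = 1 := by
    have := n.ha.det
    rwa [dg_det] at this
  have hq' : b2 * w2 ^ 2 + b3 * w3 ^ 2 ≠ 0 := by
    intro h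
    apply hq
    linear_combination h
  have hB0 : hB b1 b2 b3 0 w2 w3 = !![-1, 0, 0;
      0, 2 * (b2 * w2 ^ 2) * (b2 * w2 ^ 2 + b3 * w3 ^ 2)⁻¹ - 1,
        2 * (b3 * w2 * w3) * (b2 * w2 ^ 2 + b3 * w3 ^ 2)⁻¹;
      0, 2 * (b2 * w2 * w3) * (b2 * w2 ^ 2 + b3 * w3 ^ 2)⁻¹,
        2 * (b3 * w3 ^ 2) * (b2 * w2 ^ 2 + b3 * w3 ^ 2)⁻¹ - 1] := by
    have e1 : b1 * (0 : F) ^ 2 + b2 * w2 ^ 2 + b3 * w3 ^ 2 = b2 * w2 ^ 2 + b3 * w3 ^ 2 := by ring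
    unfold hB
    rw [e1]
    ext i j
    fin_cases i <;> fin_cases j <;> simp <;> ring
  rw [hB0] at hd
  rcases hd with hd | hd <;> rcases n.hc with hc | hc
  · rw [comm_inner_iff hc hd]
    ext i j
    fin_cases i <;> fin_cases j <;> simp [dg, Matrix.mul_apply, Fin.sum_univ_three]
  · rw [eq_comm, comm_inner_outer_iff hd hc]
    have hr : (b2 * w2 ^ 2 + b3 * w3 ^ 2) * (b2 * w2 ^ 2 + b3 * w3 ^ 2)⁻¹ = 1 :=
      mul_inv_cancel₀ hq'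
    clear hB0 hd
    generalize (b2 * w2 ^ 2 + b3 * w3 ^ 2)⁻¹ = r at hr ⊢
    ext i j
    fin_cases i <;> fin_cases j <;> simp [dg, Matrix.mul_apply, Fin.sum_univ_three]
    · linear_combination (-4 * b2 ^ 2 * w2 ^ 2 * r) * hr
    · linear_combination (-4 * b2 * b3 * w2 * w3 * r) * hr
    · linear_combination (-4 * b2 * b3 * w2 * w3 * r) * hr
    · linear_combination (-4 * b3 ^ 2 * w3 ^ 2 * r) * hr
  · rw [comm_inner_outer_iff hc hd]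
    ext i j
    fin_cases i <;> fin_cases j <;> simp [dg, Matrix.mul_apply, Fin.sum_univ_three]
  · have hb1 : b1 ≠ 0 := by
      rintro rfl
      simp at hdet
    have hb2 : b2 ≠ 0 := by
      rintro rfl
      simp at hdet
    have hb3 : b3 ≠ 0 := by
      rintro rfl
      simp at hdet
    have hadj : adjugate (dg b1 (-b2) (-b3)) = dg b1⁻¹ (-b2⁻¹) (-b3⁻¹) := by
      apply adj_unique hc.det
      rw [dg_mul, ← dg_one]
      congr 1 <;> field_simp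
    have hsym : (dg b1 b2 b3 * !![-1, 0, 0;
      0, 2 * (b2 * w2 ^ 2) * (b2 * w2 ^ 2 + b3 * w3 ^ 2)⁻¹ - 1,
        2 * (b3 * w2 * w3) * (b2 * w2 ^ 2 + b3 * w3 ^ 2)⁻¹;
      0, 2 * (b2 * w2 * w3) * (b2 * w2 ^ 2 + b3 * w3 ^ 2)⁻¹,
        2 * (b3 * w3 ^ 2) * (b2 * w2 ^ 2 + b3 * w3 ^ 2)⁻¹ - 1]).transpose = (dg b1 b2 b3 * !![-1, 0, 0;
      0, 2 * (b2 * w2 ^ 2) * (b2 * w2 ^ 2 + b3 * w3 ^ 2)⁻¹ - 1,
        2 * (b3 * w2 * w3) * (b2 * w2 ^ 2 + b3 * w3 ^ 2)⁻¹;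
      0, 2 * (b2 * w2 * w3) * (b2 * w2 ^ 2 + b3 * w3 ^ 2)⁻¹,
        2 * (b3 * w3 ^ 2) * (b2 * w2 ^ 2 + b3 * w3 ^ 2)⁻¹ - 1]) := by
      ext i j
      fin_cases i <;> fin_cases j <;> simp [dg, Matrix.mul_apply, Fin.sum_univ_three] <;> ring
    rw [comm_outer_iff hc hd (dg_transpose _ _ _) hsym, hadj]
    ext i j
    fin_cases i <;> fin_cases j <;> simp [dg, Matrix.mul_apply, Fin.sum_univ_three] <;>
      field_simp <;> ring

end Pool.Agent.H24.SCG2.PC2W
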