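import Pool.Agent.H24.SCG2.Stmts1

/-!
C2X: the case of swapped eigenlines, not monomial.
-/

namespace Pool.Agent.H24.SCG2.PC2X

open Matrix Pool.SCG

/-- if `A * P = P * B` with `det P = 1` then `adjugate P * A * P = B` -/
theorem adj_conj {F : Type*} [Field F] {P A B : Matrix (Fin 3) (Fin 3) F} (hP : P.det = 1)
    (h : A * P = P * B) : adjugate P * A * P = B := by
  rw [mul_assoc, h, ← mul_assoc, adj_mul_self hP, one_mul]

/-- the matrix of `h * (a * b) * h` -/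
theorem c2x_x0 {F : Type*} [Field F] (h2 : (2 : F) ≠ 0) {b1 b3 t w2 α k : F} (hb1 : b1 ≠ 0)
    (ht : t ≠ 0) (hw2 : w2 ≠ 0) (hdet : b1 * (b1 * t ^ 2) * b3 = 1) :
    dg 1 (-1) (-1) * (dg ((b1 * t ^ 2) * b3) (b1 * b3) (b1 * (b1 * t ^ 2)) *
      BM b1 (b1 * t ^ 2) b3 (t * w2) w2 α k k) * dg 1 (-1) (-1)
      = !![(α + k) * 2⁻¹, -((k - α) * t * 2⁻¹), 0; -((k - α) * t⁻¹ * 2⁻¹), (α + k) * 2⁻¹, 0;
          0, 0, k] := by
  have hom : b1 * (t * w2) ^ 2 + b1 * t ^ 2 * w2 ^ 2 = 2 * (b1 * t ^ 2 * w2 ^ 2) := by ring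
  have hBM : BM b1 (b1 * t ^ 2) b3 (t * w2) w2 α k k =
      !![b1 * ((α + k) * 2⁻¹), b1 * ((k - α) * t * 2⁻¹), 0;
        b1 * ((k - α) * t * 2⁻¹), b1 * t ^ 2 * ((α + k) * 2⁻¹), 0; 0, 0, k * b3] := by
    unfold BM
    rw [hom]
    ext i j
    fin_cases i <;> fin_cases j <;> simp <;> field_simp <;> ring
  rw [hBM]
  ext i j
  fin_cases i <;> fin_cases j <;> simp [dg, Matrix.mul_apply, Fin.sum_univ_three]
  · linear_combination (α + k) * 2⁻¹ * hdet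
  · linear_combination (k - α) * t * 2⁻¹ * hdet
  · field_simp
    linear_combination (k - α) * hdet
  · linear_combination (α + k) * 2⁻¹ * hdet
  · linear_combination k * hdet

/-- the matrix of `d` on the new basis -/
theorem c2x_d {F : Type*} [Field F] (h2 : (2 : F) ≠ 0) {b1 b3 t w2 w3 q c u z : F}
    (ht : t ≠ 0) (hw2 : w2 ≠ 0)
    (hq : b1 * (t * w2) ^ 2 + b1 * t ^ 2 * w2 ^ 2 + b3 * w3 ^ 2 = q) (hq0 : q ≠ 0)
    (hc : c * q = 2 * (b1 * t ^ 2 * w2 ^ 2) - b3 * w3 ^ 2) (hu : u * q = 2 * b3 * w3)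
    (hz : z * q = 4 * (b1 * t ^ 2 * w2 ^ 2) * w3) :
    hB b1 (b1 * t ^ 2) b3 (t * w2) w2 w3 *
      !![t * w2, 0, 2⁻¹ * w2⁻¹; w2, 0, -(2⁻¹ * t⁻¹ * w2⁻¹); 0, 1, 0]
      = !![t * w2, 0, 2⁻¹ * w2⁻¹; w2, 0, -(2⁻¹ * t⁻¹ * w2⁻¹); 0, 1, 0] *
        !![c, u, 0; z, -c, 0; 0, 0, -1] := by
  have hc' : c = (2 * (b1 * t ^ 2 * w2 ^ 2) - b3 * w3 ^ 2) * q⁻¹ :=
    (eq_mul_inv_iff_mul_eq₀ hq0).2 hc
  have hu' : u = 2 * b3 * w3 * q⁻¹ := (eq_mul_inv_iff_mul_eq₀ hq0).2 hu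
  have hz' : z = 4 * (b1 * t ^ 2 * w2 ^ 2) * w3 * q⁻¹ := (eq_mul_inv_iff_mul_eq₀ hq0).2 hz
  unfold hB
  rw [hq, hc', hu', hz']
  ext i j
  fin_cases i <;> fin_cases j <;>
    simp [Matrix.mul_apply, Fin.sum_univ_three] <;> field_simp <;> (try rw [← hq]) <;> ring

theorem c2x_det {F : Type*} [Field F] (h2 : (2 : F) ≠ 0) {t w2 : F} (ht : t ≠ 0) (hw2 : w2 ≠ 0) :
    (!![t * w2, 0, 2⁻¹ * w2⁻¹; w2, 0, -(2⁻¹ * t⁻¹ * w2⁻¹); 0, 1, 0] :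
      Matrix (Fin 3) (Fin 3) F).det = 1 := by
  rw [Matrix.det_fin_three]
  simp
  field_simp
  ring

/-- the matrix of `h * (a * b) * h` on the new basis -/
theorem c2x_x {F : Type*} [Field F] (h2 : (2 : F) ≠ 0) {t w2 α k : F}
    (ht : t ≠ 0) (hw2 : w2 ≠ 0) :
    (!![(α + k) * 2⁻¹, -((k - α) * t * 2⁻¹), 0; -((k - α) * t⁻¹ * 2⁻¹), (α + k) * 2⁻¹, 0;
        0, 0, k] : Matrix (Fin 3) (Fin 3) F) *
      !![t * w2, 0, 2⁻¹ * w2⁻¹; w2, 0, -(2⁻¹ * t⁻¹ * w2⁻¹); 0, 1, 0]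
      = !![t * w2, 0, 2⁻¹ * w2⁻¹; w2, 0, -(2⁻¹ * t⁻¹ * w2⁻¹); 0, 1, 0] * dg α k k := by
  ext i j
  fin_cases i <;> fin_cases j <;>
    simp [dg, Matrix.mul_apply, Fin.sum_univ_three] <;> field_simp <;> ring

/-- the homology with centre `f1` on the new basis -/
theorem c2x_f {F : Type*} [Field F] (h2 : (2 : F) ≠ 0) {t w2 : F}
    (ht : t ≠ 0) (hw2 : w2 ≠ 0) :
    (!![0, -t, 0; -t⁻¹, 0, 0; 0, 0, -1] : Matrix (Fin 3) (Fin 3) F) *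
      !![t * w2, 0, 2⁻¹ * w2⁻¹; w2, 0, -(2⁻¹ * t⁻¹ * w2⁻¹); 0, 1, 0]
      = !![t * w2, 0, 2⁻¹ * w2⁻¹; w2, 0, -(2⁻¹ * t⁻¹ * w2⁻¹); 0, 1, 0] * dg (-1) (-1) 1 := by
  ext i j
  fin_cases i <;> fin_cases j <;>
    simp [dg, Matrix.mul_apply, Fin.sum_univ_three] <;> field_simp <;> ring

theorem c2x_thm (hTQD : TQDStmt) : C2XwStmt := by
  intro F _ _ hF X a b h d e b1 b2 b3 w1 w2 w3 k haX hbX hhX hdX ha hb hh hd he
    hw1 hw2 hw3 hk hk2 h12 hom hq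
  have h2 : (2 : F) ≠ 0 := hF.1
  obtain ⟨t, ht⟩ : ∃ t, t = w1 / w2 := ⟨_, rfl⟩
  have ht0 : t ≠ 0 := by
    rw [ht]
    exact div_ne_zero hw1 hw2
  have hw1' : w1 = t * w2 := by
    rw [ht]; field_simp
  clear ht hw1
  subst hw1'
  have hb2' : b2 = b1 * t ^ 2 := by
    have : (b1 * t ^ 2 - b2) * w2 ^ 2 = 0 := by linear_combination h12
    rcases mul_eq_zero.1 this with h | h
    · linear_combination -h
    · exact absurd h (pow_ne_zero 2 hw2)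
  subst hb2'
  clear h12
  have hdet : b1 * (b1 * t ^ 2) * b3 = 1 := by
    have := ha.det
    rwa [dg_det] at this
  have hb1 : b1 ≠ 0 := by
    rintro rfl
    simp at hdet
  have hb3 : b3 ≠ 0 := by
    rintro rfl
    simp at hdet
  -- the inverse of the form
  have hinv : dg b1 (b1 * t ^ 2) b3 * dg ((b1 * t ^ 2) * b3) (b1 * b3) (b1 * (b1 * t ^ 2))
      = 1 := by
    rw [dg_mul, ← dg_one]
    congr 1
    · linear_combination hdet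
    · linear_combination hdet
    · linear_combination hdet
  -- `a * b`
  have hab := ha.mul_outer' hb hinv
  rw [dg_transpose] at hab
  -- the conjugate with `h`
  have hx0 := (hh.mul_inner hab).mul_inner hh
  rw [c2x_x0 h2 hb1 ht0 hw2 hdet] at hx0
  -- the base change
  let P : SL3 F := ⟨!![t * w2, 0, 2⁻¹ * w2⁻¹; w2, 0, -(2⁻¹ * t⁻¹ * w2⁻¹); 0, 1, 0],
    c2x_det h2 ht0 hw2⟩
  have hP : (P : Matrix (Fin 3) (Fin 3) F).det = 1 := P.2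
  have hx := hx0.cj_inner P
  rw [adj_conj hP (c2x_x h2 ht0 hw2)] at hx
  have hd' := hd.cj_inner P
  obtain ⟨q, hq'⟩ : ∃ q, q = b1 * (t * w2) ^ 2 + b1 * t ^ 2 * w2 ^ 2 + b3 * w3 ^ 2 := ⟨_, rfl⟩
  have hq0 : q ≠ 0 := by rw [hq']; exact hq
  obtain ⟨c, hc⟩ : ∃ c, c = (2 * (b1 * t ^ 2 * w2 ^ 2) - b3 * w3 ^ 2) * q⁻¹ := ⟨_, rfl⟩
  obtain ⟨u, hu⟩ : ∃ u, u = (2 * b3 * w3) * q⁻¹ := ⟨_, rfl⟩
  obtain ⟨z, hz⟩ : ∃ z, z = (4 * (b1 * t ^ 2 * w2 ^ 2) * w3) * q⁻¹ := ⟨_, rfl⟩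
  have hcq := (eq_mul_inv_iff_mul_eq₀ hq0).1 hc
  have huq := (eq_mul_inv_iff_mul_eq₀ hq0).1 hu
  have hzq := (eq_mul_inv_iff_mul_eq₀ hq0).1 hz
  rw [adj_conj hP (c2x_d h2 ht0 hw2 hq'.symm hq0 hcq huq hzq)] at hd'
  have hc0 : c ≠ 0 := by
    rw [hc]
    refine mul_ne_zero ?_ (inv_ne_zero hq0)
    intro h0
    apply hom
    linear_combination h0
  have hu0 : u ≠ 0 := by
    rw [hu]
    exact mul_ne_zero (mul_ne_zero (mul_ne_zero h2 hb3) hw3) (inv_ne_zero hq0)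
  have h4 : (4 : F) ≠ 0 := by
    have : (4 : F) = 2 * 2 := by norm_num
    rw [this]; exact mul_ne_zero h2 h2
  have hz0 : z ≠ 0 := by
    rw [hz]
    exact mul_ne_zero (mul_ne_zero (mul_ne_zero h4 (mul_ne_zero (mul_ne_zero hb1
      (pow_ne_zero 2 ht0)) (pow_ne_zero 2 hw2))) hw3) (inv_ne_zero hq0)
  have hcuz : c ^ 2 + u * z = 1 := by
    have : (c ^ 2 + u * z - 1) * q ^ 2 = 0 := by
      have e : (c ^ 2 + u * z - 1) * q ^ 2 = (c * q) ^ 2 + (u * q) * (z * q) - q ^ 2 := by ring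
      rw [e, hcq, huq, hzq, hq']
      ring
    rcases mul_eq_zero.1 this with h | h
    · linear_combination h
    · exact absurd h (pow_ne_zero 2 hq0)
  -- the second element
  have hy := (hd'.mul_inner hx).mul_inner hd'
  have hyM : (!![c, u, 0; z, -c, 0; 0, 0, -1] * dg (k⁻¹ ^ 2) k k *
      !![c, u, 0; z, -c, 0; 0, 0, -1] : Matrix (Fin 3) (Fin 3) F)
      = !![k⁻¹ ^ 2 * c ^ 2 + k * (u * z), k⁻¹ ^ 2 * c * u - k * u * c, 0;
          k⁻¹ ^ 2 * z * c - k * c * z, k⁻¹ ^ 2 * z * u + k * c ^ 2, 0; 0, 0, k] := by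
    ext i j
    fin_cases i <;> fin_cases j <;>
      simp [dg, Matrix.mul_apply, Fin.sum_univ_three] <;> ring
  rw [hyM] at hy
  have hxM : (dg (k⁻¹ ^ 2) k k : Matrix (Fin 3) (Fin 3) F)
      = !![k⁻¹ ^ 2, 0, 0; 0, k, 0; 0, 0, k] := rfl
  rw [hxM] at hx
  -- the element `h1`
  obtain ⟨h1, hh1⟩ := exists_is (F := F) false !![0, -t, 0; -t⁻¹, 0, 0; 0, 0, -1] (by
    rw [Matrix.det_fin_three]
    simp
    field_simp)
  have hh1' := hh1.cj_inner P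
  rw [adj_conj hP (c2x_f h2 ht0 hw2)] at hh1'
  have hk6 : (k⁻¹ ^ 2) ^ 2 ≠ k ^ 2 := by
    intro h6
    apply hk2
    have : (k⁻¹ ^ 2) ^ 2 * k ^ 4 = k ^ 2 * k ^ 4 := by rw [h6]
    have e : (k⁻¹ ^ 2) ^ 2 * k ^ 4 = 1 := by field_simp
    rw [e] at this
    linear_combination -this
  have hx0X : h * (a * b) * h ∈ X := X.mul_mem (X.mul_mem hhX (X.mul_mem haX hbX)) hhX
  have hxX : cj P (h * (a * b) * h) ∈ X.map (cjE P).toMonoidHom := mem_map_cj.2 hx0X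
  have hdX' : cj P d ∈ X.map (cjE P).toMonoidHom := mem_map_cj.2 hdX
  have hmem := hTQD F h2 (X.map (cjE P).toMonoidHom) _ _ _ _ _ _ _ _ _ _ _ _ _
    (k⁻¹ ^ 2) k (k⁻¹ ^ 2) k ![1, 0] ![0, 1] ![c, z] ![u, -c] hxX
    (Subgroup.mul_mem _ (Subgroup.mul_mem _ hdX' hxX) hdX') hx hy
    (by
      ext i
      fin_cases i <;> simp [Matrix.mulVec, dotProduct, Fin.sum_univ_two])
    (by
      ext i
      fin_cases i <;> simp [Matrix.mulVec, dotProduct, Fin.sum_univ_two])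
    (by
      ext i
      fin_cases i <;> simp [Matrix.mulVec, dotProduct, Fin.sum_univ_two]
      · linear_combination k⁻¹ ^ 2 * c * hcuz
      · linear_combination k⁻¹ ^ 2 * z * hcuz)
    (by
      ext i
      fin_cases i <;> simp [Matrix.mulVec, dotProduct, Fin.sum_univ_two]
      · linear_combination k * u * hcuz
      · linear_combination -k * c * hcuz)
    hk6 hk6 (by simpa using hz0) (by simpa using hc0) (by simpa using hc0)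
    (by simpa using hu0) hh1'
  have hh1X : h1 ∈ X := mem_map_cj.1 hmem
  -- the product
  have hprod := hh1.mul_inner ((hh.mul_inner hh1).mul_inner hh)
  have hpM : (!![0, -t, 0; -t⁻¹, 0, 0; 0, 0, -1] * (dg 1 (-1) (-1) *
      !![0, -t, 0; -t⁻¹, 0, 0; 0, 0, -1] * dg 1 (-1) (-1)) : Matrix (Fin 3) (Fin 3) F)
      = dg (-1) (-1) 1 := by
    ext i j
    fin_cases i <;> fin_cases j <;>
      simp [dg, Matrix.mul_apply, Fin.sum_univ_three, ht0]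
  rw [hpM] at hprod
  have he' : e = h1 * (h * h1 * h) := he.ext hprod
  rw [he']
  exact X.mul_mem hh1X (X.mul_mem (X.mul_mem hhX hh1X) hhX)

end Pool.Agent.H24.SCG2.PC2X
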