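import Pool.Agent.H24.SCG2.Stmts1

/-!
Module C3A of the project SCG: case 3, both middle generators inner.
-/

namespace Pool.Agent.H24.SCG2.PC3A

open Matrix Pool.SCG

section c3a

variable {F : Type*} [Field F]

theorem dot3 (v w : Fin 3 → F) : v ⬝ᵥ w = v 0 * w 0 + v 1 * w 1 + v 2 * w 2 := by
  simp [dotProduct, Fin.sum_univ_three]

theorem dg_mulVec (a b c : F) (v : Fin 3 → F) :
    dg a b c *ᵥ v = ![a * v 0, b * v 1, c * v 2] := by
  funext i
  fin_cases i <;> simp [dg, mulVec, dotProduct, Fin.sum_univ_three]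

end c3a

theorem c3a_thm (hINV : INVStmt) (hHCM : HCMStmt) (hHCO : HCOStmt) : C3AwStmt := by
  intro F _ _ hF a b c d e b1 b2 b3 hS hN hb hd
  have h2 : (2 : F) ≠ 0 := hF.1
  have hdet := hN.ha.det
  rw [dg_det] at hdet
  have hb3 : b3 ≠ 0 := by
    rintro rfl
    simp at hdet
  -- `b` and `d` are homologies
  obtain ⟨v, f, hbh⟩ : ∃ v φ : Fin 3 → F, IsHom b v φ := by
    rcases hINV F h2 b hS.ib.1 hS.ib.2 with h | h
    · exact h
    · rw [hb] at h; exact absurd h.1 (by simp)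
  obtain ⟨w, g, hdh⟩ : ∃ v φ : Fin 3 → F, IsHom d v φ := by
    rcases hINV F h2 d hS.id.1 hS.id.2 with h | h
    · exact h
    · rw [hd] at h; exact absurd h.1 (by simp)
  have hne : b ≠ d := by
    rintro rfl
    exact hS.ab hS.ad
  -- `b` commutes with `e`
  obtain ⟨⟨hq1, hf⟩, -⟩ :
      (v ⬝ᵥ (dg (-b1) (-b2) b3 *ᵥ v) ≠ 0 ∧
        f = (v ⬝ᵥ (dg (-b1) (-b2) b3 *ᵥ v))⁻¹ • (dg (-b1) (-b2) b3 *ᵥ v)) ∧ True := by
    exact ⟨(hHCO F h2 b e v f _ hbh hN.he (dg_transpose _ _ _)).1 hS.be, trivial⟩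
  -- `d` commutes with `a`
  obtain ⟨hq2, hg⟩ := (hHCO F h2 d a w g _ hdh hN.ha (dg_transpose _ _ _)).1 hS.ad.symm
  obtain ⟨h1, h1'⟩ := hHCM F h2 b d v f w g hbh hdh hS.bd hne
  rw [hf, smul_dotProduct] at h1
  rw [hg, smul_dotProduct] at h1'
  have e1 := (smul_eq_zero.1 h1).resolve_left (inv_ne_zero hq1)
  have e2 := (smul_eq_zero.1 h1').resolve_left (inv_ne_zero hq2)
  rw [dg_mulVec, dot3] at e1 e2
  simp at e1 e2
  have e3 : v 2 * w 2 = 0 := by
    have : (2 * b3) * (v 2 * w 2) = 0 := by linear_combination e1 + e2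
    exact (mul_eq_zero.1 this).resolve_left (mul_ne_zero h2 hb3)
  rcases mul_eq_zero.1 e3 with h0 | h0
  · -- `b` commutes with `a`
    apply hS.ab
    refine ((hHCO F h2 b a v f _ hbh hN.ha (dg_transpose _ _ _)).2
      (-(v ⬝ᵥ (dg (-b1) (-b2) b3 *ᵥ v))) ?_).symm
    rw [hf, smul_smul, neg_mul, mul_inv_cancel₀ hq1, dg_mulVec,
      dg_mulVec]
    funext i
    fin_cases i <;> simp [h0]
  · apply hS.de
    refine (hHCO F h2 d e w g _ hdh hN.he (dg_transpose _ _ _)).2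
      (-(w ⬝ᵥ (dg b1 b2 b3 *ᵥ w))) ?_
    rw [hg, smul_smul, neg_mul, mul_inv_cancel₀ hq2, dg_mulVec,
      dg_mulVec]
    funext i
    fin_cases i <;> simp [h0]

end Pool.Agent.H24.SCG2.PC3A
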