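import Pool.Agent.H24.SCG2.Stmts1

/-!
# SCG: normal forms of the triple `(a, c, e)`
-/

set_option autoImplicit false

namespace Pool.Agent.H24.SCG2.PNORM

open Matrix Pool.SCG

section field

variable {F : Type} [Field F]

theorem half {x : F} (h2 : (2 : F) ≠ 0) (h : -x = x) : x = 0 := by
  have h1 : (2 : F) * x = 0 := by
    have : x + x = 0 := by
      nth_rewrite 1 [← h]
      ring
    rw [two_mul]
    exact this
  exact (mul_eq_zero.1 h1).resolve_left h2

/-- an outer element commuting with the two standard homologies is diagonal -/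
theorem outer_diag (h2 : (2 : F) ≠ 0) {x z y : Cor F} (hx : Is x false (dg 1 (-1) (-1)))
    (hz : Is z false (dg (-1) (-1) 1)) (hy : y.s = true) (hxy : x * y = y * x)
    (hzy : z * y = y * z) : ∃ b1 b2 b3 : F, Is y true (dg b1 b2 b3) := by
  have hY : Is y true (y.m : M3 F) := ⟨hy, rfl⟩
  have h1 := (comm_inner_outer_iff hx hY).1 hxy
  have h3 := (comm_inner_outer_iff hz hY).1 hzy
  set B : M3 F := (y.m : M3 F) with hB
  have e01 : -(B 0 1) = B 0 1 := by
    have := congrFun (congrFun h1 0) 1
    simpa [dg, Matrix.mul_apply, Fin.sum_univ_three] using this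
  have e02 : -(B 0 2) = B 0 2 := by
    have := congrFun (congrFun h1 0) 2
    simpa [dg, Matrix.mul_apply, Fin.sum_univ_three] using this
  have e10 : -(B 1 0) = B 1 0 := by
    have := congrFun (congrFun h1 1) 0
    simpa [dg, Matrix.mul_apply, Fin.sum_univ_three] using this
  have e20 : -(B 2 0) = B 2 0 := by
    have := congrFun (congrFun h1 2) 0
    simpa [dg, Matrix.mul_apply, Fin.sum_univ_three] using this
  have e12 : -(B 1 2) = B 1 2 := by
    have := congrFun (congrFun h3 1) 2
    simpa [dg, Matrix.mul_apply, Fin.sum_univ_three] using this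
  have e21 : -(B 2 1) = B 2 1 := by
    have := congrFun (congrFun h3 2) 1
    simpa [dg, Matrix.mul_apply, Fin.sum_univ_three] using this
  refine ⟨B 0 0, B 1 1, B 2 2, hy, ?_⟩
  rw [← hB]
  ext i j
  fin_cases i <;> fin_cases j <;>
    simp [dg, half h2 e01, half h2 e02, half h2 e10, half h2 e20, half h2 e12, half h2 e21]

/-- an inner involution commuting with the two standard homologies -/
theorem inner_diag (h2 : (2 : F) ≠ 0) {x z y : Cor F} (hx : Is x false (dg 1 (-1) (-1)))
    (hz : Is z false (dg (-1) (-1) 1)) (hy : y.s = false) (hy1 : y ≠ 1) (hyy : y * y = 1)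
    (hxy : x * y = y * x) (hzy : z * y = y * z) : y = x ∨ y = z ∨ y = x * z := by
  have hY : Is y false (y.m : M3 F) := ⟨hy, rfl⟩
  have h1 := (comm_inner_iff hx hY).1 hxy
  have h3 := (comm_inner_iff hz hY).1 hzy
  have h4 := (inner_sq_iff hY).1 hyy
  have hdet := hY.det
  set B : M3 F := (y.m : M3 F) with hB
  have e01 : -(B 0 1) = B 0 1 := by
    have := congrFun (congrFun h1 0) 1
    simp [dg, Matrix.mul_apply, Fin.sum_univ_three] at this
    exact this.symm
  have e02 : -(B 0 2) = B 0 2 := by
    have := congrFun (congrFun h1 0) 2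
    simp [dg, Matrix.mul_apply, Fin.sum_univ_three] at this
    exact this.symm
  have e10 : -(B 1 0) = B 1 0 := by
    have := congrFun (congrFun h1 1) 0
    simp [dg, Matrix.mul_apply, Fin.sum_univ_three] at this
    exact this
  have e20 : -(B 2 0) = B 2 0 := by
    have := congrFun (congrFun h1 2) 0
    simp [dg, Matrix.mul_apply, Fin.sum_univ_three] at this
    exact this
  have e12 : -(B 1 2) = B 1 2 := by
    have := congrFun (congrFun h3 1) 2
    simp [dg, Matrix.mul_apply, Fin.sum_univ_three] at this
    exact this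
  have e21 : -(B 2 1) = B 2 1 := by
    have := congrFun (congrFun h3 2) 1
    simp [dg, Matrix.mul_apply, Fin.sum_univ_three] at this
    exact this.symm
  have hBd : B = dg (B 0 0) (B 1 1) (B 2 2) := by
    ext i j
    fin_cases i <;> fin_cases j <;>
      simp [dg, half h2 e01, half h2 e02, half h2 e10, half h2 e20, half h2 e12, half h2 e21]
  set p := B 0 0
  set q := B 1 1
  set r := B 2 2
  rw [hBd, dg_mul, ← dg_one] at h4
  obtain ⟨hp, hq, hr⟩ := dg_inj h4
  rw [hBd, dg_det] at hdet
  have sq : ∀ t : F, t * t = 1 → t = 1 ∨ t = -1 := fun t ht => mul_self_eq_one_iff.1 ht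
  have h11 : (-1 : F) ≠ 1 := by
    intro h
    apply h2
    have : (1 : F) + 1 = 0 := by
      nth_rewrite 1 [← h]
      ring
    rw [← one_add_one_eq_two]
    exact this
  have hYd : Is y false (dg p q r) := ⟨hy, by rw [← hB]; exact hBd⟩
  have hxz : Is (x * z) false (dg (-1) 1 (-1)) := by
    have h5 := hx.mul_inner hz
    rw [dg_mul] at h5
    simpa using h5
  rcases sq p hp with h5 | h5 <;> rcases sq q hq with h6 | h6 <;> rcases sq r hr with h7 | h7 <;>
    rw [h5, h6, h7] at hdet hYd
  · exfalso
    apply hy1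
    rw [dg_one] at hYd
    exact hYd.ext is_one
  · exfalso
    apply h11
    simpa using hdet
  · exfalso
    apply h11
    simpa using hdet
  · exact Or.inl (hYd.ext hx)
  · exfalso
    apply h11
    simpa using hdet
  · exact Or.inr (Or.inr (hYd.ext hxz))
  · exact Or.inr (Or.inl (hYd.ext hz))
  · exfalso
    apply h11
    simpa using hdet

/-- base change of commuting elements -/
theorem cj_comm (P : SL3 F) {x y : Cor F} (h : x * y = y * x) :
    cj P x * cj P y = cj P y * cj P x := by
  rw [← cj_mul, h, cj_mul]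

theorem cj_sign (P : SL3 F) (x : Cor F) : (cj P x).s = x.s := by
  simp [cj]

/-- the normal form in the second case, for both orders -/
theorem key2 (hSD : SDStmt) (h2 : (2 : F) ≠ 0) (X : Subgroup (Cor F)) {p c q : Cor F}
    (hp : p ≠ 1 ∧ p * p = 1) (hc : c ≠ 1 ∧ c * c = 1) (hq : q ≠ 1 ∧ q * q = 1)
    (hpc : p * c = c * p) (hpq : p * q = q * p) (hcq : c * q = q * c)
    (hpX : p ∈ X) (hcX : c ∈ X) (hqX : q ∉ X) (hpc' : p ≠ c) (hps : p.s = true)
    (hqs : q.s = false) :
    ∃ (P : SL3 F) (b1 b2 b3 : F), N2 (cj P p) (cj P c) (cj P q) b1 b2 b3 := by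
  cases hcs : c.s with
  | false =>
    have hne : c ≠ q := by
      intro h
      rw [h] at hcX
      exact hqX hcX
    obtain ⟨P, h1, h3⟩ := hSD F h2 c q hcs hqs hc.1 hq.1 hc.2 hq.2 hcq hne
    obtain ⟨b1, b2, b3, hb⟩ := outer_diag h2 h1 h3 (y := cj P p) (by rw [cj_sign]; exact hps)
      (cj_comm P hpc.symm) (cj_comm P hpq.symm)
    exact ⟨P, b1, b2, b3, hb, Or.inl h1, h3⟩
  | true =>
    have hns : (p * c).s = false := by
      rw [Cor.mul_s, hps, hcs]
      rfl
    have hn1 : p * c ≠ 1 := by
      intro h
      apply hpc'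
      calc p = p * (c * c) := by rw [hc.2, mul_one]
        _ = (p * c) * c := by rw [mul_assoc]
        _ = c := by rw [h, one_mul]
    have hnn : (p * c) * (p * c) = 1 := by
      calc (p * c) * (p * c) = (p * c) * (c * p) := by rw [hpc]
        _ = p * (c * c) * p := by simp only [mul_assoc]
        _ = 1 := by rw [hc.2, mul_one, hp.2]
    have hnq : (p * c) * q = q * (p * c) := by
      rw [mul_assoc, hcq, ← mul_assoc, hpq, mul_assoc]
    have hnp : (p * c) * p = p * (p * c) := by
      rw [mul_assoc, ← hpc]
    have hne : p * c ≠ q := by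
      intro h
      apply hqX
      rw [← h]
      exact X.mul_mem hpX hcX
    obtain ⟨P, h1, h3⟩ := hSD F h2 (p * c) q hns hqs hn1 hq.1 hnn hq.2 hnq hne
    obtain ⟨b1, b2, b3, hb⟩ := outer_diag h2 h1 h3 (y := cj P p) (by rw [cj_sign]; exact hps)
      (cj_comm P hnp) (cj_comm P hpq.symm)
    refine ⟨P, b1, b2, b3, hb, Or.inr ?_, h3⟩
    have h4 := hb.mul_inner h1
    rw [dg_mul, ← cj_mul, ← mul_assoc, hp.2, one_mul] at h4
    simpa using h4

end field

/-- NORM: normal forms. -/
theorem norm_thm (hSD : Pool.SCG.SDStmt) : Pool.SCG.NORMwStmt := by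
  intro F _ h2 a b c d e hS
  have haX : a ∈ Subgroup.closure ({a, b, c, d} : Set (Cor F)) :=
    Subgroup.subset_closure (by simp)
  have hcX : c ∈ Subgroup.closure ({a, b, c, d} : Set (Cor F)) :=
    Subgroup.subset_closure (by simp)
  have hcY : c ∈ Subgroup.closure ({b, c, d, e} : Set (Cor F)) :=
    Subgroup.subset_closure (by simp)
  have heY : e ∈ Subgroup.closure ({b, c, d, e} : Set (Cor F)) :=
    Subgroup.subset_closure (by simp)
  have hac : a ≠ c := by
    intro h
    apply hS.v2
    rw [h]
    exact hcY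
  have hec : e ≠ c := by
    intro h
    apply hS.v1
    rw [h]
    exact hcX
  have hae : a ≠ e := by
    intro h
    apply hS.v1
    rw [← h]
    exact haX
  cases has : a.s with
  | false =>
    cases hes : e.s with
    | false =>
      cases hcs : c.s with
      | false =>
        exfalso
        obtain ⟨P, h1, h3⟩ := hSD F h2 a c has hcs hS.ia.1 hS.ic.1 hS.ia.2 hS.ic.2 hS.ac hac
        have h4 := inner_diag h2 h1 h3 (y := cj P e) (by rw [cj_sign]; exact hes)
          (by
            intro h
            rw [← cj_one P] at h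
            exact hS.ie.1 (cj_injective P h))
          (by rw [← cj_mul, hS.ie.2, cj_one])
          (cj_comm P hS.ae) (cj_comm P hS.ce)
        rcases h4 with h4 | h4 | h4
        · exact hae (cj_injective P h4).symm
        · exact hec (cj_injective P h4)
        · rw [← cj_mul] at h4
          have h5 := cj_injective P h4
          apply hS.v1
          rw [h5]
          exact Subgroup.mul_mem _ haX hcX
      | true =>
        obtain ⟨P, h1, h3⟩ := hSD F h2 a e has hes hS.ia.1 hS.ie.1 hS.ia.2 hS.ie.2 hS.ae hae
        obtain ⟨b1, b2, b3, hb⟩ := outer_diag h2 h1 h3 (y := cj P c)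
          (by rw [cj_sign]; exact hcs) (cj_comm P hS.ac) (cj_comm P hS.ce.symm)
        exact ⟨P, b1, b2, b3, Or.inl ⟨h1, hb, h3⟩⟩
    | true =>
      obtain ⟨P, b1, b2, b3, h⟩ := key2 hSD h2 _ hS.ie hS.ic hS.ia hS.ce.symm hS.ae.symm
        hS.ac.symm heY hcY hS.v2 hec hes has
      exact ⟨P, b1, b2, b3, Or.inr (Or.inr (Or.inr h))⟩
  | true =>
    cases hes : e.s with
    | false =>
      obtain ⟨P, b1, b2, b3, h⟩ := key2 hSD h2 _ hS.ia hS.ic hS.ie hS.ac hS.ae hS.ce haX hcX
        hS.v1 hac has hes
      exact ⟨P, b1, b2, b3, Or.inr (Or.inl h)⟩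
    | true =>
      -- `k = a * e` is an inner involution
      have hks : (a * e).s = false := by
        rw [Cor.mul_s, has, hes]
        rfl
      have hk1 : a * e ≠ 1 := by
        intro h
        apply hae
        calc a = a * (e * e) := by rw [hS.ie.2, mul_one]
          _ = (a * e) * e := by rw [mul_assoc]
          _ = e := by rw [h, one_mul]
      have hkk : (a * e) * (a * e) = 1 := by
        calc (a * e) * (a * e) = (a * e) * (e * a) := by rw [hS.ae]
          _ = a * (e * e) * a := by simp only [mul_assoc]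
          _ = 1 := by rw [hS.ie.2, mul_one, hS.ia.2]
      have hak : a * (a * e) = (a * e) * a := by
        rw [mul_assoc, ← hS.ae]
      have hck : c * (a * e) = (a * e) * c := by
        rw [← mul_assoc, ← hS.ac, mul_assoc, hS.ce, mul_assoc]
      have haak : a * (a * e) = e := by
        rw [← mul_assoc, hS.ia.2, one_mul]
      cases hcs : c.s with
      | false =>
        have hne : c ≠ a * e := by
          intro h
          apply hS.v1
          rw [← haak, ← h]
          exact Subgroup.mul_mem _ haX hcX
        obtain ⟨P, h1, h3⟩ := hSD F h2 c (a * e) hcs hks hS.ic.1 hk1 hS.ic.2 hkk hck hne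
        obtain ⟨b1, b2, b3, hb⟩ := outer_diag h2 h1 h3 (y := cj P a)
          (by rw [cj_sign]; exact has) (cj_comm P hS.ac.symm) (cj_comm P hak.symm)
        refine ⟨P, b1, b2, b3, Or.inr (Or.inr (Or.inl ⟨hb, Or.inl h1, ?_⟩))⟩
        have h4 := hb.mul_inner h3
        rw [dg_mul, ← cj_mul, haak] at h4
        simpa using h4
      | true =>
        have hns : (a * c).s = false := by
          rw [Cor.mul_s, has, hcs]
          rfl
        have hn1 : a * c ≠ 1 := by
          intro h
          apply hac
          calc a = a * (c * c) := by rw [hS.ic.2, mul_one]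
            _ = (a * c) * c := by rw [mul_assoc]
            _ = c := by rw [h, one_mul]
        have hnn : (a * c) * (a * c) = 1 := by
          calc (a * c) * (a * c) = (a * c) * (c * a) := by rw [hS.ac]
            _ = a * (c * c) * a := by simp only [mul_assoc]
            _ = 1 := by rw [hS.ic.2, mul_one, hS.ia.2]
        have hna : (a * c) * a = a * (a * c) := by
          rw [mul_assoc, ← hS.ac]
        have hnk : (a * c) * (a * e) = (a * e) * (a * c) := by
          rw [mul_assoc, hck, ← mul_assoc, hak, mul_assoc]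
        have hne : a * c ≠ a * e := by
          intro h
          exact hec (mul_left_cancel h).symm
        obtain ⟨P, h1, h3⟩ := hSD F h2 (a * c) (a * e) hns hks hn1 hk1 hnn hkk hnk hne
        obtain ⟨b1, b2, b3, hb⟩ := outer_diag h2 h1 h3 (y := cj P a)
          (by rw [cj_sign]; exact has) (cj_comm P hna) (cj_comm P hak.symm)
        refine ⟨P, b1, b2, b3, Or.inr (Or.inr (Or.inl ⟨hb, Or.inr ?_, ?_⟩))⟩
        · have h4 := hb.mul_inner h1
          rw [dg_mul, ← cj_mul, ← mul_assoc, hS.ia.2, one_mul] at h4
          simpa using h4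
        · have h4 := hb.mul_inner h3
          rw [dg_mul, ← cj_mul, haak] at h4
          simpa using h4

end Pool.Agent.H24.SCG2.PNORM
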