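import Pool.Agent.H24.SCG2.Stmts2

/-!
Project SCG2: statements of the modules, part three (existence, `q = 1` modulo `6`).
-/

namespace Pool.SCG

open Matrix

/-- the automorphism `α` is given by the sign `s` and the matrix `A` (up to scalars):
`α g = A g A⁻¹` for `s = false`, `α g = (A g A⁻¹)⁻ᵀ` for `s = true` -/
def GIs {F : Type*} [Field F] (α : MulAut (SL3 F)) (s : Bool) (A : Matrix (Fin 3) (Fin 3) F) :
    Prop :=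
  ∃ P : GL (Fin 3) F, (P : Matrix (Fin 3) (Fin 3) F) = A ∧
    α = (if s then graphAut F else 1) * diagAut P

/-- the conjugation with the matrix `A` of determinant one is in `H` -/
def InA {F : Type*} [Field F] (H : Subgroup (MulAut (SL3 F))) (A : Matrix (Fin 3) (Fin 3) F) :
    Prop :=
  ∃ g : SL3 F, (g : Matrix (Fin 3) (Fin 3) F) = A ∧ MulAut.conj g ∈ H

/-- block matrices -/
def blk {F : Type*} [Field F] (e : F) (A : M2 F) : Matrix (Fin 3) (Fin 3) F :=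
  !![e, 0, 0; 0, A 0 0, A 0 1; 0, A 1 0, A 1 1]

/-- criterion for rank four -/
def ST4BStmt : Prop := ∀ (G : Type) [Group G] (a b c d : G), a ≠ 1 → b ≠ 1 → c ≠ 1 → d ≠ 1 →
  a * a = 1 → b * b = 1 → c * c = 1 → d * d = 1 →
  a * c = c * a → a * d = d * a → b * d = d * b → a ≠ b → b ≠ c → c ≠ d →
  (∀ k : ℕ, (b * c) ^ k * d = d * (b * c) ^ k → (b * c) ^ k = 1) →
  (∀ k : ℕ, (b * c) ^ k * a = a * (b * c) ^ k → (b * c) ^ k = 1) →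
  (∀ x ∈ Subgroup.closure ({a, b, c} : Set G), x ∈ Subgroup.closure ({b, c, d} : Set G) →
    x ∈ Subgroup.closure ({b, c} : Set G)) →
  IsStringC 4 ![a, b, c, d]

/-- conjugate groups -/
def CNJStmt : Prop := ∀ (A : Type) [Group A] (G : Subgroup A) (r : ℕ) (φ : A),
  HasStringC G r → HasStringC (G.map (MulAut.conj φ).toMonoidHom) r

/-- `iota` -/
def IOTZStmt : Prop := ∀ (F : Type) [Field F], (iota F).range = GraphExt F ∧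
  (∀ m : SL3 F, iota F (inn m) = MulAut.conj m) ∧ (∀ x : Cor F, iota F x = 1 → x ∈ Zs F) ∧
  (∀ z ∈ Zs F, iota F z = 1)

/-! ### `PSL(3,q).2` -/

def EXSZStmt : Prop := ∀ (F : Type) [Field F] (τ : F), (2 : F) ≠ 0 → (3 : F) ≠ 0 → τ ≠ 0 →
  τ ^ 2 ≠ 1 → ∀ a b c d : Cor F, Gens τ a b c d →
    (b * c) ^ 3 = 1 ∧
    (∀ k : ℕ, k = 1 ∨ k = 2 → ∀ z ∈ Zs F, (b * c) ^ k * d ≠ z * (d * (b * c) ^ k)) ∧
    (∀ k : ℕ, k = 1 ∨ k = 2 → ∀ z ∈ Zs F, (b * c) ^ k * a ≠ z * (a * (b * c) ^ k)) ∧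
    a ∉ Zs F ∧ b ∉ Zs F ∧ c ∉ Zs F ∧ d ∉ Zs F ∧ (∀ z ∈ Zs F, a ≠ z * b) ∧
    (∀ z ∈ Zs F, b ≠ z * c) ∧ (∀ z ∈ Zs F, c ≠ z * d)

/-- third intersection condition modulo scalars -/
def EXCZStmt : Prop := ∀ (F : Type) [Field F] (τ : F), (2 : F) ≠ 0 → (3 : F) ≠ 0 → τ ≠ 0 →
  τ ^ 2 ≠ 1 → ∀ a b c d : Cor F, Gens τ a b c d →
    (∀ x ∈ Subgroup.closure ({a, b, c} ∪ Zs F : Set (Cor F)),
      x ∈ Subgroup.closure ({b, c, d} ∪ Zs F : Set (Cor F)) →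
      x ∈ Subgroup.closure ({b, c} ∪ Zs F : Set (Cor F)))

/-- generation -/
def EXGZStmt : Prop := ∀ (F : Type) [Field F] [Finite F] (τ : F), (2 : F) ≠ 0 → (3 : F) ≠ 0 →
  τ ≠ 0 → (∃ l : F, l ≠ 0 ∧ l ^ 3 ≠ 1) → (∀ x : F, x ≠ 0 → ∃ n : ℕ, τ ^ n = x) →
  ∀ a b c d : Cor F, Gens τ a b c d → Subgroup.closure ({a, b, c, d} : Set (Cor F)) = ⊤

/-- existence in rank four, first group -/
def EXZ1Stmt : Prop := ∀ (F : Type) [Field F] [Finite F], OddP F → HasStringC (GraphExt F) 4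

/-! ### generation of the inner automorphisms -/

/-- elementary transvections in some basis -/
def TRVStmt : Prop := ∀ (F : Type) [Field F] (H : Subgroup (MulAut (SL3 F))) (P : GL (Fin 3) F),
  (∀ (i j : Fin 3), i ≠ j → ∀ t : F, InA H ((P : Matrix (Fin 3) (Fin 3) F) * transvection i j t *
    ((P⁻¹ : GL (Fin 3) F) : Matrix (Fin 3) (Fin 3) F))) → Inn F ≤ H

/-- two planes -/
def PLNStmt : Prop := ∀ (F : Type) [Field F] (H : Subgroup (MulAut (SL3 F)))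
  (ψ w ψ' w' η : Fin 3 → F),
  (∀ u φ : Fin 3 → F, ψ ⬝ᵥ u = 0 → φ ⬝ᵥ w = 0 → φ ⬝ᵥ u = 0 → InA H (1 + vecMulVec u φ)) →
  (∀ u φ : Fin 3 → F, ψ' ⬝ᵥ u = 0 → φ ⬝ᵥ w' = 0 → φ ⬝ᵥ u = 0 → InA H (1 + vecMulVec u φ)) →
  ψ ⬝ᵥ w ≠ 0 → ψ' ⬝ᵥ w' ≠ 0 → ψ ⬝ᵥ η = 0 → ψ' ⬝ᵥ η = 0 →
  (Matrix.of ![η, w, w']).det ≠ 0 → (∃ u : Fin 3 → F, ψ ⬝ᵥ u = 0 ∧ ψ' ⬝ᵥ u ≠ 0) → Inn F ≤ H

/-- the group generated is everything -/
def DGEStmt : Prop := ∀ (F : Type) [Field F] [Finite F], OddP F →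
  ∀ (H : Subgroup (MulAut (SL3 F))) (a b : MulAut (SL3 F)) (A B : Matrix (Fin 3) (Fin 3) F),
    Inn F ≤ H → H ≤ DiagExt F → a ∈ H → b ∈ H → GIs a true A → GIs b true B →
    (∀ y : F, y ^ 3 * A.det ≠ B.det) → H = DiagExt F

/-! ### `PGL(3,q).2`, `q ≠ 7` -/

/-- the conditions on the parameter -/
structure ParC {F : Type*} [Field F] (τ w : F) : Prop where
  hw : w ^ 2 + w + 1 = 0
  t0 : τ ≠ 0
  t1 : τ ^ 2 ≠ 1
  t2 : τ + 2 ≠ 0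
  t3 : 2 * τ + 1 ≠ 0
  t4 : τ ^ 2 + τ + 1 ≠ 0
  t5 : τ ^ 2 + 4 * τ + 1 ≠ 0
  nc : ∀ y : F, y ^ 3 * (2 * τ + 1) ≠ τ * (τ + 2)
  gen : ∀ F0 : Subfield F, τ ∈ F0 → F0 = ⊤

def CEXStmt : Prop := ∀ (F : Type) [Field F] [Finite F], OddP F → Nat.card F ≠ 7 →
  ∃ τ w : F, ParC τ w

/-- the generators -/
structure GensC {F : Type*} [Field F] (τ : F) (a b c d : MulAut (SL3 F)) : Prop where
  ha : GIs a true !![1, -(τ + 1), -(τ + 1); -(τ + 1), 1, -(τ + 1); -(τ + 1), -(τ + 1), 1]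
  hb : GIs b true !![0, 1, 0; 1, 0, 0; 0, 0, τ]
  hc : GIs c false !![1, 0, 0; 0, 0, 1; 0, 1, 0]
  hd : GIs d false !![0, 1, 0; 1, 0, 0; 0, 0, 1]

/-- existence and relations -/
def CGRStmt : Prop := ∀ (F : Type) [Field F] (τ w : F), (2 : F) ≠ 0 → (3 : F) ≠ 0 → ParC τ w →
  ∃ a b c d : MulAut (SL3 F), GensC τ a b c d ∧ a ∈ DiagExt F ∧ b ∈ DiagExt F ∧ c ∈ DiagExt F ∧
    d ∈ DiagExt F ∧ a ≠ 1 ∧ b ≠ 1 ∧ c ≠ 1 ∧ d ≠ 1 ∧
    a * a = 1 ∧ b * b = 1 ∧ c * c = 1 ∧ d * d = 1 ∧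
    a * c = c * a ∧ a * d = d * a ∧ b * d = d * b ∧ a ≠ b ∧ b ≠ c ∧ c ≠ d

/-- first and second intersection condition -/
def CGSStmt : Prop := ∀ (F : Type) [Field F] (τ w : F), (2 : F) ≠ 0 → (3 : F) ≠ 0 → ParC τ w →
  ∀ a b c d : MulAut (SL3 F), GensC τ a b c d →
    (∀ k : ℕ, (b * c) ^ k * d = d * (b * c) ^ k → (b * c) ^ k = 1) ∧
    (∀ k : ℕ, (b * c) ^ k * a = a * (b * c) ^ k → (b * c) ^ k = 1)

/-- third intersection condition -/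
def CGIStmt : Prop := ∀ (F : Type) [Field F] (τ w : F), (2 : F) ≠ 0 → (3 : F) ≠ 0 → ParC τ w →
  ∀ a b c d : MulAut (SL3 F), GensC τ a b c d →
    (∀ x ∈ Subgroup.closure ({a, b, c} : Set (MulAut (SL3 F))),
      x ∈ Subgroup.closure ({b, c, d} : Set (MulAut (SL3 F))) →
      x ∈ Subgroup.closure ({b, c} : Set (MulAut (SL3 F))))

/-- the group `⟨a, b, c⟩` in the Fourier basis contains `1 ⊕ SL(2,F)` -/
def CGAStmt : Prop := ∀ (F : Type) [Field F] [Finite F], OddP F → ∀ (τ w : F), ParC τ w →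
  ∀ a b c : MulAut (SL3 F),
    GIs a true (blk (-(τ * (τ + 2))) !![τ ^ 2 - 1, τ ^ 2 + τ + 1; τ ^ 2 + τ + 1, τ ^ 2 - 1]) →
    GIs b true (dg 1 w (w ^ 2)) → GIs c false (blk 1 !![0, 1; 1, 0]) →
    ∀ h : M2 F, h.det = 1 → InA (Subgroup.closure ({a, b, c} : Set (MulAut (SL3 F)))) (blk 1 h)

/-- generation -/
def CGGStmt : Prop := ∀ (F : Type) [Field F] [Finite F], OddP F → ∀ (τ w : F), ParC τ w →
  ∀ a b c d : MulAut (SL3 F), GensC τ a b c d →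
    Inn F ≤ Subgroup.closure ({a, b, c, d} : Set (MulAut (SL3 F)))

/-! ### `PGL(3,7).2` -/

/-- the generators for `q = 7` -/
structure Gens7 {F : Type*} [Field F] (a b c d : MulAut (SL3 F)) : Prop where
  ha : GIs a true (dg (-1) 2 2)
  hb : GIs b true (dg (-1) 2 4)
  hc : GIs c false (blk (-1) !![0, 1; 1, 0])
  hd : GIs d false !![-3, 4, 0; -2, 3, 0; 0, 0, -1]

def Q7RStmt : Prop := ∀ (F : Type) [Field F], (7 : F) = 0 →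
  ∃ a b c d : MulAut (SL3 F), Gens7 a b c d ∧ a ∈ DiagExt F ∧ b ∈ DiagExt F ∧ c ∈ DiagExt F ∧
    d ∈ DiagExt F ∧ a ≠ 1 ∧ b ≠ 1 ∧ c ≠ 1 ∧ d ≠ 1 ∧
    a * a = 1 ∧ b * b = 1 ∧ c * c = 1 ∧ d * d = 1 ∧
    a * c = c * a ∧ a * d = d * a ∧ b * d = d * b ∧ a ≠ b ∧ b ≠ c ∧ c ≠ d

def Q7SStmt : Prop := ∀ (F : Type) [Field F], (7 : F) = 0 →
  ∀ a b c d : MulAut (SL3 F), Gens7 a b c d →
    (∀ k : ℕ, (b * c) ^ k * d = d * (b * c) ^ k → (b * c) ^ k = 1) ∧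
    (∀ k : ℕ, (b * c) ^ k * a = a * (b * c) ^ k → (b * c) ^ k = 1)

def Q7IStmt : Prop := ∀ (F : Type) [Field F] [Finite F], Nat.card F = 7 →
  ∀ a b c d : MulAut (SL3 F), Gens7 a b c d →
    (∀ x ∈ Subgroup.closure ({a, b, c} : Set (MulAut (SL3 F))),
      x ∈ Subgroup.closure ({b, c, d} : Set (MulAut (SL3 F))) →
      x ∈ Subgroup.closure ({b, c} : Set (MulAut (SL3 F))))

def Q7GStmt : Prop := ∀ (F : Type) [Field F] [Finite F], Nat.card F = 7 →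
  ∀ a b c d : MulAut (SL3 F), Gens7 a b c d →
    Inn F ≤ Subgroup.closure ({b, c, d} : Set (MulAut (SL3 F)))

/-- existence in rank four, second group -/
def EXZ2Stmt : Prop := ∀ (F : Type) [Field F] [Finite F], OddP F → HasStringC (DiagExt F) 4

/-- the final theorem for `q = 1` modulo `6` -/
def FINZStmt : Prop := ∀ (F : Type) [Field F] [Finite F], OddP F →
  (∀ G : Subgroup (MulAut (SL3 F)), Inn F ≤ G → G ≤ AutG F →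
    ((∃ r, HasStringC G r) ↔ Adm G)) ∧
  (∀ G : Subgroup (MulAut (SL3 F)), Adm G → Inn F ≤ G ∧ G ≤ AutG F ∧
    IsGreatest {r : ℕ | HasStringC G r} 4)

end Pool.SCG
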