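import Pool.Agent.H24.SCG2.Defs

/-!
Project SCG2: statements of the modules, part one (ported statements and the upper bound).
-/

namespace Pool.SCG

open Matrix

/-- the matrix of the image of `A` in the orthogonal group of `Q0` -/
noncomputable def PhM {F : Type*} [Field F] (A : M2 F) : Matrix (Fin 3) (Fin 3) F :=
  (A 0 0 * A 1 1 - A 0 1 * A 1 0)⁻¹ •
    !![A 0 0 ^ 2, A 0 0 * A 0 1, A 0 1 ^ 2 * 2⁻¹;
      2 * A 0 0 * A 1 0, A 0 0 * A 1 1 + A 0 1 * A 1 0, A 0 1 * A 1 1;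
      2 * A 1 0 ^ 2, 2 * A 1 0 * A 1 1, A 1 1 ^ 2]

/-! ### ported statements -/

def BCJwStmt : Prop := ∀ (F : Type) [Field F] (P : SL3 F) (a b c d e : Cor F),
  Str5w a b c d e → Str5w (cj P a) (cj P b) (cj P c) (cj P d) (cj P e)

def REVwStmt : Prop := ∀ (F : Type) [Field F] (a b c d e : Cor F),
  Str5w a b c d e → Str5w e d c b a

def NORMwStmt : Prop := ∀ (F : Type) [Field F], (2 : F) ≠ 0 →
  ∀ a b c d e : Cor F, Str5w a b c d e → ∃ (P : SL3 F) (b1 b2 b3 : F),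
    N1 (cj P a) (cj P c) (cj P e) b1 b2 b3 ∨ N2 (cj P a) (cj P c) (cj P e) b1 b2 b3 ∨
    N3 (cj P a) (cj P c) (cj P e) b1 b2 b3 ∨ N2 (cj P e) (cj P c) (cj P a) b1 b2 b3

def C1AwStmt : Prop := ∀ (F : Type) [Field F] [Finite F], G2 F →
  ∀ (a b c d e : Cor F) (b1 b2 b3 : F), Str5w a b c d e → N1 a c e b1 b2 b3 →
    b.s = false → d.s = false → False

def C1BwStmt : Prop := ∀ (F : Type) [Field F] [Finite F], G2 F →
  ∀ (a b c d e : Cor F) (b1 b2 b3 : F), Str5w a b c d e → N1 a c e b1 b2 b3 →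
    (b.s = true ∨ d.s = true) → False

def C2HwStmt : Prop := ∀ (F : Type) [Field F] [Finite F], G2 F →
  ∀ (a b c d e : Cor F) (b1 b2 b3 : F), Str5w a b c d e → N2 a c e b1 b2 b3 →
    b.s = false → False

def C2BwStmt : Prop := ∀ (F : Type) [Field F] [Finite F], G2 F →
  ∀ (a b c d e : Cor F) (b1 b2 b3 : F), Str5w a b c d e → N2 a c e b1 b2 b3 →
    b.s = true → d.s = true →
    ∃ w1 w2 w3 : F, w3 ≠ 0 ∧ b1 * w1 ^ 2 + b2 * w2 ^ 2 + b3 * w3 ^ 2 ≠ 0 ∧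
      Is d true (dg b1 b2 b3 * hB b1 b2 b3 w1 w2 w3) ∧
      ((∃ κ : F, κ ≠ 0 ∧ (w1 ≠ 0 ∨ w2 ≠ 0) ∧ b1 * w1 ^ 2 + b2 * w2 ^ 2 = 0 ∧
          Is b true (BK b1 b2 b3 w1 w2 κ)) ∨
       (∃ k : F, k ^ 2 ≠ 1 ∧ k ≠ 0 ∧ b1 * w1 ^ 2 + b2 * w2 ^ 2 = b3 * w3 ^ 2 ∧
          Is b true (BM b1 b2 b3 w1 w2 1 k⁻¹ k)))

def C2EwStmt : Prop := ∀ (F : Type) [Field F] [Finite F], G2 F →
  ∀ (X : Subgroup (Cor F)) (a b h e : Cor F) (b1 b2 b3 w1 w2 κ : F),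
    a ∈ X → b ∈ X → h ∈ X → Is a true (dg b1 b2 b3) → Is b true (BK b1 b2 b3 w1 w2 κ) →
    Is h false (dg 1 (-1) (-1)) → Is e false (dg (-1) (-1) 1) →
    κ ≠ 0 → (w1 ≠ 0 ∨ w2 ≠ 0) → b1 * w1 ^ 2 + b2 * w2 ^ 2 = 0 → e ∈ X

def C2DwStmt : Prop := ∀ (F : Type) [Field F] [Finite F], G2 F →
  ∀ (X : Subgroup (Cor F)) (a b h e : Cor F) (b1 b2 b3 w1 w2 α β γ : F),
    a ∈ X → b ∈ X → h ∈ X → Is a true (dg b1 b2 b3) → Is b true (BM b1 b2 b3 w1 w2 α β γ) →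
    Is h false (dg 1 (-1) (-1)) → Is e false (dg (-1) (-1) 1) →
    b1 * w1 ^ 2 + b2 * w2 ^ 2 ≠ 0 → w1 ≠ 0 → w2 ≠ 0 → α ^ 2 ≠ β ^ 2 →
    b1 * w1 ^ 2 ≠ b2 * w2 ^ 2 → e ∈ X

def C2WwStmt : Prop := ∀ (F : Type) [Field F] [Finite F], G2 F →
  ∀ (a b c d e : Cor F) (b1 b2 b3 w1 w2 w3 : F), Str5w a b c d e → N2 a c e b1 b2 b3 →
    (Is d false (hB b1 b2 b3 w1 w2 w3) ∨ Is d true (dg b1 b2 b3 * hB b1 b2 b3 w1 w2 w3)) →
    b1 * w1 ^ 2 + b2 * w2 ^ 2 + b3 * w3 ^ 2 ≠ 0 → w1 ≠ 0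

def C2FwStmt : Prop := ∀ (F : Type) [Field F] [Finite F], G2 F →
  ∀ (a b c d e : Cor F) (b1 b2 b3 w1 w3 : F), Str5w a b c d e → N2 a c e b1 b2 b3 →
    Is d false (hB b1 b2 b3 w1 0 w3) → b1 * w1 ^ 2 + b3 * w3 ^ 2 ≠ 0 →
    c.s = true → False

def C2GwStmt : Prop := ∀ (F : Type) [Field F] [Finite F], G2 F →
  ∀ (a b c d e : Cor F) (b1 b2 b3 w1 w3 : F), Str5w a b c d e → N2 a c e b1 b2 b3 →
    Is d true (dg b1 b2 b3 * hB b1 b2 b3 w1 0 w3) → b1 * w1 ^ 2 = b3 * w3 ^ 2 → w3 ≠ 0 →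
    c.s = true → False

def C2CwStmt : Prop := ∀ (F : Type) [Field F] [Finite F], G2 F →
  ∀ (a b c d e : Cor F) (b1 b2 b3 w1 α β γ : F), Str5w a b c d e → N2 a c e b1 b2 b3 →
    Is b true (BM b1 b2 b3 w1 0 α β γ) → b1 * w1 ^ 2 ≠ 0 → c.s = true

def C3AwStmt : Prop := ∀ (F : Type) [Field F] [Finite F], G2 F →
  ∀ (a b c d e : Cor F) (b1 b2 b3 : F), Str5w a b c d e → N3 a c e b1 b2 b3 →
    b.s = false → d.s = false → False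

def C3DwStmt : Prop := ∀ (F : Type) [Field F] [Finite F], G2 F →
  ∀ (a b c d e : Cor F) (b1 b2 b3 : F), Str5w a b c d e → N3 a c e b1 b2 b3 →
    b.s = true → d.s = true → False

def C3PwStmt : Prop := ∀ (F : Type) [Field F] [Finite F], G2 F →
  ∀ (a b c d e : Cor F) (b1 b2 b3 : F), Str5w a b c d e → N3 a c e b1 b2 b3 →
    b.s = false → d.s = true → ∃ (P : SL3 F) (ρ σ x : F), ρ ≠ 0 ∧ σ ≠ 0 ∧ 2 * ρ + x ^ 2 ≠ 0 ∧
      Is (cj P a) true (Q0 F) ∧ Is (cj P b) false (dg 1 (-1) (-1)) ∧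
      Is (cj P d) true (dg σ 1 σ⁻¹) ∧ Is (cj P e) true (dg ρ 1 ρ⁻¹) ∧
      (Is (cj P c) false (hQ ρ x) ∨ Is (cj P c) true ((hQ ρ x).transpose * Q0 F))

/-- parametrisation for `d.s = false`, without a condition on cube roots of unity -/
def C2AwStmt : Prop := ∀ (F : Type) [Field F] [Finite F], G2 F →
  ∀ (a b c d e : Cor F) (b1 b2 b3 : F), Str5w a b c d e → N2 a c e b1 b2 b3 →
    b.s = true → d.s = false →
    ∃ w1 w2 w3 : F, w3 ≠ 0 ∧ b1 * w1 ^ 2 + b2 * w2 ^ 2 + b3 * w3 ^ 2 ≠ 0 ∧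
      Is d false (hB b1 b2 b3 w1 w2 w3) ∧
      ((∃ κ k : F, k ^ 3 = 1 ∧ (w1 ≠ 0 ∨ w2 ≠ 0) ∧ b1 * w1 ^ 2 + b2 * w2 ^ 2 = 0 ∧
          Is b true (k • BK b1 b2 b3 w1 w2 κ)) ∨
       (∃ k : F, k ^ 2 ≠ 1 ∧ k ≠ 0 ∧ b1 * w1 ^ 2 + b2 * w2 ^ 2 ≠ 0 ∧
          Is b true (BM b1 b2 b3 w1 w2 (k⁻¹ ^ 2) k k)))

def C2XwStmt : Prop := ∀ (F : Type) [Field F] [Finite F], G2 F →
  ∀ (X : Subgroup (Cor F)) (a b h d e : Cor F) (b1 b2 b3 w1 w2 w3 k : F),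
    a ∈ X → b ∈ X → h ∈ X → d ∈ X → Is a true (dg b1 b2 b3) →
    Is b true (BM b1 b2 b3 w1 w2 (k⁻¹ ^ 2) k k) → Is h false (dg 1 (-1) (-1)) →
    Is d false (hB b1 b2 b3 w1 w2 w3) → Is e false (dg (-1) (-1) 1) →
    w1 ≠ 0 → w2 ≠ 0 → w3 ≠ 0 → k ≠ 0 → k ^ 6 ≠ 1 → b1 * w1 ^ 2 = b2 * w2 ^ 2 →
    b1 * w1 ^ 2 + b2 * w2 ^ 2 ≠ b3 * w3 ^ 2 →
    b1 * w1 ^ 2 + b2 * w2 ^ 2 + b3 * w3 ^ 2 ≠ 0 → e ∈ X

/-- the monomial base change -/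
def C2SwStmt : Prop := ∀ (F : Type) [Field F] [Finite F], G2 F →
  ∀ (b1 b2 b3 w1 w2 w3 : F), b1 * b2 * b3 = 1 →
    w1 ≠ 0 → w2 ≠ 0 → w3 ≠ 0 → b1 * w1 ^ 2 = b2 * w2 ^ 2 →
    b1 * w1 ^ 2 + b2 * w2 ^ 2 = b3 * w3 ^ 2 → ∃ P : SL3 F,
      (∀ x : Cor F, Is x true (dg b1 b2 b3) → Is (cj P x) true (dg 1 1 1)) ∧
      (∀ (x : Cor F) (α β γ : F), Is x true (BM b1 b2 b3 w1 w2 α β γ) →
        Is (cj P x) true (dg α β γ)) ∧
      (∀ x : Cor F, Is x false (dg 1 (-1) (-1)) → Is (cj P x) false (Sm F)) ∧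
      (∀ x : Cor F, Is x true (dg b1 (-b2) (-b3)) → Is (cj P x) true (Sm F)) ∧
      (∀ x : Cor F, Is x false (hB b1 b2 b3 w1 w2 w3) → Is (cj P x) false (Jm F)) ∧
      (∀ x : Cor F, Is x true (dg b1 b2 b3 * hB b1 b2 b3 w1 w2 w3) → Is (cj P x) true (Jm F)) ∧
      (∀ x : Cor F, Is x false (dg (-1) (-1) 1) → Is (cj P x) false (dg (-1) (-1) 1))

/-! ### base change and reversal modulo scalars -/

def BCZStmt : Prop := ∀ (F : Type) [Field F] (P : SL3 F) (a b c d e : Cor F),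
  StrZ a b c d e → StrZ (cj P a) (cj P b) (cj P c) (cj P d) (cj P e)

def RVZStmt : Prop := ∀ (F : Type) [Field F] (a b c d e : Cor F),
  StrZ a b c d e → StrZ e d c b a

/-- `T5` does not depend on the base change -/
def T5CStmt : Prop := ∀ (F : Type) [Field F] (P : SL3 F) (a b c d e : Cor F),
  T5 (cj P a) (cj P b) (cj P c) (cj P d) (cj P e) → T5 a b c d e

/-- the exact form -/
def SWZStmt : Prop := ∀ (F : Type) [Field F] (a b c d e : Cor F),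
  StrZ a b c d e → b * d = d * b → Str5w a b c d e

/-- rescaling of `b` when `d` and `e` are inner -/
def RSBStmt : Prop := ∀ (F : Type) [Field F] (a b c d e w : Cor F),
  StrZ a b c d e → b.s = true → d.s = false → e.s = false → w ∈ Zs F → StrZ a (b * w) c d e

/-! ### the monomial case -/

/-- `c` outer, `d` inner -/
def MA1Stmt : Prop := ∀ (F : Type) [Field F] (X : Subgroup (Cor F)) (a b c d : Cor F) (k : F),
  b ∈ X → c ∈ X → d ∈ X → k ≠ 0 →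
    Is a true (dg 1 1 1) → Is b true (dg (k⁻¹ ^ 2) k k) → Is c true (Sm F) →
    Is d false (Jm F) → a ∈ X

/-- `c` inner, `d` outer -/
def MB1Stmt : Prop := ∀ (F : Type) [Field F] (X : Subgroup (Cor F)) (a b c d : Cor F) (k : F),
  b ∈ X → c ∈ X → d ∈ X → k ≠ 0 →
    Is a true (dg 1 1 1) → Is b true (dg 1 k⁻¹ k) → Is c false (Sm F) →
    Is d true (Jm F) → a ∈ X

/-- `c`, `d` inner: the monomial string -/
def TAStmt : Prop := ∀ (F : Type) [Field F] (a b c d e : Cor F) (k : F), k ≠ 0 →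
    Is a true (dg 1 1 1) → Is b true (dg (k⁻¹ ^ 2) k k) → Is c false (Sm F) →
    Is d false (Jm F) → Is e false (dg (-1) (-1) 1) → T5 a b c d e

/-- `c`, `d` outer: the monomial string -/
def TBStmt : Prop := ∀ (F : Type) [Field F] (a b c d e : Cor F) (k : F), k ≠ 0 →
    Is a true (dg 1 1 1) → Is b true (dg 1 k⁻¹ k) → Is c true (Sm F) →
    Is d true (Jm F) → Is e false (dg (-1) (-1) 1) →
    (∀ z ∈ Zs F, b * c ≠ z * (c * b)) → T5 a b c d e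

/-- assembly of case 2 -/
def C2ZStmt : Prop := ∀ (F : Type) [Field F] [Finite F], OddP F →
  ∀ (a b c d e : Cor F) (b1 b2 b3 : F), StrZ a b c d e → N2 a c e b1 b2 b3 → T5 a b c d e

/-! ### finite groups acting on a projective line -/

/-- Lemma P for elements of order three -/
def ZPP3Stmt : Prop := ∀ (K Ω : Type) [Group K] [Finite K] [MulAction K Ω], Zas K Ω →
  ∀ (N : Subgroup K), (∀ x y : K, x ∉ N → y ∉ N → x * y ∈ N) →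
  ∀ (y y' : Ω) (x1 t g0 : K), y ≠ y' → x1 ∉ N → x1 * x1 = 1 → x1 • y = y' →
    t • y = y → t • y' = y' → orderOf t = 3 →
    g0 • y ≠ y → g0 • y ≠ y' → (∀ g : K, g • y = y → g * g = 1 → g = 1) →
    ∀ g : K, orderOf g ≤ 4

/-- no parabolic elements, no common fixed point, no invariant pair: all orders are at most
five -/
def DK0Stmt : Prop := ∀ (K Ω : Type) [Group K] [Finite K] [MulAction K Ω], Zas K Ω →
  (∀ (g : K) (x : Ω), ¬ Par g x) → (∀ x : Ω, ∃ g : K, g • x ≠ x) →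
  (∀ x y : Ω, x ≠ y → ∃ g : K, (g • x ≠ x ∧ g • x ≠ y) ∨ (g • y ≠ x ∧ g • y ≠ y)) →
  ∀ g : K, orderOf g ≤ 5

/-- the structure of the group in the presence of parabolic elements -/
def DK1Stmt : Prop := ∀ (K Ω : Type) [Group K] [Finite K] [MulAction K Ω], Zas K Ω →
  (∀ x : Ω, ∃ g : K, g • x ≠ x) →
  ∀ (x0 : Ω) (u : K), u ≠ 1 → Par u x0 → 5 ≤ orderOf u →
  (∀ y z : Ω, (∃ g : K, g • x0 = y) → y ≠ x0 → (∃ g : K, g • x0 = z) → z ≠ x0 →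
    ∃ v : K, (v = 1 ∨ Par v x0) ∧ v • y = z) ∧
  (∀ w : Ω, (¬ ∃ g : K, g • x0 = w) →
    Nat.card (MulAction.stabilizer K w) ∣ Nat.card {v : K // v = 1 ∨ Par v x0} + 1)

/-- the concrete form of Lemma P for elements of order three -/
def LP3Stmt : Prop := ∀ (F : Type) [Field F] [Finite F], (2 : F) ≠ 0 →
  ∀ (X N : Subgroup (GL (Fin 2) F)), N ≤ X → (∀ x ∈ X, ∀ y ∈ X, x ∉ N → y ∉ N → x * y ∈ N) →
  (∀ (g : GL (Fin 2) F) (c : F), (g : M2 F) = !![c, 0; 0, c] → g ∈ N) →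
  ∀ (x1 t g0 : GL (Fin 2) F) (p r τ : F), x1 ∈ X → x1 ∉ N → t ∈ X → g0 ∈ X →
    (x1 : M2 F) = !![0, p; r, 0] →
    (t : M2 F) = !![τ, 0; 0, 1] → orderOf τ = 3 →
    (g0 : M2 F) 0 0 ≠ 0 → (g0 : M2 F) 1 0 ≠ 0 →
    (∃ g ∈ X, (g : M2 F) = !![1, 0; 0, -1]) ∨
    (∀ g ∈ X, ∃ (k : ℕ) (c : F), 1 ≤ k ∧ k ≤ 4 ∧
      ((g ^ k : GL (Fin 2) F) : M2 F) = !![c, 0; 0, c])

/-- existence of a parabolic element -/
def DPARStmt : Prop := ∀ (F : Type) [Field F] [Finite F], (2 : F) ≠ 0 →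
  ∀ (X : Subgroup (GL (Fin 2) F)) (h g : GL (Fin 2) F), h ∈ X → g ∈ X →
    ((h : M2 F) * (g : M2 F) - (g : M2 F) * (h : M2 F)).det ≠ 0 → (h : M2 F).trace ≠ 0 →
    (g : M2 F) * (h : M2 F) ≠ adjugate (h : M2 F) * (g : M2 F) →
    (∀ (k : ℕ) (c : F), 1 ≤ k → k ≤ 5 →
      ((h ^ k : GL (Fin 2) F) : M2 F) ≠ !![c, 0; 0, c]) →
    ∃ u ∈ X, (u : M2 F).trace ^ 2 = 4 * (u : M2 F).det ∧ ∀ c : F, (u : M2 F) ≠ !![c, 0; 0, c]

/-- over the prime field a parabolic element and another one generate `SL(2,p)` -/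
def SL2PStmt : Prop := ∀ (p : ℕ) [Fact p.Prime], p ≠ 2 →
  ∀ (X : Subgroup (GL (Fin 2) (ZMod p))) (u h g : GL (Fin 2) (ZMod p)), u ∈ X → h ∈ X → g ∈ X →
    (u : M2 (ZMod p)).trace ^ 2 = 4 * (u : M2 (ZMod p)).det →
    (∀ c : ZMod p, (u : M2 (ZMod p)) ≠ !![c, 0; 0, c]) →
    ((h : M2 (ZMod p)) * (g : M2 (ZMod p)) - (g : M2 (ZMod p)) * (h : M2 (ZMod p))).det ≠ 0 →
    ∀ A : M2 (ZMod p), A.det = 1 → ∃ k ∈ X, ∃ c : ZMod p, c ≠ 0 ∧ (k : M2 (ZMod p)) = c • A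

/-- the structure of a subgroup which contains an element of order six with rational fixed
points, an element interchanging them and an element moving them elsewhere -/
def BIGStmt : Prop := ∀ (p : ℕ) [Fact p.Prime] (F : Type) [Field F] [Finite F] [CharP F p],
  p % 6 = 1 → ∀ (X : Subgroup (GL (Fin 2) F)) (h x1 g0 : GL (Fin 2) F) (l β : F),
    h ∈ X → x1 ∈ X → g0 ∈ X → l ^ 2 + l + 1 = 0 → (h : M2 F) = !![-l, 0; 0, 1] →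
    (x1 : M2 F) = !![0, β; 1, 0] → (g0 : M2 F) 0 0 ≠ 0 → (g0 : M2 F) 1 0 ≠ 0 →
    ∃ U : AddSubgroup F, U ≠ ⊥ ∧
      (∀ u ∈ U, ∃ g ∈ X, ∃ c : F, c ≠ 0 ∧ (g : M2 F) = c • !![1, u; 0, 1]) ∧
      (∀ g ∈ X, ∀ u ∈ U, (g : M2 F) 1 0 * u + (g : M2 F) 1 1 ≠ 0 →
        ((g : M2 F) 0 0 * u + (g : M2 F) 0 1) / ((g : M2 F) 1 0 * u + (g : M2 F) 1 1) ∈ U) ∧
      (∀ g ∈ X, (g : M2 F) 1 0 ≠ 0 → (g : M2 F) 0 0 / (g : M2 F) 1 0 ∈ U)

/-- Hua's identity: the structure of `U` -/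
def HUAStmt : Prop := ∀ (F : Type) [Field F] [Finite F], (2 : F) ≠ 0 →
  ∀ (U : AddSubgroup F) (β : F), β ≠ 0 → U ≠ ⊥ → (∀ u ∈ U, u ≠ 0 → β / u ∈ U) →
    ∃ (F0 : Subfield F) (u0 : F), u0 ≠ 0 ∧ (∀ x : F, x ∈ U ↔ x / u0 ∈ F0) ∧ u0 ^ 2 / β ∈ F0

/-- odd degree: a subfield is closed under square roots -/
def SQOStmt : Prop := ∀ (F : Type) [Field F] [Finite F], (2 : F) ≠ 0 → ¬ IsSquare (Nat.card F) →
  ∀ (F0 : Subfield F) (x : F), x ^ 2 ∈ F0 → x ∈ F0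

/-- the invariants lie in the subfield -/
def TRFStmt : Prop := ∀ (F : Type) [Field F] (F0 : Subfield F) (u0 : F), u0 ≠ 0 →
  ∀ (X : Subgroup (GL (Fin 2) F)),
    (∀ g ∈ X, ∀ u : F, u / u0 ∈ F0 → (g : M2 F) 1 0 * u + (g : M2 F) 1 1 ≠ 0 →
      (((g : M2 F) 0 0 * u + (g : M2 F) 0 1) / ((g : M2 F) 1 0 * u + (g : M2 F) 1 1)) / u0 ∈ F0) →
    (∀ g ∈ X, (g : M2 F) 1 0 ≠ 0 → ((g : M2 F) 0 0 / (g : M2 F) 1 0) / u0 ∈ F0) →
    ∀ g ∈ X, (g : M2 F).trace ^ 2 / (g : M2 F).det ∈ F0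

/-- arithmetic of `OddP` -/
def PARStmt : Prop := ∀ (F : Type) [Field F] [Finite F], OddP F →
  ∃ p : ℕ, p.Prime ∧ CharP F p ∧ p % 6 = 1 ∧ (2 : F) ≠ 0 ∧ (3 : F) ≠ 0 ∧ (5 : F) ≠ 0 ∧
    (11 : F) ≠ 0 ∧ ∃ w : ZMod p, w ^ 2 + w + 1 = 0

/-! ### generation from unipotent elements -/

def W1Stmt : Prop := ∀ (F : Type) [Field F] [Finite F], (2 : F) ≠ 0 →
  ∀ (H : Subgroup (Cor F)), (∀ n : ℤ, InM H (Uc (n : F))) → (∀ n : ℤ, InM H (Lc (n : F))) →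
    (∀ n : ℤ, InM H (Cm F * Uc (n : F) * (Cm F).transpose)) →
    (∀ n : ℤ, InM H (Cm F * Lc (n : F) * (Cm F).transpose)) → InM H (Cm F)

def W2Stmt : Prop := ∀ (F : Type) [Field F] [Finite F], (2 : F) ≠ 0 →
  ∀ (H : Subgroup (Cor F)), (∀ n : ℤ, InM H (Uc (n : F))) → (∀ n : ℤ, InM H (Lc (n : F))) →
    InM H (Jm F) → InM H (Q0 F)

/-- the group generated by three elements of the group of `Q0` over the prime field and by a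
polarity -/
def ELMStmt : Prop := ∀ (p : ℕ) [Fact p.Prime] (F : Type) [Field F] [Finite F] [CharP F p],
  p % 6 = 1 → ∀ (ga gb gc : M2 (ZMod p)), ga.det ≠ 0 → gb.det ≠ 0 → gc.det ≠ 0 →
    ((gb * gc) * ga - ga * (gb * gc)).det ≠ 0 → (gb * gc).trace ≠ 0 →
    ga * (gb * gc) ≠ adjugate (gb * gc) * ga →
    (∀ (k : ℕ) (c : ZMod p), 1 ≤ k → k ≤ 5 → (gb * gc) ^ k ≠ !![c, 0; 0, c]) →
    ∀ (a b c d e : Cor F),
      (Is a false (PhM (ga.map (ZMod.castHom (dvd_refl p) F))) ∨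
        Is a true (Q0 F * PhM (ga.map (ZMod.castHom (dvd_refl p) F)))) →
      (Is b false (PhM (gb.map (ZMod.castHom (dvd_refl p) F))) ∨
        Is b true (Q0 F * PhM (gb.map (ZMod.castHom (dvd_refl p) F)))) →
      (Is c false (PhM (gc.map (ZMod.castHom (dvd_refl p) F))) ∨
        Is c true (Q0 F * PhM (gc.map (ZMod.castHom (dvd_refl p) F)))) →
      d * d = 1 → Is e true (Q0 F) → (∃ z : F, z ^ 3 = 1 ∧ Is (d * e) false (z • Cm F)) →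
      e ∈ Subgroup.closure ({a, b, c, d} ∪ Zs F : Set (Cor F))

/-- the exceptional cases with `b` inner -/
def E12Stmt : Prop := ∀ (F : Type) [Field F] [Finite F], OddP F →
  ∀ (a b c d e : Cor F) (σ : F), σ ^ 2 + σ + 1 = 0 → Is a true (Q0 F) →
    Is b false (dg 1 (-1) (-1)) → Is d true (dg σ 1 σ⁻¹) → Is e true (dg 1 1 1) →
    (Is c false (hQ 1 1) ∨ Is c true ((hQ 1 2).transpose * Q0 F)) →
    e ∈ Subgroup.closure ({a, b, c, d} ∪ Zs F : Set (Cor F))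

/-- the exceptional cases with `b` outer -/
def E34Stmt : Prop := ∀ (F : Type) [Field F] [Finite F], OddP F →
  ∀ (a b c d e : Cor F) (σ : F), σ ^ 2 + σ + 1 = 0 → Is a true (Q0 F) →
    Is b true (Jm F) → Is d true (dg σ 1 σ⁻¹) → Is e true (dg 1 1 1) →
    (Is c false (hQ 1 (-1)) ∨ Is c true ((hQ 1 2).transpose * Q0 F)) →
    e ∈ Subgroup.closure ({a, b, c, d} ∪ Zs F : Set (Cor F))

/-- Lemma P for elements of order three applied to `c`, `d`, `e` -/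
def SIDEStmt : Prop := ∀ (F : Type) [Field F] [Finite F], (2 : F) ≠ 0 → (3 : F) ≠ 0 →
  ∀ (C : Subgroup (Cor F)) (a c d e : Cor F) (ρ σ x : F), ρ ≠ 0 → σ ≠ 0 → 2 * ρ + x ^ 2 ≠ 0 →
    x ≠ 0 → orderOf (ρ / σ) = 3 → Is a true (Q0 F) → Is d true (dg σ 1 σ⁻¹) →
    Is e true (dg ρ 1 ρ⁻¹) →
    (Is c false (hQ ρ x) ∨ Is c true ((hQ ρ x).transpose * Q0 F)) →
    c ∈ C → d ∈ C → e ∈ C → a ∉ C →
    (∃ g : SL3 F, (g : Matrix (Fin 3) (Fin 3) F) = dg (-1) 1 (-1) ∧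
      (inn g ∈ C ∨ inn g * a ∈ C)) ∨ (c.s = false ∧ x ^ 2 = ρ) ∨ (c.s = true ∧ x ^ 2 = 4 * ρ)

/-- the big case: `⟨c, d, e⟩` contains the unipotent elements over the prime field -/
def DBIGStmt : Prop := ∀ (F : Type) [Field F] [Finite F], OddP F →
  ∀ (C : Subgroup (Cor F)) (a c d e : Cor F) (σ x : F), σ ^ 2 + σ + 1 = 0 → 2 + x ^ 2 ≠ 0 →
    x ≠ 0 → Is a true (Q0 F) → Is d true (dg σ 1 σ⁻¹) → Is e true (dg 1 1 1) →
    (Is c false (hQ 1 x) ∨ Is c true ((hQ 1 x).transpose * Q0 F)) →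
    c ∈ C → d ∈ C → e ∈ C →
    (∃ g : SL3 F, (g : Matrix (Fin 3) (Fin 3) F) = dg (-1) 1 (-1) ∧
      (inn g ∈ C ∨ inn g * a ∈ C)) →
    ∀ n : ℤ, InM C (Uc (n : F)) ∧ InM C (Lc (n : F))

/-- the end of the mixed case -/
def C3QZStmt : Prop := ∀ (F : Type) [Field F] [Finite F], OddP F →
  ∀ (a b c d e : Cor F) (ρ σ x : F), StrZ a b c d e → ρ ≠ 0 → σ ≠ 0 → 2 * ρ + x ^ 2 ≠ 0 →
    Is a true (Q0 F) → Is b false (dg 1 (-1) (-1)) → Is d true (dg σ 1 σ⁻¹) →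
    Is e true (dg ρ 1 ρ⁻¹) →
    (Is c false (hQ ρ x) ∨ Is c true ((hQ ρ x).transpose * Q0 F)) → False

/-- normal form when `b`, `d` commute only modulo scalars -/
def NFDStmt : Prop := ∀ (F : Type) [Field F] [Finite F], OddP F →
  ∀ (a b c d e : Cor F), StrZ a b c d e → b * d ≠ d * b →
    ∃ (P : SL3 F) (σ x : F), σ ^ 2 + σ + 1 = 0 ∧ 2 + x ^ 2 ≠ 0 ∧
      Is (cj P a) true (Q0 F) ∧ Is (cj P b) true (Jm F) ∧ Is (cj P d) true (dg σ 1 σ⁻¹) ∧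
      Is (cj P e) true (dg 1 1 1) ∧
      (Is (cj P c) false (hQ 1 x) ∨ Is (cj P c) true ((hQ 1 x).transpose * Q0 F))

/-- the end of the case where `b`, `d` commute only modulo scalars -/
def DFINStmt : Prop := ∀ (F : Type) [Field F] [Finite F], OddP F →
  ∀ (a b c d e : Cor F) (σ x : F), StrZ a b c d e → σ ^ 2 + σ + 1 = 0 → 2 + x ^ 2 ≠ 0 →
    Is a true (Q0 F) → Is b true (Jm F) → Is d true (dg σ 1 σ⁻¹) → Is e true (dg 1 1 1) →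
    (Is c false (hQ 1 x) ∨ Is c true ((hQ 1 x).transpose * Q0 F)) → False

/-- the upper bound modulo scalars -/
def U5ZStmt : Prop := ∀ (F : Type) [Field F] [Finite F], OddP F →
  ∀ a b c d e : Cor F, StrZ a b c d e → T5 a b c d e ∨ T5 e d c b a

end Pool.SCG
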