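import Pool.Agent.H24.SCG2.Stmts1

/-!
Project SCG2: statements of the modules, part two (automorphisms, lifting to an extension field).
-/

namespace Pool.SCG

open Matrix

/-- the map `SL(3,F) → SL(3,K)` -/
def iS (F K : Type*) [Field F] [Field K] [Algebra F K] : SL3 F →* SL3 K :=
  Matrix.SpecialLinearGroup.map (algebraMap F K)

/-- `x : Cor K` induces `α` on `SL(3,F)` -/
def Rel {F K : Type*} [Field F] [Field K] [Algebra F K] (x : Cor K) (α : MulAut (SL3 F)) : Prop :=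
  ∀ g : SL3 F, iota K x (iS F K g) = iS F K (α g)

/-- conjugation with an involution of `SL(3,F)` (or the identity) -/
def HomA {F : Type*} [Field F] (α : MulAut (SL3 F)) : Prop :=
  ∃ h : SL3 F, h * h = 1 ∧ α = MulAut.conj h

/-- polarities -/
def PolA {F : Type*} [Field F] (α : MulAut (SL3 F)) : Prop :=
  ∃ P : GL (Fin 3) F, (P : Matrix (Fin 3) (Fin 3) F).transpose = (P : Matrix (Fin 3) (Fin 3) F) ∧
    α = graphAut F * diagAut P

/-- the data of a string C-group of rank five in an arbitrary group -/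
structure StrG {G : Type*} [Group G] (a b c d e : G) : Prop where
  ia : a ≠ 1 ∧ a * a = 1
  ib : b ≠ 1 ∧ b * b = 1
  ic : c ≠ 1 ∧ c * c = 1
  id : d ≠ 1 ∧ d * d = 1
  ie : e ≠ 1 ∧ e * e = 1
  ac : a * c = c * a
  ad : a * d = d * a
  ae : a * e = e * a
  bd : b * d = d * b
  be : b * e = e * b
  ce : c * e = e * c
  ab : a * b ≠ b * a
  bc : b * c ≠ c * b
  cd : c * d ≠ d * c
  de : d * e ≠ e * d
  v1 : e ∉ Subgroup.closure ({a, b, c, d} : Set G)
  v2 : a ∉ Subgroup.closure ({b, c, d, e} : Set G)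
  v3 : ∀ x ∈ Subgroup.closure ({a, b} : Set G), x ∈ Subgroup.closure ({c, d, e} : Set G) → x = 1
  v4 : ∀ x ∈ Subgroup.closure ({d, e} : Set G), x ∈ Subgroup.closure ({a, b, c} : Set G) → x = 1

/-- the relations part of `StrZ` -/
structure RelZ5 {F : Type*} [Field F] (a b c d e : Cor F) : Prop where
  ia : a ≠ 1 ∧ a * a = 1
  ib : b ≠ 1 ∧ b * b = 1
  ic : c ≠ 1 ∧ c * c = 1
  id : d ≠ 1 ∧ d * d = 1
  ie : e ≠ 1 ∧ e * e = 1
  ac : a * c = c * a
  ad : a * d = d * a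
  ae : a * e = e * a
  bd : ∃ z ∈ Zs F, b * d = z * (d * b)
  bdx : a.s = false ∨ b.s = false ∨ d.s = false ∨ e.s = false → b * d = d * b
  be : b * e = e * b
  ce : c * e = e * c

/-- a finite extension in which all elements of `F` are cubes -/
def EXTStmt : Prop := ∀ (F : Type) [Field F] [Finite F], OddP F →
  ∃ (K : Type) (_ : Field K) (_ : Finite K) (_ : Algebra F K), OddP K ∧
    ∀ x : F, ∃ y : K, y ^ 3 = algebraMap F K x

/-- an element which acts trivially on `SL(3,F)` is scalar -/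
def RELZStmt : Prop := ∀ (F K : Type) [Field F] [Field K] [Algebra F K] (x : Cor K),
  Rel (F := F) x 1 → x ∈ Zs K

/-- lifting of homologies and polarities -/
def LFTStmt : Prop := ∀ (F K : Type) [Field F] [Field K] [Algebra F K], (2 : F) ≠ 0 →
  (∀ x : F, ∃ y : K, y ^ 3 = algebraMap F K x) → ∀ α : MulAut (SL3 F), α ≠ 1 →
    (HomA α → ∃ x : Cor K, Rel x α ∧ x.s = false ∧ x ≠ 1 ∧ x * x = 1) ∧
    (PolA α → ∃ x : Cor K, Rel x α ∧ x.s = true ∧ x ≠ 1 ∧ x * x = 1)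

/-- rescaling of the lifts -/
def LIF5Stmt : Prop := ∀ (K : Type) [Field K], (2 : K) ≠ 0 → ∀ a b c d e : Cor K,
  a ≠ 1 → b ≠ 1 → c ≠ 1 → d ≠ 1 → e ≠ 1 →
  a * a = 1 → b * b = 1 → c * c = 1 → d * d = 1 → e * e = 1 →
  (∃ z ∈ Zs K, a * c = z * (c * a)) → (∃ z ∈ Zs K, a * d = z * (d * a)) →
  (∃ z ∈ Zs K, a * e = z * (e * a)) → (∃ z ∈ Zs K, b * d = z * (d * b)) →
  (∃ z ∈ Zs K, b * e = z * (e * b)) → (∃ z ∈ Zs K, c * e = z * (e * c)) →
  ∃ a' b' c' d' e' : Cor K, (∃ z ∈ Zs K, a' = a * z) ∧ (∃ z ∈ Zs K, b' = b * z) ∧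
    (∃ z ∈ Zs K, c' = c * z) ∧ (∃ z ∈ Zs K, d' = d * z) ∧ (∃ z ∈ Zs K, e' = e * z) ∧
    RelZ5 a' b' c' d' e'

/-- windows of a string C-group -/
def WINStmt : Prop := ∀ (G : Type) [Group G] (r : ℕ) (ρ : Fin r → G), IsStringC r ρ →
  (∀ i j : Fin r, i.val + 1 = j.val → ρ i * ρ j ≠ ρ j * ρ i) →
  ∀ i j k l m : Fin r, i.val + 1 = j.val → j.val + 1 = k.val → k.val + 1 = l.val →
    l.val + 1 = m.val → StrG (ρ i) (ρ j) (ρ k) (ρ l) (ρ m)

/-- strings of automorphisms lift to strings modulo scalars -/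
def S5ZStmt : Prop := ∀ (F K : Type) [Field F] [Finite F] [Field K] [Finite K] [Algebra F K],
  OddP F → OddP K → (∀ x : F, ∃ y : K, y ^ 3 = algebraMap F K x) →
  ∀ a b c d e : MulAut (SL3 F), StrG a b c d e →
    (HomA a ∨ PolA a) → (HomA b ∨ PolA b) → (HomA c ∨ PolA c) → (HomA d ∨ PolA d) →
    (HomA e ∨ PolA e) →
    ∃ a' b' c' d' e' : Cor K, Rel a' a ∧ Rel b' b ∧ Rel c' c ∧ Rel d' d ∧ Rel e' e ∧
      StrZ a' b' c' d' e'

/-- monomial strings do not generate -/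
def T5NStmt : Prop := ∀ (F K : Type) [Field F] [Finite F] [Field K] [Finite K] [Algebra F K],
  OddP F → OddP K → ∀ (a b c d e : MulAut (SL3 F)) (a' b' c' d' e' : Cor K),
    Rel a' a → Rel b' b → Rel c' c → Rel d' d → Rel e' e → T5 a' b' c' d' e' →
    ∃ m : SL3 F, MulAut.conj m ∉ Subgroup.closure ({a, b, c, d, e} : Set (MulAut (SL3 F)))

/-- rank six is impossible -/
def R6Stmt : Prop := ∀ (F K : Type) [Field F] [Finite F] [Field K] [Finite K] [Algebra F K],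
  OddP F → OddP K → (∀ x : F, ∃ y : K, y ^ 3 = algebraMap F K x) →
  ∀ a b c d e f : MulAut (SL3 F), StrG a b c d e → StrG b c d e f →
    (HomA a ∨ PolA a) → (HomA b ∨ PolA b) → (HomA c ∨ PolA c) → (HomA d ∨ PolA d) →
    (HomA e ∨ PolA e) → (HomA f ∨ PolA f) → False

/-- `SL(3,F)` is generated by elementary transvections -/
def GENTStmt : Prop := ∀ (F : Type) [Field F] (H : Subgroup (SL3 F)),
  (∀ (i j : Fin 3) (hij : i ≠ j) (t : F),
    (⟨transvection i j t, det_transvection_of_ne i j hij t⟩ : SL3 F) ∈ H) → H = ⊤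

/-- all conjugates of `α` commute with `β`: impossible -/
def NCZStmt : Prop := ∀ (F : Type) [Field F] [Finite F], OddP F →
  ∀ α β : MulAut (SL3 F), α ≠ 1 → β ≠ 1 → α * α = 1 → (HomA α ∨ PolA α) →
    ∃ g : SL3 F, (MulAut.conj g * α * (MulAut.conj g)⁻¹) * β ≠
      β * (MulAut.conj g * α * (MulAut.conj g)⁻¹)

/-- irreducibility -/
def IRZStmt : Prop := ∀ (F : Type) [Field F] [Finite F], OddP F →
  ∀ (r : ℕ) (ρ : Fin r → MulAut (SL3 F)), (∀ i, ρ i ≠ 1 ∧ ρ i * ρ i = 1) →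
    (∀ i, HomA (ρ i) ∨ PolA (ρ i)) →
    (∀ i j : Fin r, i.val + 2 ≤ j.val → ρ i * ρ j = ρ j * ρ i) →
    (∀ m : SL3 F, MulAut.conj m ∈ Subgroup.closure (Set.range ρ)) →
    ∀ i j : Fin r, i.val + 1 = j.val → ρ i * ρ j ≠ ρ j * ρ i

/-- strings of homologies do not generate `SL(3,F)`, in `Cor F` -/
def BVwStmt : Prop := ∀ (F : Type) [Field F] [Finite F], G2 F →
  ∀ (r : ℕ) (ρ : Fin r → Cor F), (∀ i, ρ i ≠ 1 ∧ ρ i * ρ i = 1) → (∀ i, (ρ i).s = false) →
    (∀ i j : Fin r, i.val + 2 ≤ j.val → ρ i * ρ j = ρ j * ρ i) →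
    (∀ i j : Fin r, i.val + 1 = j.val → ρ i * ρ j ≠ ρ j * ρ i) →
    ∃ m : SL3 F, inn m ∉ Subgroup.closure (Set.range ρ)

/-- strings of homologies do not generate the inner automorphisms -/
def BVZStmt : Prop := ∀ (F : Type) [Field F] [Finite F], OddP F →
  ∀ (r : ℕ) (ρ : Fin r → MulAut (SL3 F)), (∀ i, ρ i ≠ 1 ∧ ρ i * ρ i = 1) →
    (∀ i, HomA (ρ i)) →
    (∀ i j : Fin r, i.val + 2 ≤ j.val → ρ i * ρ j = ρ j * ρ i) →
    (∀ i j : Fin r, i.val + 1 = j.val → ρ i * ρ j ≠ ρ j * ρ i) →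
    ∃ m : SL3 F, MulAut.conj m ∉ Subgroup.closure (Set.range ρ)

/-- normal form of the automorphisms in `AutG F` -/
def AUNZStmt : Prop := ∀ (F : Type) [Field F], ∀ α ∈ AutG F,
  ∃ (P : GL (Fin 3) F) (σ : F ≃+* F), α = diagAut P * fieldAut σ ∨
    α = graphAut F * diagAut P * fieldAut σ

/-- a field automorphism which acts like a diagonal or graph automorphism is trivial -/
def AUFZStmt : Prop := ∀ (F : Type) [Field F], ∀ (P : GL (Fin 3) F) (σ : F ≃+* F),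
  (diagAut P * fieldAut σ = 1 → σ = 1) ∧ graphAut F * diagAut P * fieldAut σ ≠ 1

/-- a finite field with `q` odd, not a square, has no automorphism of order two -/
def FAOZStmt : Prop := ∀ (F : Type) [Field F] [Finite F], (2 : F) ≠ 0 →
  ¬ IsSquare (Nat.card F) → ∀ σ : F ≃+* F, σ * σ = 1 → σ = 1

/-- involutions of `AutG F` -/
def AUIZStmt : Prop := ∀ (F : Type) [Field F] [Finite F], (2 : F) ≠ 0 →
  ¬ IsSquare (Nat.card F) → ∀ α ∈ AutG F, α * α = 1 → HomA α ∨ PolA α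

/-- the group generated -/
def GPAStmt : Prop := ∀ (F : Type) [Field F] [Finite F], OddP F →
  ∀ (r : ℕ) (ρ : Fin r → MulAut (SL3 F)), (∀ i, HomA (ρ i) ∨ PolA (ρ i)) →
    (∃ i, PolA (ρ i)) → Inn F ≤ Subgroup.closure (Set.range ρ) →
    Adm (Subgroup.closure (Set.range ρ))

/-- the upper bound for all groups between -/
def UPZStmt : Prop := ∀ (F : Type) [Field F] [Finite F], OddP F →
  ∀ (G : Subgroup (MulAut (SL3 F))) (r : ℕ), Inn F ≤ G → G ≤ AutG F → HasStringC G r →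
    Adm G ∧ r ≤ 4

end Pool.SCG
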