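import Pool.Agent.H24.SCG2.Stmts4
import Pool.Agent.H24.SCG2.DefsP

/-!
Project SCG2: the groups of automorphisms of `PSL(3,F)`.
-/

namespace Pool.SCG

open Matrix

/-- `indAut` is injective -/
def PSIStmt : Prop := ∀ (F : Type) [Field F], Function.Injective (indAut F)

/-- transport along an injective homomorphism -/
def TRNStmt : Prop := ∀ (A B : Type) [Group A] [Group B] (φ : A →* B), Function.Injective φ →
  ∀ (G : Subgroup A) (r : ℕ), HasStringC (G.map φ) r ↔ HasStringC G r

/-- the final theorem for `PSL(3,F)` -/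
def FINPStmt : Prop := ∀ (F : Type) [Field F] [Finite F], Odd (Nat.card F) →
  ¬ IsSquare (Nat.card F) →
  (∀ G : Subgroup (MulAut (PSL3 F)), InnP F ≤ G → G ≤ AutP F →
    ((∃ r, HasStringC G r) ↔ (G = DiagP F ∨ ∃ P : GL (Fin 3) F, G = (GraphP F).map
      (MulAut.conj (indAut F (diagAut P))).toMonoidHom))) ∧
  (∀ G : Subgroup (MulAut (PSL3 F)), (G = DiagP F ∨ ∃ P : GL (Fin 3) F, G = (GraphP F).map
      (MulAut.conj (indAut F (diagAut P))).toMonoidHom) →
    InnP F ≤ G ∧ G ≤ AutP F ∧ IsGreatest {r : ℕ | HasStringC G r} 4)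

end Pool.SCG
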